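import Pool.Agent.T6.H78.KF.Cor2

/-!
# Comparison of the differences of two replicas with the squared density
-/

set_option autoImplicit false
set_option linter.unusedSectionVars false

namespace Pool.Agent.T6.H78.KF

open MeasureTheory Finset Set

variable {ι : Type} [Fintype ι] {L : ℝ} {A : ι → ι → ℝ} {V : ι → ℝ → ℝ}

/-- `(c, r) ↦ (c + r, c - r)` -/
noncomputable def Tc : (E ι × E ι) ≃ₗ[ℝ] (E ι × E ι) where
  toFun p := (p.1 + p.2, p.1 - p.2)
  map_add' x y := by
    ext k <;> simp <;> ring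
  map_smul' c x := by
    ext k <;> simp <;> ring
  invFun p := ((1 / 2 : ℝ) • (p.1 + p.2), (1 / 2 : ℝ) • (p.1 - p.2))
  left_inv p := by
    ext k <;> simp <;> ring
  right_inv p := by
    ext k <;> simp <;> ring

theorem crl {ρ f : E ι → ℝ} {K : ℝ}
    (i0 : Integrable fun p : E ι × E ι => ρ p.1 * ρ p.2)
    (i1 : Integrable fun p : E ι × E ι => f ((1 / 2 : ℝ) • (p.1 - p.2)) * (ρ p.1 * ρ p.2))
    (h : ∀ c : E ι, ∫ r, f r * (ρ (c + r) * ρ (c - r)) ≤ K * ∫ r, ρ (c + r) * ρ (c - r)) :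
    ∫ p : E ι × E ι, f ((1 / 2 : ℝ) • (p.1 - p.2)) * (ρ p.1 * ρ p.2) ≤
      K * ∫ p : E ι × E ι, ρ p.1 * ρ p.2 := by
  obtain ⟨κ, hκ, h1, h2⟩ := cv ((volume : Measure (E ι)).prod (volume : Measure (E ι)))
    ((volume : Measure (E ι)).prod (volume : Measure (E ι))) Tc
  have j0 := h2 _ i0
  have j1 := h2 _ i1
  have e0 := h1 (fun p : E ι × E ι => ρ p.1 * ρ p.2)
  have e1 := h1 (fun p : E ι × E ι => f ((1 / 2 : ℝ) • (p.1 - p.2)) * (ρ p.1 * ρ p.2))
  have e2 : ∀ z : E ι × E ι, f ((1 / 2 : ℝ) • ((Tc z).1 - (Tc z).2)) * (ρ (Tc z).1 * ρ (Tc z).2)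
      = f z.2 * (ρ (z.1 + z.2) * ρ (z.1 - z.2)) := by
    intro z
    have : (1 / 2 : ℝ) • ((Tc z).1 - (Tc z).2) = z.2 := by
      show (1 / 2 : ℝ) • ((z.1 + z.2) - (z.1 - z.2)) = z.2
      ext k
      simp
      ring
    rw [this]
    rfl
  have e3 : ∀ z : E ι × E ι, ρ (Tc z).1 * ρ (Tc z).2 = ρ (z.1 + z.2) * ρ (z.1 - z.2) :=
    fun z => rfl
  simp only [e2] at e1 j1
  simp only [e3] at e0 j0
  rw [integral_prod _ j1] at e1
  rw [integral_prod _ j0] at e0
  have k1 : (∫ c : E ι, ∫ r : E ι, f r * (ρ (c + r) * ρ (c - r))) ≤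
      K * ∫ c : E ι, ∫ r : E ι, ρ (c + r) * ρ (c - r) := by
    rw [← integral_const_mul]
    exact integral_mono j1.integral_prod_left (j0.integral_prod_left.const_mul K) fun c => h c
  simp only at e0 e1
  rw [e0, e1] at k1
  refine le_of_mul_le_mul_left ?_ hκ
  calc κ * ∫ p : E ι × E ι, f ((1 / 2 : ℝ) • (p.1 - p.2)) * (ρ p.1 * ρ p.2) ≤ _ := k1
    _ = _ := by
      rw [Measure.volume_eq_prod]
      ring

/-- admissible cut-offs -/
structure Cut (χ : ℝ → ℝ) : Prop where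
  meas : Measurable χ
  nonneg : ∀ t, 0 ≤ χ t
  le_one : ∀ t, χ t ≤ 1
  even : ∀ t, χ (-t) = χ t
  dec : ∀ c s t : ℝ, |s| ≤ |t| → χ (c + t) * χ (c - t) ≤ χ (c + s) * χ (c - s)

theorem cut_one : Cut (fun _ => 1) :=
  ⟨measurable_const, fun _ => zero_le_one, fun _ => le_refl 1, fun _ => rfl,
    fun _ _ _ _ => le_refl _⟩

open Classical in
theorem cut_ind (R : ℝ) : Cut (fun t => if |t| ≤ R then 1 else 0) := by
  refine ⟨?_, fun t => ?_, fun t => ?_, fun t => by simp, fun c s t hst => ?_⟩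
  · exact Measurable.ite (measurableSet_le (by fun_prop) measurable_const) measurable_const
      measurable_const
  · split_ifs <;> norm_num
  · split_ifs <;> norm_num
  · by_cases h1 : |c + t| ≤ R
    · by_cases h2 : |c - t| ≤ R
      · have k : |c| + |t| ≤ R := by
          rcases abs_cases c with ⟨hc, _⟩ | ⟨hc, _⟩ <;> rcases abs_cases t with ⟨ht, _⟩ | ⟨ht, _⟩ <;>
            rw [hc, ht] <;> have a1 := abs_le.1 h1 <;> have a2 := abs_le.1 h2 <;> linarith
        have h3 : |c + s| ≤ R := (abs_add_le c s).trans (by linarith)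
        have h4 : |c - s| ≤ R := (abs_sub c s).trans (by linarith)
        rw [if_pos h1, if_pos h2, if_pos h3, if_pos h4]
      · rw [if_neg h2, mul_zero]
        split_ifs <;> norm_num
    · rw [if_neg h1, zero_mul]
      split_ifs <;> norm_num

/-- the single spin weights of the difference of two replicas, given their sum -/
noncomputable def aw (V : ι → ℝ → ℝ) (τ : ℝ) (χ : ℝ → ℝ) (c : E ι) : ι → ℝ → ℝ := fun k t =>
  Real.exp (-(2 * τ * t ^ 2)) * Real.exp (-(V k (c k + t) + V k (c k - t))) *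
    (χ (c k + t) * χ (c k - t))

/-- the tilted and cut off density -/
noncomputable def tl (A : ι → ι → ℝ) (V : ι → ℝ → ℝ) (τ : ℝ) (χ : ℝ → ℝ) (y x : E ι) : ℝ :=
  wt A V x * Real.exp (-(τ * ‖x - y‖ ^ 2)) * ∏ k, χ (x k)

theorem tl_mul (A : ι → ι → ℝ) (V : ι → ℝ → ℝ) (τ : ℝ) (χ : ℝ → ℝ) (y c r : E ι) :
    tl A V τ χ y (c + r) * tl A V τ χ y (c - r) =
      Real.exp (-(qd A c + 2 * τ * ‖c - y‖ ^ 2)) * den A (aw V τ χ c) r := by
  have e1 : HH A V (c + r) + HH A V (c - r) = qd A c + qd A r +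
      ∑ k, (V k (c k + r k) + V k (c k - r k)) := by
    simp only [HH, PiLp.add_apply, PiLp.sub_apply, Finset.sum_add_distrib]
    have : qd A (c + r) + qd A (c - r) = 2 * qd A c + 2 * qd A r := by
      simp only [qd, PiLp.add_apply, PiLp.sub_apply, Finset.mul_sum, ← Finset.sum_add_distrib]
      refine Finset.sum_congr rfl fun i _ => Finset.sum_congr rfl fun j _ => ?_
      ring
    linarith
  have e2 : ‖c + r - y‖ ^ 2 + ‖c - r - y‖ ^ 2 = 2 * ‖c - y‖ ^ 2 + 2 * ∑ k, r k ^ 2 := by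
    have h1 := parallelogram_law_with_norm ℝ (c - y) r
    have h2 : ‖r‖ ^ 2 = ∑ k, r k ^ 2 := by
      rw [EuclideanSpace.norm_sq_eq]
      simp
    rw [show c + r - y = c - y + r by abel, show c - r - y = c - y - r by abel]
    nlinarith
  have e3 : wt A V (c + r) * wt A V (c - r) * (Real.exp (-(τ * ‖c + r - y‖ ^ 2)) *
      Real.exp (-(τ * ‖c - r - y‖ ^ 2))) = Real.exp (-(qd A c + 2 * τ * ‖c - y‖ ^ 2)) *
      (Real.exp (-qd A r) * ((∏ k, Real.exp (-(2 * τ * r k ^ 2))) *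
      ∏ k, Real.exp (-(V k (c k + r k) + V k (c k - r k))))) := by
    rw [← Real.exp_sum, ← Real.exp_sum, wt, wt]
    simp only [← Real.exp_add]
    congr 1
    simp only [Finset.sum_neg_distrib, ← Finset.mul_sum]
    linear_combination -e1 - τ * e2
  simp only [tl, den, aw, Finset.prod_mul_distrib, PiLp.add_apply, PiLp.sub_apply]
  calc _ = wt A V (c + r) * wt A V (c - r) * (Real.exp (-(τ * ‖c + r - y‖ ^ 2)) *
      Real.exp (-(τ * ‖c - r - y‖ ^ 2))) * ((∏ k, χ (c k + r k)) * ∏ k, χ (c k - r k)) := by ring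
    _ = _ := by
      rw [e3]
      simp only [qd]
      ring

theorem aw_nonneg {χ : ℝ → ℝ} (hχ : Cut χ) (τ : ℝ) (c : E ι) (k : ι) (t : ℝ) :
    0 ≤ aw V τ χ c k t :=
  mul_nonneg (by positivity) (mul_nonneg (hχ.nonneg _) (hχ.nonneg _))

theorem aw_even {χ : ℝ → ℝ} (τ : ℝ) (c : E ι) (k : ι) (t : ℝ) :
    aw V τ χ c k (-t) = aw V τ χ c k t := by
  simp only [aw, neg_sq, sub_neg_eq_add, ← sub_eq_add_neg]
  rw [add_comm (V k (c k - t)), mul_comm (χ (c k - t))]

theorem aw_dom (h : Sys L A V) {χ : ℝ → ℝ} (hχ : Cut χ) {τ : ℝ} (hτ : 0 ≤ τ) (c : E ι) (k : ι) :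
    Dom (aw V τ χ c k) (sw (fun k t => 2 * V k t) k) := by
  intro s t hst
  have h1 := hχ.dec (c k) s t hst
  have h2 := (h.pot k).sm (p := c k) (q := 0) (u := t) (w := s) (by simp) hst
  simp only [zero_add, zero_sub, (h.pot k).even] at h2
  have h3 : s ^ 2 ≤ t ^ 2 := sq_le_sq.2 hst
  simp only [aw, sw]
  have h4 : Real.exp (-(2 * τ * t ^ 2)) * Real.exp (-(V k (c k + t) + V k (c k - t))) *
      Real.exp (-(2 * V k s)) ≤ Real.exp (-(2 * τ * s ^ 2)) *
      Real.exp (-(V k (c k + s) + V k (c k - s))) * Real.exp (-(2 * V k t)) := by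
    simp only [← Real.exp_add]
    refine Real.exp_le_exp.2 ?_
    have := mul_le_mul_of_nonneg_left h3 hτ
    linarith
  calc _ = (Real.exp (-(2 * τ * t ^ 2)) * Real.exp (-(V k (c k + t) + V k (c k - t))) *
      Real.exp (-(2 * V k s))) * (χ (c k + t) * χ (c k - t)) := by ring
    _ ≤ (Real.exp (-(2 * τ * s ^ 2)) *
      Real.exp (-(V k (c k + s) + V k (c k - s))) * Real.exp (-(2 * V k t))) *
      (χ (c k + s) * χ (c k - s)) := by
        refine mul_le_mul h4 h1 (mul_nonneg (hχ.nonneg _) (hχ.nonneg _)) (by positivity)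
    _ = _ := by ring

theorem wt2_den (A : ι → ι → ℝ) (V : ι → ℝ → ℝ) :
    wt (fun i j => 2 * A i j) (fun k t => 2 * V k t) = den A (sw fun k t => 2 * V k t) := by
  rw [wt_den]
  congr 1
  funext i j
  ring

theorem den_aw_le (h : Sys L A V) {χ : ℝ → ℝ} (hχ : Cut χ) {τ : ℝ} (hτ : 0 ≤ τ) (c : E ι) :
    ∃ C : ℝ, 0 ≤ C ∧ ∀ x : E ι, den A (aw V τ χ c) x ≤
      C * wt (fun i j => 2 * A i j) (fun k t => 2 * V k t) x := by
  refine ⟨∏ k, aw V τ χ c k 0 / sw (fun k t => 2 * V k t) k 0, Finset.prod_nonneg fun k _ =>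
    div_nonneg (aw_nonneg hχ τ c k 0) (sw_nonneg _ k 0), fun x => ?_⟩
  rw [wt2_den, den, den, mul_left_comm, ← Finset.prod_mul_distrib]
  refine mul_le_mul_of_nonneg_left ?_ (Real.exp_pos _).le
  refine Finset.prod_le_prod (fun k _ => aw_nonneg hχ τ c k _) fun k _ => ?_
  have h1 := aw_dom h hχ hτ c k 0 (x k) (by simp)
  have h2 : 0 < sw (fun k t => 2 * V k t) k 0 := Real.exp_pos _
  rw [div_mul_eq_mul_div, le_div_iff₀ h2]
  exact h1

theorem den_aw_int (h : Sys L A V) {χ : ℝ → ℝ} (hχ : Cut χ) {τ : ℝ} (hτ : 0 ≤ τ) (c : E ι)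
    {f : E ι → ℝ} (hf : PG f) : Integrable (fun x => f x * den A (aw V τ χ c) x) := by
  obtain ⟨C, hC, h1⟩ := den_aw_le h hχ hτ c
  have h2 := h.double.intg hf
  have hm : Measurable (den A (aw V τ χ c)) := by
    have hχm := hχ.meas
    have hV : ∀ k, Measurable (V k) := fun k => (h.pot k).diff.continuous.measurable
    refine Measurable.mul ?_ (Finset.measurable_prod _ fun k _ => ?_)
    · exact (Real.continuous_exp.comp (qd_cont A).neg).measurable
    · have a1 : Measurable (aw V τ χ c k) := by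
        unfold aw
        have b1 : Measurable fun t : ℝ => V k (c k + t) := (hV k).comp (by fun_prop)
        have b2 : Measurable fun t : ℝ => V k (c k - t) := (hV k).comp (by fun_prop)
        have b3 : Measurable fun t : ℝ => χ (c k + t) := hχm.comp (by fun_prop)
        have b4 : Measurable fun t : ℝ => χ (c k - t) := hχm.comp (by fun_prop)
        exact ((by fun_prop : Measurable fun t : ℝ => Real.exp (-(2 * τ * t ^ 2))).mul
          (Real.measurable_exp.comp (b1.add b2).neg)).mul (b3.mul b4)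
      exact a1.comp (by fun_prop)
  refine (h2.norm.const_mul C).mono' (hf.meas.mul hm).aestronglyMeasurable
    (Filter.Eventually.of_forall fun x => ?_)
  have hd : 0 ≤ den A (aw V τ χ c) x := mul_nonneg (Real.exp_pos _).le
    (Finset.prod_nonneg fun k _ => aw_nonneg hχ τ c k _)
  rw [Real.norm_eq_abs, Real.norm_eq_abs, abs_mul, abs_mul, abs_of_nonneg hd,
    abs_of_pos (wt_pos x)]
  calc |f x| * den A (aw V τ χ c) x ≤ |f x| * (C * wt (fun i j => 2 * A i j)
      (fun k t => 2 * V k t) x) := by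
        gcongr
        exact h1 x
    _ = _ := by ring

/-- second moments of the difference of two replicas, given their sum -/
theorem cond_uv (h : Sys L A V) {χ : ℝ → ℝ} (hχ : Cut χ) {τ : ℝ} (hτ : 0 ≤ τ) (c : E ι)
    (u v : ι) : 0 ≤ ∫ x : E ι, x u * x v * den A (aw V τ χ c) x ∧
    ∫ x : E ι, x u * x v * den A (aw V τ χ c) x ≤
      ex (fun i j => 2 * A i j) (fun k t => 2 * V k t) (fun x => x u * x v) *
        ∫ x : E ι, den A (aw V τ χ c) x := by
  have iuv : Integrable fun x : E ι => x u * x v * den A (aw V τ χ c) x :=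
    den_aw_int h hχ hτ c ((PG.coord u).mul (PG.coord v))
  have i0 : Integrable (den A (aw V τ χ c)) := by
    have := den_aw_int h hχ hτ c (PG.const (ι := ι) 1)
    simpa using this
  refine ⟨KF.gks1 h.off (aw_nonneg hχ τ c) (aw_even τ c) u v (f := fun t => t) (fun _ => rfl)
    (fun _ ht => ht) iuv, ?_⟩
  have hZ := h.double.Zpos
  have j0 := h.double.int
  have juv := h.double.intg ((PG.coord (ι := ι) u).mul (PG.coord v))
  rw [ex, div_mul_eq_mul_div, le_div_iff₀ hZ]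
  rw [wt2_den] at j0 juv ⊢
  have := cmp_uv h.off (aw_nonneg hχ τ c) (aw_even τ c) (sw_nonneg _) h.double.sw_even
    (aw_dom h hχ hτ c) u v i0 j0 iuv juv
  linarith

/-- even monotone functions of the difference of two replicas, given their sum -/
theorem cond_g (h : Sys L A V) {χ : ℝ → ℝ} (hχ : Cut χ) {τ : ℝ} (hτ : 0 ≤ τ) (c : E ι) (j : ι) :
    ∫ x : E ι, gg (V j) (x j) * den A (aw V τ χ c) x ≤
      ex (fun i j => 2 * A i j) (fun k t => 2 * V k t) (fun x => gg (V j) (x j)) *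
        ∫ x : E ι, den A (aw V τ χ c) x := by
  have iuv : Integrable fun x : E ι => gg (V j) (x j) * den A (aw V τ χ c) x :=
    den_aw_int h hχ hτ c (PG.gg h.two (h.pot j) j)
  have i0 : Integrable (den A (aw V τ χ c)) := by
    have := den_aw_int h hχ hτ c (PG.const (ι := ι) 1)
    simpa using this
  have hZ := h.double.Zpos
  have j0 := h.double.int
  have juv := h.double.intg (PG.gg (ι := ι) h.two (h.pot j) j)
  rw [ex, div_mul_eq_mul_div, le_div_iff₀ hZ]
  rw [wt2_den] at j0 juv ⊢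
  have := cmp_g h.off (aw_nonneg hχ τ c) (aw_even τ c) (sw_nonneg _) h.double.sw_even
    (aw_dom h hχ hτ c) j (h.pot j).em i0 j0 iuv juv
  linarith

end Pool.Agent.T6.H78.KF
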