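import Pool.Agent.T6.H78.KF.SD

/-!
# Correlation inequalities for ferromagnetic systems
-/

set_option autoImplicit false
set_option linter.unusedSectionVars false

namespace Pool.Agent.T6.H78.KF

open MeasureTheory Finset Set

variable {ι : Type} [Fintype ι] {L : ℝ} {A : ι → ι → ℝ} {V : ι → ℝ → ℝ}

/-- expectation -/
noncomputable def ex (A : ι → ι → ℝ) (V : ι → ℝ → ℝ) (f : E ι → ℝ) : ℝ :=
  (∫ x, f x * wt A V x) / ∫ x, wt A V x

theorem Sys.half_off (h : Sys L A V) (i j : ι) (hij : i ≠ j) : A i j / 2 ≤ 0 := by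
  have := h.off i j hij
  linarith

theorem sw_nonneg (V : ι → ℝ → ℝ) (k : ι) (t : ℝ) : 0 ≤ sw V k t := (Real.exp_pos _).le

theorem Sys.sw_even (h : Sys L A V) (k : ι) (t : ℝ) : sw V k (-t) = sw V k t := by
  simp only [sw, (h.pot k).even]

/-- GKS I for the system -/
theorem Sys.gks1 (h : Sys L A V) (i j : ι) {f : ℝ → ℝ} (hf : ∀ t, f (-t) = -f t)
    (hf0 : ∀ t, 0 ≤ t → 0 ≤ f t) (hi : PG fun x : E ι => f (x j)) :
    0 ≤ ∫ x : E ι, x i * f (x j) * wt A V x := by
  have i1 := h.intg ((PG.coord i).mul hi)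
  rw [wt_den] at i1 ⊢
  exact KF.gks1 h.half_off (sw_nonneg V) h.sw_even i j hf hf0 i1

theorem Sys.cov_nonneg (h : Sys L A V) (i j : ι) : 0 ≤ ∫ x : E ι, x i * x j * wt A V x :=
  h.gks1 i j (f := fun t => t) (fun _ => rfl) (fun _ ht => ht) (PG.coord j)

/-- GKS II for the system -/
theorem Sys.gks2 (h : Sys L A V) (i j : ι) :
    (∫ x : E ι, x i * x j * wt A V x) * (∫ x : E ι, gg (V j) (x j) * wt A V x) ≤
      (∫ x, wt A V x) * ∫ x : E ι, x i * deriv (V j) (x j) * wt A V x := by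
  have i0 := h.int
  have i1 := h.intg ((PG.coord i).mul (PG.coord j))
  have i2 := h.intg (PG.gg h.two (h.pot j) j)
  have i3 := h.intg (((PG.coord i).mul (PG.coord j)).mul (PG.gg h.two (h.pot j) j))
  rw [wt_den] at i0 i1 i2 i3 ⊢
  have := KF.gks2 h.half_off (sw_nonneg V) h.sw_even i j (h.pot j).em i0 i1 i2 i3
  refine this.trans (le_of_eq ?_)
  congr 1
  refine integral_congr_ae (Filter.Eventually.of_forall fun x => ?_)
  simp only
  rw [← (h.pot j).mul_gg]
  ring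

theorem Sys.wt_even (h : Sys L A V) (x : E ι) : wt A V (-x) = wt A V x := by
  simp only [wt, HH, qd, PiLp.neg_apply, (h.pot _).even, neg_mul_neg]

theorem Sys.odd_int (h : Sys L A V) (i : ι) : ∫ x : E ι, x i * wt A V x = 0 := by
  have h1 : ∫ x : E ι, x i * wt A V x = -∫ x : E ι, x i * wt A V x := by
    rw [← integral_neg]
    conv_lhs => rw [← integral_neg_eq_self]
    refine integral_congr_ae (Filter.Eventually.of_forall fun x => ?_)
    simp only [PiLp.neg_apply, h.wt_even]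
    ring
  linarith

/-! ### pairs -/

/-- polynomial growth on pairs -/
structure PG2 (f : E ι × E ι → ℝ) : Prop where
  meas : Measurable f
  bound : ∃ (C : ℝ) (N : ℕ), 0 ≤ C ∧ ∀ p, |f p| ≤ C * ((1 + ‖p.1‖) ^ N * (1 + ‖p.2‖) ^ N)

theorem Sys.intg2 (h : Sys L A V) {f : E ι × E ι → ℝ} (hf : PG2 f) :
    Integrable (fun p : E ι × E ι => f p * (wt A V p.1 * wt A V p.2)) := by
  obtain ⟨C, N, hC, h1⟩ := hf.bound
  have i1 : Integrable (fun p : E ι × E ι => ((1 + ‖p.1‖) ^ N * wt A V p.1) *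
    ((1 + ‖p.2‖) ^ N * wt A V p.2)) := (h.mom N).mul_prod (h.mom N)
  have hwc := h.cwt.measurable
  refine (i1.const_mul C).mono' (hf.meas.mul ((hwc.comp measurable_fst).mul
    (hwc.comp measurable_snd))).aestronglyMeasurable (Filter.Eventually.of_forall fun p => ?_)
  have h2 := wt_pos (A := A) (V := V) p.1
  have h3 := wt_pos (A := A) (V := V) p.2
  rw [Real.norm_eq_abs, abs_mul, abs_of_pos (mul_pos h2 h3)]
  calc |f p| * (wt A V p.1 * wt A V p.2) ≤
      C * ((1 + ‖p.1‖) ^ N * (1 + ‖p.2‖) ^ N) * (wt A V p.1 * wt A V p.2) := by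
        gcongr
        exact h1 p
    _ = _ := by ring

theorem PG2.mul {f g : E ι × E ι → ℝ} (hf : PG2 f) (hg : PG2 g) : PG2 (fun x => f x * g x) := by
  obtain ⟨C, N, hC, h1⟩ := hf.bound
  obtain ⟨D, M, hD, h2⟩ := hg.bound
  refine ⟨hf.meas.mul hg.meas, C * D, N + M, by positivity, fun p => ?_⟩
  rw [abs_mul]
  calc |f p| * |g p| ≤ (C * ((1 + ‖p.1‖) ^ N * (1 + ‖p.2‖) ^ N)) *
      (D * ((1 + ‖p.1‖) ^ M * (1 + ‖p.2‖) ^ M)) := by
        gcongr
        · exact h1 p
        · exact h2 p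
    _ = _ := by rw [pow_add, pow_add]; ring

theorem PG2.add {f g : E ι × E ι → ℝ} (hf : PG2 f) (hg : PG2 g) : PG2 (fun x => f x + g x) := by
  obtain ⟨C, N, hC, h1⟩ := hf.bound
  obtain ⟨D, M, hD, h2⟩ := hg.bound
  refine ⟨hf.meas.add hg.meas, C + D, N + M, by positivity, fun p => ?_⟩
  have hx : 1 ≤ 1 + ‖p.1‖ := by linarith [norm_nonneg p.1]
  have hy : 1 ≤ 1 + ‖p.2‖ := by linarith [norm_nonneg p.2]
  calc |f p + g p| ≤ |f p| + |g p| := abs_add_le _ _
    _ ≤ C * ((1 + ‖p.1‖) ^ N * (1 + ‖p.2‖) ^ N) + D * ((1 + ‖p.1‖) ^ M * (1 + ‖p.2‖) ^ M) :=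
        add_le_add (h1 p) (h2 p)
    _ ≤ C * ((1 + ‖p.1‖) ^ (N + M) * (1 + ‖p.2‖) ^ (N + M)) +
        D * ((1 + ‖p.1‖) ^ (N + M) * (1 + ‖p.2‖) ^ (N + M)) := by
        gcongr <;> omega
    _ = _ := by ring

theorem PG2.fst {f : E ι → ℝ} (hf : PG f) : PG2 (fun p : E ι × E ι => f p.1) := by
  obtain ⟨C, N, hC, h1⟩ := hf.bound
  refine ⟨hf.meas.comp measurable_fst, C, N, hC, fun p => (h1 p.1).trans ?_⟩
  have hy : 1 ≤ (1 + ‖p.2‖) ^ N := one_le_pow₀ (by linarith [norm_nonneg p.2])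
  have hx : 0 ≤ (1 + ‖p.1‖) ^ N := by positivity
  exact mul_le_mul_of_nonneg_left (le_mul_of_one_le_right hx hy) hC

theorem PG2.snd {f : E ι → ℝ} (hf : PG f) : PG2 (fun p : E ι × E ι => f p.2) := by
  obtain ⟨C, N, hC, h1⟩ := hf.bound
  refine ⟨hf.meas.comp measurable_snd, C, N, hC, fun p => (h1 p.2).trans ?_⟩
  have hy : 1 ≤ (1 + ‖p.1‖) ^ N := one_le_pow₀ (by linarith [norm_nonneg p.1])
  have hx : 0 ≤ (1 + ‖p.2‖) ^ N := by positivity
  exact mul_le_mul_of_nonneg_left (le_mul_of_one_le_left hx hy) hC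

theorem PG2.const (c : ℝ) : PG2 (fun _ : E ι × E ι => c) := PG2.fst (PG.const c)

theorem PG2.cmul {f : E ι × E ι → ℝ} (hf : PG2 f) (c : ℝ) : PG2 (fun x => c * f x) :=
  (PG2.const c).mul hf

theorem PG2.neg {f : E ι × E ι → ℝ} (hf : PG2 f) : PG2 (fun x => -f x) := by
  have := hf.cmul (-1)
  simpa using this

theorem PG2.gg (hL : 2 ≤ L) {W : ℝ → ℝ} (h : Pot L W) (j : ι) :
    PG2 (fun p : E ι × E ι => gg W ((p.1 j - p.2 j) / 2)) := by
  have h1 := (PG2.fst (PG.gg hL h j)).add (PG2.snd (PG.gg (ι := ι) hL h j))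
  obtain ⟨C, N, hC, h2⟩ := h1.bound
  refine ⟨(gg_meas W).comp (by fun_prop), C, N, hC, fun p => ?_⟩
  refine le_trans ?_ (h2 p)
  rw [abs_of_nonneg (h.gg_nonneg _), abs_of_nonneg (add_nonneg (h.gg_nonneg _) (h.gg_nonneg _))]
  exact h.gg_half _ _

theorem PG2.gg' (hL : 2 ≤ L) {W : ℝ → ℝ} (h : Pot L W) (j : ι) :
    PG2 (fun p : E ι × E ι => KF.gg W ((p.1 j + p.2 j) / 2)) := by
  have h1 := (PG2.fst (PG.gg hL h j)).add (PG2.snd (PG.gg (ι := ι) hL h j))
  obtain ⟨C, N, hC, h2⟩ := h1.bound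
  refine ⟨(gg_meas W).comp (by fun_prop), C, N, hC, fun p => ?_⟩
  refine le_trans ?_ (h2 p)
  rw [abs_of_nonneg (h.gg_nonneg _), abs_of_nonneg (add_nonneg (h.gg_nonneg _) (h.gg_nonneg _))]
  have := h.gg_half (p.1 j) (-p.2 j)
  rwa [sub_neg_eq_add, h.gg_even] at this

theorem swap_int (f : E ι × E ι → ℝ) : ∫ p : E ι × E ι, f (p.2, p.1) = ∫ p : E ι × E ι, f p :=
  integral_prod_swap f

theorem neg_int (f : E ι × E ι → ℝ) : ∫ p : E ι × E ι, f (p.1, -p.2) = ∫ p : E ι × E ι, f p := by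
  let T : (E ι × E ι) ≃ₗ[ℝ] (E ι × E ι) :=
    (LinearEquiv.refl ℝ (E ι)).prodCongr (LinearEquiv.neg ℝ)
  have hmp : MeasurePreserving (Prod.map id (fun y : E ι => -y))
      ((volume : Measure (E ι)).prod (volume : Measure (E ι)))
      ((volume : Measure (E ι)).prod (volume : Measure (E ι))) :=
    (MeasurePreserving.id volume).prod (Measure.measurePreserving_neg volume)
  have hme : MeasurableEmbedding (Prod.map id (fun y : E ι => -y) : E ι × E ι → E ι × E ι) :=
    T.toContinuousLinearEquiv.toHomeomorph.measurableEmbedding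
  exact hmp.integral_comp hme f

/-- the Lebowitz inequality for the system, first form -/
theorem Sys.leb (h : Sys L A V) (i j : ι) :
    (∫ p : E ι × E ι, (p.1 i + p.2 i) * (p.1 j + p.2 j) * gg (V j) ((p.1 j - p.2 j) / 2) *
      (wt A V p.1 * wt A V p.2)) ≤
    4 * (∫ x : E ι, x i * x j * wt A V x) * ∫ x : E ι, gg (V j) (x j) * wt A V x := by
  have hZ := h.Zpos
  have c1 : ∀ k : ι, PG2 (fun p : E ι × E ι => p.1 k) := fun k => PG2.fst (PG.coord k)
  have c2 : ∀ k : ι, PG2 (fun p : E ι × E ι => p.2 k) := fun k => PG2.snd (PG.coord k)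
  have g1 := PG2.gg (ι := ι) h.two (h.pot j) j
  have i0 : Integrable fun p : E ι × E ι => wt A V p.1 * wt A V p.2 := h.int.mul_prod h.int
  have i1 := h.intg2 (((c1 i).add (c2 i)).mul ((c1 j).add (c2 j)))
  have i2 := h.intg2 g1
  have i3 := h.intg2 ((((c1 i).add (c2 i)).mul ((c1 j).add (c2 j))).mul g1)
  have key := by
    have i0' := i0
    have i1' := i1
    have i2' := i2
    have i3' := i3
    rw [wt_den] at i0' i1' i2' i3'
    have := KF.leb h.half_off (sw_nonneg V) h.sw_even (fun k => (h.pot k).SM) i j (h.pot j).em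
      i0' i1' i2' i3'
    rw [← wt_den] at this
    exact this
  have e0 : ∫ p : E ι × E ι, wt A V p.1 * wt A V p.2 = (∫ x, wt A V x) * ∫ x, wt A V x :=
    integral_prod_mul (wt A V) (wt A V)
  have j1 : Integrable (fun x : E ι => x i * x j * wt A V x) :=
    h.intg ((PG.coord i).mul (PG.coord j))
  have jc : ∀ k : ι, Integrable (fun x : E ι => x k * wt A V x) := fun k => h.intg (PG.coord k)
  have e1 : ∫ p : E ι × E ι, (p.1 i + p.2 i) * (p.1 j + p.2 j) * (wt A V p.1 * wt A V p.2) =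
      2 * ((∫ x : E ι, x i * x j * wt A V x) * ∫ x, wt A V x) := by
    have a : ∀ p : E ι × E ι, (p.1 i + p.2 i) * (p.1 j + p.2 j) * (wt A V p.1 * wt A V p.2) =
        ((p.1 i * p.1 j * wt A V p.1) * wt A V p.2 + wt A V p.1 * (p.2 i * p.2 j * wt A V p.2)) +
        ((p.1 i * wt A V p.1) * (p.2 j * wt A V p.2) +
          (p.1 j * wt A V p.1) * (p.2 i * wt A V p.2)) := by
      intro p
      ring
    have b1 : Integrable (fun p : E ι × E ι => (p.1 i * p.1 j * wt A V p.1) * wt A V p.2) :=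
      j1.mul_prod h.int
    have b2 : Integrable (fun p : E ι × E ι => wt A V p.1 * (p.2 i * p.2 j * wt A V p.2)) :=
      h.int.mul_prod j1
    have b3 : Integrable (fun p : E ι × E ι => (p.1 i * wt A V p.1) * (p.2 j * wt A V p.2)) :=
      (jc i).mul_prod (jc j)
    have b4 : Integrable (fun p : E ι × E ι => (p.1 j * wt A V p.1) * (p.2 i * wt A V p.2)) :=
      (jc j).mul_prod (jc i)
    have b5 : Integrable (fun p : E ι × E ι => (p.1 i * p.1 j * wt A V p.1) * wt A V p.2 +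
      wt A V p.1 * (p.2 i * p.2 j * wt A V p.2)) := b1.add b2
    have b6 : Integrable (fun p : E ι × E ι => (p.1 i * wt A V p.1) * (p.2 j * wt A V p.2) +
          (p.1 j * wt A V p.1) * (p.2 i * wt A V p.2)) := b3.add b4
    simp only [a]
    rw [integral_add b5 b6, integral_add b1 b2, integral_add b3 b4, Measure.volume_eq_prod,
      integral_prod_mul (fun x : E ι => x i * x j * wt A V x) (wt A V),
      integral_prod_mul (wt A V) (fun x : E ι => x i * x j * wt A V x),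
      integral_prod_mul (fun x : E ι => x i * wt A V x) (fun x : E ι => x j * wt A V x),
      integral_prod_mul (fun x : E ι => x j * wt A V x) (fun x : E ι => x i * wt A V x),
      h.odd_int i, h.odd_int j]
    ring
  have jg : Integrable (fun x : E ι => gg (V j) (x j) * wt A V x) :=
    h.intg (PG.gg h.two (h.pot j) j)
  have e2 : ∫ p : E ι × E ι, gg (V j) ((p.1 j - p.2 j) / 2) * (wt A V p.1 * wt A V p.2) ≤
      2 * ((∫ x : E ι, gg (V j) (x j) * wt A V x) * ∫ x, wt A V x) := by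
    have b1 : Integrable (fun p : E ι × E ι => (gg (V j) (p.1 j) * wt A V p.1) * wt A V p.2) :=
      jg.mul_prod h.int
    have b2 : Integrable (fun p : E ι × E ι => wt A V p.1 * (gg (V j) (p.2 j) * wt A V p.2)) :=
      h.int.mul_prod jg
    have : ∫ p : E ι × E ι, gg (V j) ((p.1 j - p.2 j) / 2) * (wt A V p.1 * wt A V p.2) ≤
        ∫ p : E ι × E ι, ((gg (V j) (p.1 j) * wt A V p.1) * wt A V p.2 +
          wt A V p.1 * (gg (V j) (p.2 j) * wt A V p.2)) := by
      refine integral_mono i2 (b1.add b2) fun p => ?_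
      have h1 := (h.pot j).gg_half (p.1 j) (p.2 j)
      have h2 : 0 < wt A V p.1 * wt A V p.2 := mul_pos (wt_pos _) (wt_pos _)
      calc _ ≤ (gg (V j) (p.1 j) + gg (V j) (p.2 j)) * (wt A V p.1 * wt A V p.2) :=
            mul_le_mul_of_nonneg_right h1 h2.le
        _ = _ := by ring
    refine this.trans (le_of_eq ?_)
    rw [integral_add b1 b2, Measure.volume_eq_prod,
      integral_prod_mul (fun x : E ι => gg (V j) (x j) * wt A V x) (wt A V),
      integral_prod_mul (wt A V) (fun x : E ι => gg (V j) (x j) * wt A V x)]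
    ring
  rw [e0, e1] at key
  have hC := h.cov_nonneg i j
  have k2 := key.trans (mul_le_mul_of_nonneg_left e2
    (by positivity : 0 ≤ 2 * ((∫ x : E ι, x i * x j * wt A V x) * ∫ x, wt A V x)))
  refine le_of_mul_le_mul_right ?_ (mul_pos hZ hZ)
  refine k2.trans (le_of_eq ?_)
  ring

end Pool.Agent.T6.H78.KF
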