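import Pool.Agent.T6.H78.KF.Cor

/-!
# The upper bound for the correlation of a spin and the force at another site
-/

set_option autoImplicit false
set_option linter.unusedSectionVars false

namespace Pool.Agent.T6.H78.KF

open MeasureTheory Finset Set

variable {ι : Type} [Fintype ι] {L : ℝ} {A : ι → ι → ℝ} {V : ι → ℝ → ℝ}

theorem PG.gg_shift (hL : 2 ≤ L) {W : ℝ → ℝ} (h : Pot L W) (j : ι) (c : ℝ) :
    PG (fun x : E ι => KF.gg W ((x j - c) / 2)) := by
  have h1 := (PG.gg (ι := ι) hL h j).add (PG.const (ι := ι) (KF.gg W c))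
  obtain ⟨C, N, hC, h2⟩ := h1.bound
  refine ⟨(gg_meas W).comp (by fun_prop), C, N, hC, fun p => ?_⟩
  refine le_trans ?_ (h2 p)
  rw [abs_of_nonneg (h.gg_nonneg _), abs_of_nonneg (add_nonneg (h.gg_nonneg _) (h.gg_nonneg _))]
  exact h.gg_half _ _

theorem PG.psi (hL : 2 ≤ L) {W : ℝ → ℝ} (h : Pot L W) (j : ι) (c : ℝ) :
    PG (fun x : E ι => psi L W c (x j)) := by
  have a1 := ((PG.coord (ι := ι) j).add (PG.const c)).mul (PG.gg_shift hL h j c)
  have a2 := ((PG.coord (ι := ι) j).add (PG.const (-c))).mul (PG.gg_shift hL h j (-c))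
  have a3 := (PG.deriv (ι := ι) hL h j).cmul (-(8 / L ^ 2))
  have a4 := ((PG.coord (ι := ι) j).mul (PG.const (KF.gg W c))).cmul (2 * L)
  have a5 := ((a1.add a2).add a3).add a4
  refine (funext fun x => ?_ : (fun x : E ι => KF.psi L W c (x j)) = _) ▸ a5
  simp only [KF.psi, sub_neg_eq_add, ← sub_eq_add_neg]
  ring

theorem Sys.upper (h : Sys L A V) (i j : ι) :
    (∫ x, wt A V x) * (∫ x : E ι, x i * deriv (V j) (x j) * wt A V x) ≤
      L ^ 2 * (L + 2) / 4 * ((∫ x : E ι, x i * x j * wt A V x) *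
        ∫ x : E ι, gg (V j) (x j) * wt A V x) := by
  have hL0 : 0 < L := by linarith [h.two]
  have c1 : ∀ k : ι, PG2 (fun p : E ι × E ι => p.1 k) := fun k => PG2.fst (PG.coord k)
  have c2 : ∀ k : ι, PG2 (fun p : E ι × E ι => p.2 k) := fun k => PG2.snd (PG.coord k)
  have g1 := PG2.gg (ι := ι) h.two (h.pot j) j
  have g2 := PG2.gg' (ι := ι) h.two (h.pot j) j
  let f : E ι × E ι → ℝ := fun p => p.1 i * (p.1 j + p.2 j) * gg (V j) ((p.1 j - p.2 j) / 2) *
    (wt A V p.1 * wt A V p.2)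
  have if1 : Integrable f := h.intg2 (((c1 i).mul ((c1 j).add (c2 j))).mul g1)
  let f' : E ι × E ι → ℝ := fun p => p.1 i * (p.1 j - p.2 j) * gg (V j) ((p.1 j + p.2 j) / 2) *
    (wt A V p.1 * wt A V p.2)
  have if2 : Integrable f' := by
    have := h.intg2 (((c1 i).mul ((c1 j).add (c2 j).neg)).mul g2)
    refine this.congr (Filter.Eventually.of_forall fun p => ?_)
    simp only [f', ← sub_eq_add_neg]
  have e1 : ∫ p : E ι × E ι, f (p.2, p.1) = ∫ p, f p := swap_int f
  have e2 : ∫ p : E ι × E ι, f (p.1, -p.2) = ∫ p, f p := neg_int f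
  have e2' : ∀ p : E ι × E ι, f (p.1, -p.2) = f' p := by
    intro p
    simp only [f, f', PiLp.neg_apply, sub_neg_eq_add, h.wt_even, ← sub_eq_add_neg]
  simp only [e2'] at e2
  have e1' : ∀ p : E ι × E ι, (p.1 i + p.2 i) * (p.1 j + p.2 j) *
      gg (V j) ((p.1 j - p.2 j) / 2) * (wt A V p.1 * wt A V p.2) = f p + f (p.2, p.1) := by
    intro p
    simp only [f]
    rw [show (p.2 j - p.1 j) / 2 = -((p.1 j - p.2 j) / 2) by ring, (h.pot j).gg_even]
    ring
  have hsw : Integrable fun p : E ι × E ι => f (p.2, p.1) := by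
    have := if1.swap
    exact this
  have key := h.leb i j
  simp only [e1'] at key
  rw [integral_add if1 hsw, e1] at key
  -- the main identity
  let Ψ : E ι × E ι → ℝ := fun p => p.1 i * psi L (V j) (p.2 j) (p.1 j) *
    (wt A V p.1 * wt A V p.2)
  have d1 : Integrable (fun p : E ι × E ι => (p.1 i * deriv (V j) (p.1 j) * wt A V p.1) *
    wt A V p.2) := (h.intg ((PG.coord i).mul (PG.deriv h.two (h.pot j) j))).mul_prod h.int
  have d2 : Integrable (fun p : E ι × E ι => (p.1 i * p.1 j * wt A V p.1) *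
    (gg (V j) (p.2 j) * wt A V p.2)) :=
    (h.intg ((PG.coord i).mul (PG.coord j))).mul_prod (h.intg (PG.gg h.two (h.pot j) j))
  have e3 : ∀ p : E ι × E ι, Ψ p = f p + f' p + ((-(8 / L ^ 2)) *
      ((p.1 i * deriv (V j) (p.1 j) * wt A V p.1) * wt A V p.2) +
      2 * L * ((p.1 i * p.1 j * wt A V p.1) * (gg (V j) (p.2 j) * wt A V p.2))) := by
    intro p
    simp only [Ψ, f, f', psi]
    ring
  have d3 : Integrable (fun p : E ι × E ι => f p + f' p) := if1.add if2
  have d4 : Integrable (fun p : E ι × E ι => (-(8 / L ^ 2)) *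
      ((p.1 i * deriv (V j) (p.1 j) * wt A V p.1) * wt A V p.2) +
      2 * L * ((p.1 i * p.1 j * wt A V p.1) * (gg (V j) (p.2 j) * wt A V p.2))) :=
    (d1.const_mul _).add (d2.const_mul _)
  have iΨ : Integrable Ψ := (d3.add d4).congr (Filter.Eventually.of_forall fun p => (e3 p).symm)
  have e4 : ∫ p, Ψ p = 2 * (∫ p, f p) + ((-(8 / L ^ 2)) *
      ((∫ x : E ι, x i * deriv (V j) (x j) * wt A V x) * ∫ x, wt A V x) +
      2 * L * ((∫ x : E ι, x i * x j * wt A V x) * ∫ x : E ι, gg (V j) (x j) * wt A V x)) := by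
    simp only [e3]
    rw [integral_add d3 d4, integral_add if1 if2, integral_add (d1.const_mul _) (d2.const_mul _),
      integral_const_mul, integral_const_mul, e2, Measure.volume_eq_prod,
      integral_prod_mul (fun x : E ι => x i * deriv (V j) (x j) * wt A V x) (wt A V),
      integral_prod_mul (fun x : E ι => x i * x j * wt A V x)
        (fun x : E ι => gg (V j) (x j) * wt A V x)]
    ring
  have e5 : 0 ≤ ∫ p, Ψ p := by
    have : ∫ p, Ψ p = ∫ y : E ι, ∫ x : E ι, Ψ (x, y) := integral_prod_symm _ iΨ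
    rw [this]
    refine integral_nonneg fun y => ?_
    have e6 : ∀ x : E ι, Ψ (x, y) = (x i * psi L (V j) (y j) (x j) * wt A V x) * wt A V y := by
      intro x
      simp only [Ψ]
      ring
    simp only [e6]
    rw [integral_mul_const]
    refine mul_nonneg ?_ (wt_pos _).le
    exact h.gks1 i j (f := psi L (V j) (y j)) ((h.pot j).psi_odd _)
      (fun t ht => (h.pot j).psi_nonneg h.two _ t ht) (PG.psi h.two (h.pot j) j _)
  rw [e4] at e5
  set X := ∫ x : E ι, x i * deriv (V j) (x j) * wt A V x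
  set Z := ∫ x : E ι, wt A V x
  set C := ∫ x : E ι, x i * x j * wt A V x
  set G := ∫ x : E ι, gg (V j) (x j) * wt A V x
  have e7 : 8 / L ^ 2 * (X * Z) ≤ (4 + 2 * L) * (C * G) := by linarith
  have e8 : X * Z ≤ L ^ 2 / 8 * ((4 + 2 * L) * (C * G)) := by
    calc X * Z = L ^ 2 / 8 * (8 / L ^ 2 * (X * Z)) := by field_simp
      _ ≤ _ := by gcongr
  calc Z * X = X * Z := mul_comm _ _
    _ ≤ _ := e8
    _ = _ := by ring

end Pool.Agent.T6.H78.KF
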