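import Pool.Agent.T6.H78.KF.Emn2

/-!
# Exponential decay of integrable log-concave functions
-/

set_option autoImplicit false
set_option linter.unusedSectionVars false

namespace Pool.Agent.T6.H78.KF

open MeasureTheory Finset Set

section

variable {F : Type*} [NormedAddCommGroup F] [NormedSpace ℝ F] [FiniteDimensional ℝ F]
  [MeasurableSpace F] [BorelSpace F] (μ : Measure F) [μ.IsAddHaarMeasure]

theorem conv_bounded {K : Set F} (hK : Convex ℝ K) {r : ℝ} (hr : 0 < r)
    (hb : Metric.ball (0 : F) r ⊆ K) (hv : μ K ≠ ⊤) : ∃ R : ℝ, ∀ x ∈ K, ‖x‖ ≤ R := by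
  set v := μ (Metric.ball (0 : F) (r / 2)) with hvd
  have hv0 : 0 < v := Metric.measure_ball_pos μ 0 (by positivity)
  have hvt : v ≠ ⊤ := measure_ball_lt_top.ne
  have key : ∀ x ∈ K, ∀ N : ℕ, (N : ℝ) * r ≤ ‖x‖ / 2 → (N : ENNReal) * v ≤ μ K := by
    intro x hx N hN
    rcases Nat.eq_zero_or_pos N with h0 | h0
    · rw [h0]
      simp
    have hN0 : (0 : ℝ) < N := by exact_mod_cast h0
    have hx0 : 0 < ‖x‖ := by
      have : 0 < (N : ℝ) * r := by positivity
      linarith
    let c : ℕ → F := fun j => ((j : ℝ) * r / ‖x‖) • x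
    have hcn : ∀ i j : ℕ, ‖c i - c j‖ = |(i : ℝ) - j| * r := by
      intro i j
      simp only [c]
      rw [← sub_smul, norm_smul, Real.norm_eq_abs, ← sub_div, ← sub_mul, abs_div, abs_mul,
        abs_of_pos hr, abs_of_pos hx0]
      field_simp
    have hd : (↑(Finset.range N) : Set ℕ).PairwiseDisjoint fun j =>
        Metric.ball (c j) (r / 2) := by
      intro i _ j _ hij
      refine Metric.ball_disjoint_ball ?_
      rw [dist_eq_norm, hcn]
      have : (1 : ℝ) ≤ |(i : ℝ) - j| := by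
        have h1 : (1 : ℤ) ≤ |(i : ℤ) - j| := Int.one_le_abs (sub_ne_zero.2 (by exact_mod_cast hij))
        exact_mod_cast h1
      nlinarith
    have hsub : (⋃ j ∈ Finset.range N, Metric.ball (c j) (r / 2)) ⊆ K := by
      intro y hy
      simp only [mem_iUnion, exists_prop] at hy
      obtain ⟨j, hj, hy⟩ := hy
      have hj' : (j : ℝ) ≤ N := by
        exact_mod_cast (Finset.mem_range.1 hj).le
      have h1 : (2 * ((j : ℝ) * r / ‖x‖)) • x ∈ K := by
        have h0 : (0 : F) ∈ K := hb (Metric.mem_ball_self hr)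
        refine hK.smul_mem_of_zero_mem h0 hx ⟨by positivity, ?_⟩
        rw [← mul_div_assoc, div_le_one hx0]
        nlinarith
      have h2 : (2 : ℝ) • (y - c j) ∈ K := by
        refine hb ?_
        rw [mem_ball_zero_iff, norm_smul, Real.norm_eq_abs, abs_two]
        rw [Metric.mem_ball, dist_eq_norm] at hy
        linarith
      have h3 := hK h1 h2 (show (0 : ℝ) ≤ 1 / 2 by norm_num) (show (0 : ℝ) ≤ 1 / 2 by norm_num)
        (by norm_num)
      have e : (1 / 2 : ℝ) • ((2 * ((j : ℝ) * r / ‖x‖)) • x) + (1 / 2 : ℝ) • ((2 : ℝ) • (y - c j))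
          = y := by
        simp only [c]
        rw [smul_smul, smul_smul, ← mul_assoc]
        norm_num
      rwa [e] at h3
    calc (N : ENNReal) * v = ∑ j ∈ Finset.range N, μ (Metric.ball (c j) (r / 2)) := by
          simp only [Measure.addHaar_ball_center]
          rw [Finset.sum_const, Finset.card_range, nsmul_eq_mul]
      _ = μ (⋃ j ∈ Finset.range N, Metric.ball (c j) (r / 2)) :=
          (measure_biUnion_finset hd fun j _ => measurableSet_ball).symm
      _ ≤ μ K := measure_mono hsub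
  refine ⟨2 * r * ((μ K / v).toReal + 1), fun x hx => ?_⟩
  set N := ⌊‖x‖ / (2 * r)⌋₊ with hN
  have h1 : (N : ℝ) * r ≤ ‖x‖ / 2 := by
    have := Nat.floor_le (show 0 ≤ ‖x‖ / (2 * r) by positivity)
    rw [← hN, le_div_iff₀ (by positivity)] at this
    linarith
  have h2 := key x hx N h1
  have h3 : (N : ENNReal) ≤ μ K / v := by
    rw [ENNReal.le_div_iff_mul_le (Or.inl hv0.ne') (Or.inl hvt)]
    exact h2
  have h4 : μ K / v ≠ ⊤ := ENNReal.div_ne_top hv hv0.ne'
  have h5 : (N : ℝ) ≤ (μ K / v).toReal := by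
    have := (ENNReal.toReal_le_toReal (by simp) h4).2 h3
    simpa using this
  have h6 := Nat.lt_floor_add_one (‖x‖ / (2 * r))
  rw [← hN, div_lt_iff₀ (by positivity)] at h6
  nlinarith

theorem decay {H : F → ℝ} (hH : ConvexOn ℝ univ H) (hc : Continuous H)
    (hmin : ∀ x, H 0 ≤ H x) (hi : Integrable (fun x => Real.exp (-H x)) μ) :
    ∃ a b : ℝ, 0 < a ∧ ∀ x, a * ‖x‖ - b ≤ H x := by
  set K : Set F := {x | H x ≤ H 0 + 1} with hK
  have h1 : Convex ℝ K := by
    have := hH.convex_le (H 0 + 1)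
    simpa [hK] using this
  obtain ⟨r, hr, hb⟩ : ∃ r > 0, Metric.ball (0 : F) r ⊆ K := by
    have : {x | H x < H 0 + 1} ∈ nhds (0 : F) :=
      (isOpen_lt hc continuous_const).mem_nhds (by simp)
    obtain ⟨r, hr, h⟩ := Metric.mem_nhds_iff.1 this
    exact ⟨r, hr, fun x hx => (show H x ≤ H 0 + 1 from le_of_lt (h hx))⟩
  have hv : μ K ≠ ⊤ := by
    have := hi.measure_norm_ge_lt_top (ε := Real.exp (-(H 0 + 1))) (Real.exp_pos _)
    refine ((measure_mono fun x hx => ?_).trans_lt this).ne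
    simp only [Set.mem_ofPred_eq, Real.norm_eq_abs, abs_of_pos (Real.exp_pos _)]
    exact Real.exp_le_exp.2 (neg_le_neg hx)
  obtain ⟨R, hR⟩ := conv_bounded μ h1 hr hb hv
  set S := max R 0 + 1 with hS
  have hS0 : 0 < S := by positivity
  refine ⟨1 / S, 1 - H 0, by positivity, fun x => ?_⟩
  rcases le_or_gt ‖x‖ S with hx | hx
  · have h2 : 1 / S * ‖x‖ ≤ 1 := by
      rw [one_div, inv_mul_le_iff₀ hS0, mul_one]
      exact hx
    have := hmin x
    linarith
  · have hx0 : 0 < ‖x‖ := hS0.trans hx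
    set t := S / ‖x‖ with ht
    have ht0 : 0 < t := by positivity
    have ht1 : t ≤ 1 := by
      rw [ht, div_le_one hx0]
      exact hx.le
    have h2 : ‖t • x‖ = S := by
      rw [norm_smul, Real.norm_eq_abs, abs_of_pos ht0, ht]
      field_simp
    have h3 : H 0 + 1 < H (t • x) := by
      by_contra hc'
      have := hR _ (show t • x ∈ K from not_lt.1 hc')
      rw [h2, hS] at this
      linarith [le_max_left R 0]
    have h4 := hH.2 (mem_univ x) (mem_univ (0 : F)) ht0.le (sub_nonneg.2 ht1) (by ring)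
    rw [smul_zero, add_zero] at h4
    simp only [smul_eq_mul] at h4
    have h5 : 1 < t * (H x - H 0) := by linarith
    have h6 : 1 / S * ‖x‖ = 1 / t := by
      rw [ht]
      field_simp
    rw [h6]
    have h7 : 1 / t < H x - H 0 := by
      rw [div_lt_iff₀ ht0]
      linarith
    linarith

theorem int_exp_norm {a : ℝ} (ha : 0 < a) (N : ℕ) :
    Integrable (fun x : F => (1 + ‖x‖) ^ N * Real.exp (-(a * ‖x‖))) μ := by
  set d := Module.finrank ℝ F with hd
  have h1 : Integrable (fun x : F => (1 + ‖x‖) ^ (-((d : ℝ) + 1))) μ :=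
    integrable_one_add_norm (by rw [← hd]; linarith)
  set M := N + (d + 1) with hM
  set C := (M.factorial : ℝ) / a ^ M * Real.exp a with hC
  refine (h1.const_mul C).mono' (by fun_prop) (Filter.Eventually.of_forall fun x => ?_)
  have hx : 0 < 1 + ‖x‖ := by positivity
  rw [Real.norm_eq_abs, abs_of_nonneg (by positivity)]
  have h2 := Real.pow_div_factorial_le_exp (x := a * (1 + ‖x‖)) (by positivity) M
  have h3 : (1 + ‖x‖) ^ M * Real.exp (-(a * ‖x‖)) ≤ C := by
    rw [mul_pow, div_le_iff₀ (by positivity)] at h2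
    have h4 : (1 + ‖x‖) ^ M ≤ (M.factorial : ℝ) / a ^ M * Real.exp (a * (1 + ‖x‖)) := by
      rw [div_mul_eq_mul_div, le_div_iff₀ (by positivity)]
      linarith
    calc (1 + ‖x‖) ^ M * Real.exp (-(a * ‖x‖)) ≤
        (M.factorial : ℝ) / a ^ M * Real.exp (a * (1 + ‖x‖)) * Real.exp (-(a * ‖x‖)) := by gcongr
      _ = C := by
          rw [hC, mul_assoc, ← Real.exp_add]
          congr 2
          ring
  calc (1 + ‖x‖) ^ N * Real.exp (-(a * ‖x‖)) =
      (1 + ‖x‖) ^ M * Real.exp (-(a * ‖x‖)) * (1 + ‖x‖) ^ (-((d : ℝ) + 1)) := by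
        rw [Real.rpow_neg hx.le, hM, pow_add]
        have : (1 + ‖x‖) ^ ((d : ℝ) + 1) = (1 + ‖x‖) ^ (d + 1) := by
          rw [← Real.rpow_natCast]
          push_cast
          rfl
        rw [this]
        field_simp
    _ ≤ C * (1 + ‖x‖) ^ (-((d : ℝ) + 1)) :=
        mul_le_mul_of_nonneg_right h3 (Real.rpow_nonneg hx.le _)

/-- all moments of an integrable log-concave function are finite -/
theorem moments {H : F → ℝ} (hH : ConvexOn ℝ univ H) (hc : Continuous H)
    (hmin : ∀ x, H 0 ≤ H x) (hi : Integrable (fun x => Real.exp (-H x)) μ) (N : ℕ) :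
    Integrable (fun x => (1 + ‖x‖) ^ N * Real.exp (-H x)) μ := by
  obtain ⟨a, b, ha, hab⟩ := decay μ hH hc hmin hi
  refine ((int_exp_norm μ ha N).const_mul (Real.exp b)).mono' (by fun_prop)
    (Filter.Eventually.of_forall fun x => ?_)
  rw [Real.norm_eq_abs, abs_of_nonneg (by positivity), mul_left_comm, ← Real.exp_add]
  gcongr
  have := hab x
  linarith

end

end Pool.Agent.T6.H78.KF
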