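import Pool.Agent.T6.H78.KF.Rep4

/-!
# Even potentials with convex derivative on the half line
-/

set_option autoImplicit false
set_option linter.unusedSectionVars false

namespace Pool.Agent.T6.H78.KF

open MeasureTheory Finset Set

/-- even potentials, nondecreasing on the half line, whose derivative is convex and doubling there -/
structure Pot (L : ℝ) (V : ℝ → ℝ) : Prop where
  diff : Differentiable ℝ V
  even : ∀ x, V (-x) = V x
  conv : ConvexOn ℝ (Ici 0) (deriv V)
  nonneg : ∀ x, 0 ≤ x → 0 ≤ deriv V x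
  dbl : ∀ x, 0 ≤ x → deriv V (2 * x) ≤ L * deriv V x

variable {L : ℝ} {V : ℝ → ℝ}

theorem Pot.odd (h : Pot L V) (x : ℝ) : deriv V (-x) = -deriv V x := by
  have e : V = fun x => V (-x) := funext fun x => (h.even x).symm
  have h1 : deriv V x = -deriv V (-x) := by
    conv_lhs => rw [e]
    exact deriv_comp_neg V x
  rw [h1, neg_neg]

theorem Pot.zero (h : Pot L V) : deriv V 0 = 0 := by
  have := h.odd 0
  rw [neg_zero] at this
  linarith

theorem Pot.inc (h : Pot L V) {a b s : ℝ} (ha : 0 ≤ a) (hab : a ≤ b) (hs : 0 ≤ s) :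
    deriv V (a + s) - deriv V a ≤ deriv V (b + s) - deriv V b := by
  rcases hs.eq_or_lt with h0 | h0
  · rw [← h0]
    simp
  rcases hab.eq_or_lt with h1 | h1
  · rw [h1]
  -- a < b, s > 0; both `a + s` and `b` lie between `a` and `b + s`
  have hb : 0 < b + s - a := by linarith
  have k1 := h.conv.2 (show a ∈ Ici (0 : ℝ) from ha) (show b + s ∈ Ici (0 : ℝ) from by
    rw [Set.mem_Ici]; linarith) (show 0 ≤ (b - a) / (b + s - a) by
      exact div_nonneg (by linarith) hb.le) (show 0 ≤ s / (b + s - a) from div_nonneg hs hb.le)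
    (by field_simp; ring)
  have k2 := h.conv.2 (show a ∈ Ici (0 : ℝ) from ha) (show b + s ∈ Ici (0 : ℝ) from by
    rw [Set.mem_Ici]; linarith) (show 0 ≤ s / (b + s - a) from div_nonneg hs hb.le)
    (show 0 ≤ (b - a) / (b + s - a) by
      exact div_nonneg (by linarith) hb.le) (by field_simp; ring)
  have e1 : ((b - a) / (b + s - a)) • a + (s / (b + s - a)) • (b + s) = a + s := by
    simp only [smul_eq_mul]
    field_simp
    ring
  have e2 : (s / (b + s - a)) • a + ((b - a) / (b + s - a)) • (b + s) = b := by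
    simp only [smul_eq_mul]
    field_simp
    ring
  rw [e1] at k1
  rw [e2] at k2
  simp only [smul_eq_mul] at k1 k2
  have e3 : (b - a) / (b + s - a) = 1 - s / (b + s - a) := by
    field_simp
    ring
  rw [e3] at k1 k2
  linarith

theorem Pot.mono (h : Pot L V) {a b : ℝ} (ha : 0 ≤ a) (hab : a ≤ b) : deriv V a ≤ deriv V b := by
  have := h.inc (le_refl 0) ha (sub_nonneg.2 hab)
  rw [zero_add, h.zero, sub_zero, add_sub_cancel] at this
  have h2 := h.nonneg _ (sub_nonneg.2 hab)
  linarith

theorem Pot.mono' (h : Pot L V) : Monotone (deriv V) := by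
  intro a b hab
  rcases le_total 0 a with ha | ha
  · exact h.mono ha hab
  · rcases le_total 0 b with hb | hb
    · have h1 := h.nonneg b hb
      have h2 := h.nonneg (-a) (by linarith)
      rw [h.odd] at h2
      linarith
    · have h1 := h.mono (a := -b) (b := -a) (by linarith) (by linarith)
      rw [h.odd, h.odd] at h1
      linarith

theorem Pot.convex (h : Pot L V) : ConvexOn ℝ univ V :=
  MonotoneOn.convexOn_of_deriv convex_univ h.diff.continuous.continuousOn
    h.diff.differentiableOn (h.mono'.monotoneOn _)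

theorem Pot.monoV (h : Pot L V) {a b : ℝ} (ha : 0 ≤ a) (hab : a ≤ b) : V a ≤ V b := by
  have h1 : MonotoneOn V (Ici 0) := by
    refine monotoneOn_of_deriv_nonneg (convex_Ici 0) h.diff.continuous.continuousOn
      h.diff.differentiableOn fun x hx => ?_
    rw [interior_Ici] at hx
    exact h.nonneg x (le_of_lt hx)
  exact h1 ha (ha.trans hab) hab

theorem Pot.abs (h : Pot L V) (x : ℝ) : V |x| = V x := by
  rcases abs_cases x with ⟨h1, _⟩ | ⟨h1, _⟩ <;> rw [h1]
  exact h.even x

theorem Pot.le (h : Pot L V) (x : ℝ) : V 0 ≤ V x := by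
  rw [← h.abs x]
  exact h.monoV (le_refl 0) (abs_nonneg x)

theorem Pot.dd (h : Pot L V) {p q t : ℝ} (hq : 0 ≤ q) (hqp : q ≤ p) (ht : 0 ≤ t) :
    deriv V (q + t) - deriv V (q - t) ≤ deriv V (p + t) - deriv V (p - t) := by
  have c1 : ∀ {p q : ℝ}, t ≤ q → q ≤ p →
      deriv V (q + t) - deriv V (q - t) ≤ deriv V (p + t) - deriv V (p - t) := by
    intro p q h1 h2
    have := h.inc (a := q - t) (b := q + t) (s := p - q) (by linarith) (by linarith)
      (by linarith)
    rw [show q - t + (p - q) = p - t by ring, show q + t + (p - q) = p + t by ring] at this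
    linarith
  have c2 : ∀ {p q : ℝ}, 0 ≤ q → q ≤ p → p ≤ t →
      deriv V (q + t) - deriv V (q - t) ≤ deriv V (p + t) - deriv V (p - t) := by
    intro p q h0 h1 h2
    have := h.inc (a := t - p) (b := q + t) (s := p - q) (by linarith) (by linarith)
      (by linarith)
    rw [show t - p + (p - q) = -(q - t) by ring, show q + t + (p - q) = p + t by ring,
      h.odd, show t - p = -(p - t) by ring, h.odd] at this
    linarith
  rcases le_total t q with h1 | h1
  · exact c1 h1 hqp
  · rcases le_total p t with h2 | h2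
    · exact c2 hq hqp h2
    · exact (c2 hq h1 (le_refl t)).trans (c1 (le_refl t) h2)

theorem Pot.sm0 (h : Pot L V) {p q u w : ℝ} (hq : 0 ≤ q) (hqp : q ≤ p) (hw : 0 ≤ w) (hwu : w ≤ u) :
    V (p + w) + V (p - w) + (V (q + u) + V (q - u)) ≤
      V (p + u) + V (p - u) + (V (q + w) + V (q - w)) := by
  let φ : ℝ → ℝ := fun t => V (p + t) + V (p - t) - (V (q + t) + V (q - t))
  have hd : ∀ t, HasDerivAt φ (deriv V (p + t) - deriv V (p - t) -
      (deriv V (q + t) - deriv V (q - t))) t := by
    intro t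
    have h1 : ∀ c : ℝ, HasDerivAt (fun t => V (c + t)) (deriv V (c + t)) t := fun c => by
      have : HasDerivAt (fun t => V (c + t)) (deriv V (c + t) * 1) t :=
        (h.diff (c + t)).hasDerivAt.comp t ((hasDerivAt_id t).const_add c)
      rwa [mul_one] at this
    have h2 : ∀ c : ℝ, HasDerivAt (fun t => V (c - t)) (-deriv V (c - t)) t := fun c => by
      have : HasDerivAt (fun t => V (c - t)) (deriv V (c - t) * -1) t :=
        (h.diff (c - t)).hasDerivAt.comp t ((hasDerivAt_id t).const_sub c)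
      rwa [mul_neg_one] at this
    exact ((h1 p).add (h2 p)).sub ((h1 q).add (h2 q))
  have hm : MonotoneOn φ (Ici 0) := by
    refine monotoneOn_of_deriv_nonneg (convex_Ici 0)
      (fun t _ => (hd t).continuousAt.continuousWithinAt)
      (fun t _ => (hd t).differentiableAt.differentiableWithinAt) fun t ht => ?_
    rw [interior_Ici] at ht
    rw [(hd t).deriv]
    have := h.dd hq hqp (le_of_lt ht)
    linarith
  have := hm hw (hw.trans hwu) hwu
  simp only [φ] at this
  linarith

theorem Pot.sm (h : Pot L V) {p q u w : ℝ} (hqp : |q| ≤ |p|) (hwu : |w| ≤ |u|) :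
    V (p + w) + V (p - w) + (V (q + u) + V (q - u)) ≤
      V (p + u) + V (p - u) + (V (q + w) + V (q - w)) := by
  have key : ∀ a b : ℝ, V (|a| + |b|) + V (|a| - |b|) = V (a + b) + V (a - b) := by
    intro a b
    rcases abs_cases a with ⟨ha, _⟩ | ⟨ha, _⟩ <;> rcases abs_cases b with ⟨hb, _⟩ | ⟨hb, _⟩ <;>
      rw [ha, hb]
    · rw [← sub_eq_add_neg, sub_neg_eq_add, add_comm]
    · rw [show -a + b = -(a - b) by ring, show -a - b = -(a + b) by ring, h.even, h.even,
        add_comm]
    · rw [show -a + -b = -(a + b) by ring, show -a - -b = -(a - b) by ring, h.even, h.even]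
  have := h.sm0 (abs_nonneg q) hqp (abs_nonneg w) hwu
  rwa [key, key, key, key] at this

/-- the single spin weights satisfy the Ellis-Monroe-Newman inequality -/
theorem Pot.SM (h : Pot L V) : SM fun t => Real.exp (-V t) := by
  intro p q u w hqp hwu
  simp only [← Real.exp_add]
  refine Real.exp_le_exp.2 ?_
  have := h.sm hqp hwu
  linarith

/-- `V' (x) / x` -/
noncomputable def gg (V : ℝ → ℝ) (x : ℝ) : ℝ := deriv V x / x

theorem Pot.mul_gg (h : Pot L V) (x : ℝ) : x * gg V x = deriv V x := by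
  rcases eq_or_ne x 0 with h0 | h0
  · rw [h0, h.zero, zero_mul]
  · rw [gg]
    field_simp

theorem Pot.gg_even (h : Pot L V) (x : ℝ) : gg V (-x) = gg V x := by
  rw [gg, gg, h.odd, neg_div_neg_eq]

theorem Pot.gg_abs (h : Pot L V) (x : ℝ) : gg V |x| = gg V x := by
  rcases abs_cases x with ⟨h1, _⟩ | ⟨h1, _⟩ <;> rw [h1]
  exact h.gg_even x

theorem Pot.gg_nonneg (h : Pot L V) (x : ℝ) : 0 ≤ gg V x := by
  rw [← h.gg_abs]
  exact div_nonneg (h.nonneg _ (abs_nonneg x)) (abs_nonneg x)

theorem gg_zero : gg V 0 = 0 := by simp [gg]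

theorem Pot.gg_mono0 (h : Pot L V) {a b : ℝ} (ha : 0 ≤ a) (hab : a ≤ b) : gg V a ≤ gg V b := by
  rcases ha.eq_or_lt with h0 | h0
  · rw [← h0, gg_zero]
    exact h.gg_nonneg b
  · have hb : 0 < b := h0.trans_le hab
    rw [gg, gg, div_le_div_iff₀ h0 hb]
    have k1 := h.conv.2 (show (0 : ℝ) ∈ Ici (0 : ℝ) from le_refl (0 : ℝ)) (show b ∈ Ici (0 : ℝ) from hb.le)
      (show 0 ≤ 1 - a / b by rw [sub_nonneg, div_le_one hb]; exact hab)
      (show 0 ≤ a / b from div_nonneg ha hb.le) (by ring)
    simp only [smul_eq_mul, mul_zero, zero_add, h.zero] at k1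
    rw [div_mul_cancel₀ _ hb.ne'] at k1
    calc deriv V a * b ≤ (a / b * deriv V b) * b := mul_le_mul_of_nonneg_right k1 hb.le
      _ = deriv V b * a := by field_simp

theorem Pot.em (h : Pot L V) : EM (gg V) := ⟨fun s t hst => by
  rw [← h.gg_abs s, ← h.gg_abs t]
  exact h.gg_mono0 (abs_nonneg s) hst⟩

theorem Pot.gg_dbl (h : Pot L V) (hL : 2 ≤ L) (x : ℝ) : gg V (2 * x) ≤ L / 2 * gg V x := by
  rcases eq_or_ne x 0 with h0 | h0
  · rw [h0, mul_zero, gg_zero, mul_zero]
  · rw [← h.gg_abs, ← h.gg_abs x, abs_mul, abs_of_pos (zero_lt_two' ℝ)]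
    have hx : 0 < |x| := abs_pos.2 h0
    have := h.dbl |x| hx.le
    rw [gg, gg, div_le_iff₀ (by positivity)]
    calc deriv V (2 * |x|) ≤ L * deriv V |x| := this
      _ = _ := by field_simp

end Pool.Agent.T6.H78.KF
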