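import Pool.Agent.T6.H78.KF.Emn

/-!
# Even potentials with convex derivative: pointwise inequalities and growth
-/

set_option autoImplicit false
set_option linter.unusedSectionVars false

namespace Pool.Agent.T6.H78.KF

open MeasureTheory Finset Set

variable {L : ℝ} {V : ℝ → ℝ}

theorem Pot.gg_half (h : Pot L V) (x y : ℝ) : gg V ((x - y) / 2) ≤ gg V x + gg V y := by
  have h1 := h.gg_nonneg x
  have h2 := h.gg_nonneg y
  rcases le_total |x| |y| with hxy | hxy
  · have : gg V ((x - y) / 2) ≤ gg V y := by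
      refine h.em.mono _ _ ?_
      rw [abs_div, abs_two]
      have := abs_sub x y
      linarith
    linarith
  · have : gg V ((x - y) / 2) ≤ gg V x := by
      refine h.em.mono _ _ ?_
      rw [abs_div, abs_two]
      have := abs_sub x y
      linarith
    linarith

theorem Pot.gg_sum (h : Pot L V) (hL : 2 ≤ L) (x y : ℝ) :
    2 / L * gg V x ≤ gg V ((x - y) / 2) + gg V ((x + y) / 2) := by
  have h0 : (0 : ℝ) < L := by linarith
  have h1 : gg V x ≤ L / 2 * gg V (x / 2) := by
    have := h.gg_dbl hL (x / 2)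
    rwa [show 2 * (x / 2) = x by ring] at this
  have h2 : gg V (x / 2) ≤ gg V ((x - y) / 2) + gg V ((x + y) / 2) := by
    have n1 := h.gg_nonneg ((x - y) / 2)
    have n2 := h.gg_nonneg ((x + y) / 2)
    have e1 : |x| ≤ |x - y| ∨ |x| ≤ |x + y| := by
      by_contra hc
      push Not at hc
      have k1 := abs_lt.1 hc.1
      have k2 := abs_lt.1 hc.2
      rcases abs_cases x with ⟨hx, _⟩ | ⟨hx, _⟩ <;> rw [hx] at k1 k2 <;> linarith
    rcases e1 with e1 | e1
    · have : gg V (x / 2) ≤ gg V ((x - y) / 2) := by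
        refine h.em.mono _ _ ?_
        rw [abs_div, abs_div]
        gcongr
      linarith
    · have : gg V (x / 2) ≤ gg V ((x + y) / 2) := by
        refine h.em.mono _ _ ?_
        rw [abs_div, abs_div]
        gcongr
      linarith
  calc 2 / L * gg V x ≤ 2 / L * (L / 2 * gg V (x / 2)) := by gcongr
    _ = gg V (x / 2) := by field_simp
    _ ≤ _ := h2

/-- the odd function of `t` in the main pointwise inequality -/
noncomputable def psi (L : ℝ) (V : ℝ → ℝ) (y t : ℝ) : ℝ :=
  (t + y) * gg V ((t - y) / 2) + (t - y) * gg V ((t + y) / 2) - 8 / L ^ 2 * deriv V t +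
    2 * L * t * gg V y

theorem Pot.psi_odd (h : Pot L V) (y t : ℝ) : psi L V y (-t) = -psi L V y t := by
  unfold psi
  rw [show (-t - y) / 2 = -((t + y) / 2) by ring, show (-t + y) / 2 = -((t - y) / 2) by ring,
    h.gg_even, h.gg_even, h.odd]
  ring

theorem Pot.psi_abs (h : Pot L V) (y t : ℝ) : psi L V |y| t = psi L V y t := by
  rcases abs_cases y with ⟨h1, _⟩ | ⟨h1, _⟩ <;> rw [h1]
  unfold psi
  rw [h.gg_even, sub_neg_eq_add, ← sub_eq_add_neg]
  ring

theorem Pot.psi_nonneg (h : Pot L V) (hL : 2 ≤ L) (y t : ℝ) (ht : 0 ≤ t) : 0 ≤ psi L V y t := by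
  rw [← h.psi_abs]
  generalize hy' : |y| = z
  have hz : 0 ≤ z := hy' ▸ abs_nonneg y
  clear hy'
  have h0 : (0 : ℝ) < L := by linarith
  have e8 : 8 / L ^ 2 * deriv V t = 8 / L ^ 2 * (t * gg V t) := by rw [h.mul_gg]
  unfold psi
  rw [e8]
  have gz := h.gg_nonneg z
  have gt := h.gg_nonneg t
  rcases le_or_gt z (t / 2) with c1 | c1
  · -- `z ≤ t / 2`
    have k1 : gg V t ≤ L ^ 2 / 4 * gg V (t / 4) := by
      have a1 := h.gg_dbl hL (t / 2)
      have a2 := h.gg_dbl hL (t / 4)
      rw [show 2 * (t / 2) = t by ring] at a1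
      rw [show 2 * (t / 4) = t / 2 by ring] at a2
      calc gg V t ≤ L / 2 * gg V (t / 2) := a1
        _ ≤ L / 2 * (L / 2 * gg V (t / 4)) := by gcongr
        _ = _ := by ring
    have k2 : gg V (t / 4) ≤ gg V ((t - z) / 2) := h.gg_mono0 (by linarith) (by linarith)
    have k3 : gg V (t / 4) ≤ gg V ((t + z) / 2) := h.gg_mono0 (by linarith) (by linarith)
    have k4 : 8 / L ^ 2 * (t * gg V t) ≤ 2 * t * gg V (t / 4) := by
      calc 8 / L ^ 2 * (t * gg V t) ≤ 8 / L ^ 2 * (t * (L ^ 2 / 4 * gg V (t / 4))) := by gcongr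
        _ = _ := by field_simp; ring
    have k5 : (t + z) * gg V (t / 4) ≤ (t + z) * gg V ((t - z) / 2) :=
      mul_le_mul_of_nonneg_left k2 (by linarith)
    have k6 : (t - z) * gg V (t / 4) ≤ (t - z) * gg V ((t + z) / 2) :=
      mul_le_mul_of_nonneg_left k3 (by linarith)
    have k7 : 0 ≤ 2 * L * t * gg V z := by positivity
    linarith
  rcases le_or_gt z t with c2 | c2
  · -- `t / 2 < z ≤ t`
    have k1 : gg V t ≤ L / 2 * gg V z :=
      (h.gg_mono0 ht (by linarith : t ≤ 2 * z)).trans (h.gg_dbl hL z)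
    have k2 : 0 ≤ (t + z) * gg V ((t - z) / 2) := mul_nonneg (by linarith) (h.gg_nonneg _)
    have k3 : 0 ≤ (t - z) * gg V ((t + z) / 2) := mul_nonneg (by linarith) (h.gg_nonneg _)
    have k4 : 8 / L ^ 2 * (t * gg V t) ≤ 2 * L * t * gg V z := by
      calc 8 / L ^ 2 * (t * gg V t) ≤ 8 / L ^ 2 * (t * (L / 2 * gg V z)) := by gcongr
        _ = 4 / L * (t * gg V z) := by field_simp; ring
        _ ≤ 2 * L * (t * gg V z) := by
            refine mul_le_mul_of_nonneg_right ?_ (by positivity)
            rw [div_le_iff₀ h0]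
            nlinarith
        _ = _ := by ring
    linarith
  · -- `t < z`
    set u := (z - t) / 2 with hu
    set v := (z + t) / 2 with hv
    have hu0 : 0 < u := by rw [hu]; linarith
    have huv : u ≤ v := by rw [hu, hv]; linarith
    have e1 : (t - z) / 2 = -u := by rw [hu]; ring
    have e2 : (t + z) / 2 = v := by rw [hv]; ring
    rw [e1, e2, h.gg_even]
    have hv0 : 0 < v := hu0.trans_le huv
    have m1 := h.mul_gg u
    have m2 := h.mul_gg v
    have m3 := h.mul_gg (2 * v)
    have tu : t = v - u := by rw [hu, hv]; ring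
    have key : deriv V v - deriv V u ≤ t * ((L - 1) * gg V v) := by
      rcases huv.eq_or_lt with h1 | h1
      · rw [← h1, tu, ← h1]
        simp
      · have k1 := h.conv.slope_mono_adjacent (show u ∈ Set.Ici (0 : ℝ) from hu0.le)
          (show 2 * v ∈ Set.Ici (0 : ℝ) from by rw [Set.mem_Ici]; linarith) h1
          (by linarith : v < 2 * v)
        have k2 : (deriv V (2 * v) - deriv V v) / (2 * v - v) ≤ (L - 1) * gg V v := by
          rw [show 2 * v - v = v by ring, div_le_iff₀ hv0]
          have := h.gg_dbl hL v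
          have k3 : deriv V (2 * v) ≤ 2 * v * (L / 2 * gg V v) := by
            rw [← m3]
            exact mul_le_mul_of_nonneg_left this (by linarith)
          have k4 : (L - 1) * gg V v * v = L * (v * gg V v) - v * gg V v := by ring
          rw [k4, m2]
          have k5 : 2 * v * (L / 2 * gg V v) = L * (v * gg V v) := by ring
          rw [k5, m2] at k3
          linarith
        have k3 := k1.trans k2
        rw [div_le_iff₀ (by linarith)] at k3
        rw [tu]
        linarith
    have k6 : gg V v ≤ gg V z := h.gg_mono0 hv0.le (by rw [hv]; linarith)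
    have k7 : gg V t ≤ gg V z := h.gg_mono0 ht c2.le
    have gv := h.gg_nonneg v
    have gu := h.gg_nonneg u
    have e3 : (t + z) * gg V u + (t - z) * gg V v =
        2 * deriv V u - 2 * deriv V v + 2 * t * gg V u + 2 * t * gg V v := by
      rw [← m1, ← m2, hu, hv]
      ring
    have k8 : 8 / L ^ 2 * (t * gg V t) ≤ 2 * (t * gg V z) := by
      have : 8 / L ^ 2 ≤ 2 := by
        rw [div_le_iff₀ (by positivity)]
        nlinarith
      calc 8 / L ^ 2 * (t * gg V t) ≤ 2 * (t * gg V z) := by gcongr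
        _ = _ := rfl
    have k9 : t * gg V v ≤ t * gg V z := by gcongr
    have k10 : 0 ≤ t * gg V u := by positivity
    have k11 : (L - 2) * (t * gg V v) ≤ (L - 2) * (t * gg V z) :=
      mul_le_mul_of_nonneg_left k9 (by linarith)
    have k12 : 0 ≤ t * gg V z := by positivity
    nlinarith

/-! ### growth -/

theorem Pot.pow_bound (h : Pot L V) (hL : 2 ≤ L) (m : ℕ) :
    deriv V ((2 : ℝ) ^ m) ≤ L ^ m * deriv V 1 := by
  induction m with
  | zero => simp
  | succ m ih =>
    have h1 := h.dbl ((2 : ℝ) ^ m) (by positivity)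
    rw [pow_succ, mul_comm ((2 : ℝ) ^ m) 2, pow_succ]
    calc deriv V (2 * 2 ^ m) ≤ L * deriv V (2 ^ m) := h1
      _ ≤ L * (L ^ m * deriv V 1) := by gcongr
      _ = _ := by ring

/-- polynomial growth -/
theorem Pot.growth (h : Pot L V) (hL : 2 ≤ L) : ∃ (C : ℝ) (N : ℕ), 0 ≤ C ∧
    (∀ x, |deriv V x| ≤ C * (1 + |x|) ^ N) ∧ ∀ x, gg V x ≤ C * (1 + |x|) ^ N := by
  obtain ⟨N, hN⟩ := pow_unbounded_of_one_lt L (one_lt_two)
  have h0 : 0 ≤ deriv V 1 := h.nonneg 1 zero_le_one
  have a1 : ∀ x : ℝ, 0 ≤ x → deriv V x ≤ 2 ^ N * deriv V 1 * (1 + x) ^ N := by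
    intro x hx
    rcases le_or_gt x 1 with h1 | h1
    · calc deriv V x ≤ deriv V 1 := h.mono hx h1
        _ = 1 * deriv V 1 * 1 := by ring
        _ ≤ 2 ^ N * deriv V 1 * (1 + x) ^ N := by
            gcongr
            · exact one_le_pow₀ one_le_two
            · exact one_le_pow₀ (by linarith)
    · obtain ⟨m, hm1, hm2⟩ := exists_nat_pow_near h1.le one_lt_two
      calc deriv V x ≤ deriv V (2 ^ (m + 1)) := h.mono hx hm2.le
        _ ≤ L ^ (m + 1) * deriv V 1 := h.pow_bound hL _
        _ ≤ (2 ^ N) ^ (m + 1) * deriv V 1 := by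
            gcongr
        _ = (2 * 2 ^ m) ^ N * deriv V 1 := by
            rw [← pow_mul, mul_comm N, pow_mul, pow_succ']
        _ ≤ (2 * (1 + x)) ^ N * deriv V 1 := by
            gcongr
            linarith
        _ = _ := by rw [mul_pow]; ring
  have a2 : ∀ x, |deriv V x| ≤ 2 ^ N * deriv V 1 * (1 + |x|) ^ N := by
    intro x
    have e : |deriv V x| = deriv V |x| := by
      rcases abs_cases x with ⟨h1, h2⟩ | ⟨h1, h2⟩
      · rw [h1, abs_of_nonneg (h.nonneg x h2)]
      · rw [h1, h.odd, abs_of_nonpos]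
        have := h.nonneg (-x) (by linarith)
        rw [h.odd] at this
        linarith
    rw [e]
    exact a1 _ (abs_nonneg x)
  refine ⟨2 ^ N * deriv V 1, N, by positivity, a2, fun x => ?_⟩
  rw [← h.gg_abs]
  rcases le_or_gt |x| 1 with h1 | h1
  · calc gg V |x| ≤ gg V 1 := h.gg_mono0 (abs_nonneg x) h1
      _ = deriv V 1 := by rw [gg, div_one]
      _ = 1 * deriv V 1 * 1 := by ring
      _ ≤ 2 ^ N * deriv V 1 * (1 + |x|) ^ N := by
          gcongr
          · exact one_le_pow₀ one_le_two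
          · exact one_le_pow₀ (by linarith [abs_nonneg x])
  · calc gg V |x| = deriv V |x| / |x| := rfl
      _ ≤ deriv V |x| := div_le_self (h.nonneg _ (abs_nonneg x)) h1.le
      _ ≤ _ := a1 _ (abs_nonneg x)

end Pool.Agent.T6.H78.KF
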