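import Mathlib

/-!
# Positivity of integrals by averaging over sign changes (Ginibre)
-/

set_option autoImplicit false
set_option linter.unusedSectionVars false

namespace Pool.Agent.T6.H78.KF

open MeasureTheory Finset

variable {J : Type} [Fintype J]

/-- functions of signs which are polynomials with nonnegative coefficients -/
def PD (f : (J → ℤˣ) → ℝ) : Prop := ∃ p : MvPolynomial J ℝ, (∀ m, 0 ≤ p.coeff m) ∧
  ∀ ε, f ε = MvPolynomial.eval (fun j => ((ε j : ℤ) : ℝ)) p

theorem PD.const {c : ℝ} (hc : 0 ≤ c) : PD (fun _ : J → ℤˣ => c) := by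
  classical
  refine ⟨MvPolynomial.C c, fun m => ?_, fun ε => by simp⟩
  rw [MvPolynomial.coeff_C]
  split_ifs <;> simp [hc]

theorem PD.coord (j : J) : PD (fun ε : J → ℤˣ => ((ε j : ℤ) : ℝ)) := by
  classical
  refine ⟨MvPolynomial.X j, fun m => ?_, fun ε => by simp⟩
  rw [MvPolynomial.coeff_X]
  split_ifs <;> simp

theorem PD.add {f g : (J → ℤˣ) → ℝ} (hf : PD f) (hg : PD g) : PD (fun ε => f ε + g ε) := by
  obtain ⟨p, hp, hp'⟩ := hf
  obtain ⟨q, hq, hq'⟩ := hg
  exact ⟨p + q, fun m => by rw [MvPolynomial.coeff_add]; exact add_nonneg (hp m) (hq m),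
    fun ε => by simp only [hp', hq', map_add]⟩

theorem PD.mul {f g : (J → ℤˣ) → ℝ} (hf : PD f) (hg : PD g) : PD (fun ε => f ε * g ε) := by
  classical
  obtain ⟨p, hp, hp'⟩ := hf
  obtain ⟨q, hq, hq'⟩ := hg
  refine ⟨p * q, fun m => ?_, fun ε => by simp only [hp', hq', map_mul]⟩
  rw [MvPolynomial.coeff_mul]
  exact Finset.sum_nonneg fun x _ => mul_nonneg (hp _) (hq _)

theorem PD.prod {α : Type*} (s : Finset α) {f : α → (J → ℤˣ) → ℝ} (hf : ∀ a ∈ s, PD (f a)) :
    PD (fun ε => ∏ a ∈ s, f a ε) := by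
  classical
  induction s using Finset.induction_on with
  | empty => simpa using PD.const (J := J) (c := 1) zero_le_one
  | insert a s ha ih =>
    have h1 := hf a (Finset.mem_insert_self a s)
    have h2 := ih fun b hb => hf b (Finset.mem_insert_of_mem hb)
    have := h1.mul h2
    refine (funext fun ε => ?_ : (fun ε => ∏ b ∈ insert a s, f b ε) =
      fun ε => f a ε * ∏ b ∈ s, f b ε) ▸ this
    rw [Finset.prod_insert ha]

theorem PD.congr {f g : (J → ℤˣ) → ℝ} (hf : PD f) (h : ∀ ε, g ε = f ε) : PD g := by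
  rwa [show g = f from funext h]

theorem PD.cmul {f : (J → ℤˣ) → ℝ} (hf : PD f) {c : ℝ} (hc : 0 ≤ c) : PD (fun ε => c * f ε) :=
  (PD.const hc).mul hf

/-- sums over all signs are nonnegative -/
theorem PD.sum_nonneg [DecidableEq J] {f : (J → ℤˣ) → ℝ} (hf : PD f) : 0 ≤ ∑ ε, f ε := by
  obtain ⟨p, hp, hp'⟩ := hf
  have e1 : ∑ ε : J → ℤˣ, f ε = ∑ m ∈ p.support, p.coeff m *
      ∏ j, ∑ e : ℤˣ, (((e : ℤ) : ℝ)) ^ (m j) := by
    simp_rw [hp', MvPolynomial.eval_eq']
    rw [Finset.sum_comm]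
    refine Finset.sum_congr rfl fun m _ => ?_
    rw [← Finset.mul_sum, Finset.prod_univ_sum, Fintype.piFinset_univ]
  rw [e1]
  refine Finset.sum_nonneg fun m _ => mul_nonneg (hp m) (Finset.prod_nonneg fun j _ => ?_)
  have : (Finset.univ : Finset ℤˣ) = {1, -1} := by decide
  rw [this, Finset.sum_pair (by decide)]
  rcases Nat.even_or_odd (m j) with h | h
  · simp [h.neg_one_pow]
  · simp [h.neg_one_pow]

/-- the sign change of a vector -/
def sgn (ε : J → ℤˣ) (z : J → ℝ) : J → ℝ := fun j => ((ε j : ℤ) : ℝ) * z j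

theorem sgn_mul (ε η : J → ℤˣ) (z : J → ℝ) : sgn ε (sgn η z) = sgn (ε * η) z := by
  funext j
  simp [sgn, mul_assoc]

theorem sgn_mp (ε : J → ℤˣ) : MeasurePreserving (sgn ε) (volume : Measure (J → ℝ)) volume := by
  refine volume_preserving_pi (f := fun j (x : ℝ) => ((ε j : ℤ) : ℝ) * x) fun j => ?_
  rcases Int.units_eq_one_or (ε j) with h | h
  · rw [h]
    simp only [Units.val_one, Int.cast_one, one_mul]
    exact MeasurePreserving.id (volume : Measure ℝ)
  · rw [h]
    simpa using Measure.measurePreserving_neg (volume : Measure ℝ)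

theorem sgn_me (ε : J → ℤˣ) : MeasurableEmbedding (sgn ε : (J → ℝ) → (J → ℝ)) := by
  have hm : ∀ η : J → ℤˣ, Measurable (sgn η : (J → ℝ) → (J → ℝ)) := fun η => (sgn_mp η).measurable
  let e : (J → ℝ) ≃ᵐ (J → ℝ) :=
    { toFun := sgn ε
      invFun := sgn ε
      left_inv := fun z => by
        rw [sgn_mul]
        have : ε * ε = 1 := by
          funext j
          simp [← sq]
        rw [this]
        funext j
        simp [sgn]
      right_inv := fun z => by
        rw [sgn_mul]
        have : ε * ε = 1 := by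
          funext j
          simp [← sq]
        rw [this]
        funext j
        simp [sgn]
      measurable_toFun := hm ε
      measurable_invFun := hm ε }
  exact e.measurableEmbedding

/-- **Ginibre's argument**: an integrable function whose sign changes are polynomials with
nonnegative coefficients in the signs has a nonnegative integral -/
theorem good_integral [DecidableEq J] {Φ : (J → ℝ) → ℝ} (hΦ : Integrable Φ)
    (h : ∀ z : J → ℝ, (∀ j, 0 ≤ z j) → PD (fun ε => Φ (sgn ε z))) : 0 ≤ ∫ z, Φ z := by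
  have e1 : ∀ ε : J → ℤˣ, ∫ z, Φ (sgn ε z) = ∫ z, Φ z := fun ε =>
    (sgn_mp ε).integral_comp (sgn_me ε) Φ
  have i1 : ∀ ε : J → ℤˣ, Integrable fun z => Φ (sgn ε z) := fun ε =>
    (sgn_mp ε).integrable_comp_of_integrable hΦ
  have h2 : ∀ z : J → ℝ, 0 ≤ ∑ ε : J → ℤˣ, Φ (sgn ε z) := by
    intro z
    let η : J → ℤˣ := fun j => if 0 ≤ z j then 1 else -1
    have hη : z = sgn η (fun j => |z j|) := by
      funext j
      simp only [sgn, η]
      split_ifs with hz
      · simp [abs_of_nonneg hz]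
      · simp [abs_of_neg (not_le.1 hz)]
    have h3 := (h (fun j => |z j|) fun j => abs_nonneg _).sum_nonneg
    have h4 : ∑ ε : J → ℤˣ, Φ (sgn ε z) = ∑ ε : J → ℤˣ, Φ (sgn ε fun j => |z j|) := by
      conv_lhs => rw [hη]
      simp_rw [sgn_mul]
      exact Fintype.sum_equiv (Equiv.mulRight η) _ _ fun ε => by simp
    rw [h4]
    exact h3
  have h5 : 0 ≤ ∫ z, ∑ ε : J → ℤˣ, Φ (sgn ε z) := integral_nonneg fun z => h2 z
  rw [integral_finsetSum _ fun ε _ => i1 ε] at h5
  simp_rw [e1] at h5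
  rw [Finset.sum_const, nsmul_eq_mul] at h5
  have h6 : (0 : ℝ) < (Finset.univ : Finset (J → ℤˣ)).card := by
    exact_mod_cast Finset.card_pos.2 ⟨1, Finset.mem_univ _⟩
  exact nonneg_of_mul_nonneg_right (by linarith) h6

end Pool.Agent.T6.H78.KF
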