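import Pool.Agent.T6.H78.KF.Cmp

/-!
# Comparison of `E g(x_j)` for the system and for the doubled system
-/

set_option autoImplicit false
set_option linter.unusedSectionVars false

namespace Pool.Agent.T6.H78.KF

open MeasureTheory Finset Set

variable {ι : Type} [Fintype ι] {L : ℝ} {A : ι → ι → ℝ} {V : ι → ℝ → ℝ}

theorem tl_zero (A : ι → ι → ℝ) (V : ι → ℝ → ℝ) (y x : E ι) :
    tl A V 0 (fun _ => 1) y x = wt A V x := by
  simp [tl]

theorem Sys.qcomp (h : Sys L A V) (j : ι) :
    ex A V (fun x => gg (V j) (x j)) ≤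
      L * ex (fun i j => 2 * A i j) (fun k t => 2 * V k t) (fun x => gg (V j) (x j)) := by
  have hL0 : 0 < L := by linarith [h.two]
  have hZ := h.Zpos
  set K := ex (fun i j => 2 * A i j) (fun k t => 2 * V k t) (fun x => gg (V j) (x j)) with hK
  have i0 : Integrable fun p : E ι × E ι => wt A V p.1 * wt A V p.2 := h.int.mul_prod h.int
  have g1 := PG2.gg (ι := ι) h.two (h.pot j) j
  have g2 := PG2.gg' (ι := ι) h.two (h.pot j) j
  have i2 := h.intg2 g1
  have i3 := h.intg2 g2
  have e1 : ∀ p : E ι × E ι, gg (V j) (((1 / 2 : ℝ) • (p.1 - p.2)) j) =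
      gg (V j) ((p.1 j - p.2 j) / 2) := by
    intro p
    congr 1
    simp only [PiLp.smul_apply, PiLp.sub_apply, smul_eq_mul]
    ring
  have key := crl (ρ := wt A V) (f := fun r => gg (V j) (r j)) (K := K) i0
    (by simpa only [e1] using i2) (fun c => by
      have a1 : ∀ r : E ι, wt A V (c + r) * wt A V (c - r) =
          Real.exp (-(qd A c + 2 * 0 * ‖c - 0‖ ^ 2)) * den A (aw V 0 (fun _ => 1) c) r := by
        intro r
        rw [← tl_mul, tl_zero, tl_zero]
      simp only [a1]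
      have a2 : ∀ r : E ι, gg (V j) (r j) * (Real.exp (-(qd A c + 2 * 0 * ‖c - 0‖ ^ 2)) *
          den A (aw V 0 (fun _ => 1) c) r) = Real.exp (-(qd A c + 2 * 0 * ‖c - 0‖ ^ 2)) *
          (gg (V j) (r j) * den A (aw V 0 (fun _ => 1) c) r) := by
        intro r
        ring
      simp only [a2]
      rw [integral_const_mul, integral_const_mul]
      have a3 := cond_g h cut_one (le_refl 0) c j
      have a4 := mul_le_mul_of_nonneg_left a3
        (Real.exp_pos (-(qd A c + 2 * 0 * ‖c - 0‖ ^ 2))).le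
      refine a4.trans (le_of_eq ?_)
      rw [hK]
      ring)
  simp only [e1] at key
  have e0 : ∫ p : E ι × E ι, wt A V p.1 * wt A V p.2 = (∫ x, wt A V x) * ∫ x, wt A V x :=
    integral_prod_mul (wt A V) (wt A V)
  rw [e0] at key
  have e2 : ∫ p : E ι × E ι, gg (V j) ((p.1 j + p.2 j) / 2) * (wt A V p.1 * wt A V p.2) =
      ∫ p : E ι × E ι, gg (V j) ((p.1 j - p.2 j) / 2) * (wt A V p.1 * wt A V p.2) := by
    rw [← neg_int (fun p : E ι × E ι => gg (V j) ((p.1 j - p.2 j) / 2) *
      (wt A V p.1 * wt A V p.2))]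
    refine integral_congr_ae (Filter.Eventually.of_forall fun p => ?_)
    simp only [PiLp.neg_apply, sub_neg_eq_add, h.wt_even]
  have jg : Integrable (fun x : E ι => gg (V j) (x j) * wt A V x) :=
    h.intg (PG.gg h.two (h.pot j) j)
  have b1 : Integrable (fun p : E ι × E ι => (gg (V j) (p.1 j) * wt A V p.1) * wt A V p.2) :=
    jg.mul_prod h.int
  have e3 : ∫ p : E ι × E ι, (gg (V j) (p.1 j) * wt A V p.1) * wt A V p.2 =
      (∫ x : E ι, gg (V j) (x j) * wt A V x) * ∫ x, wt A V x :=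
    integral_prod_mul (fun x : E ι => gg (V j) (x j) * wt A V x) (wt A V)
  have e4 : ∫ p : E ι × E ι, 2 / L * ((gg (V j) (p.1 j) * wt A V p.1) * wt A V p.2) ≤
      ∫ p : E ι × E ι, (gg (V j) ((p.1 j - p.2 j) / 2) * (wt A V p.1 * wt A V p.2) +
        gg (V j) ((p.1 j + p.2 j) / 2) * (wt A V p.1 * wt A V p.2)) := by
    refine integral_mono (b1.const_mul _) (i2.add i3) fun p => ?_
    have h1 := (h.pot j).gg_sum h.two (p.1 j) (p.2 j)
    have h2 : 0 < wt A V p.1 * wt A V p.2 := mul_pos (wt_pos _) (wt_pos _)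
    calc 2 / L * ((gg (V j) (p.1 j) * wt A V p.1) * wt A V p.2) =
          (2 / L * gg (V j) (p.1 j)) * (wt A V p.1 * wt A V p.2) := by ring
      _ ≤ (gg (V j) ((p.1 j - p.2 j) / 2) + gg (V j) ((p.1 j + p.2 j) / 2)) *
          (wt A V p.1 * wt A V p.2) := mul_le_mul_of_nonneg_right h1 h2.le
      _ = _ := by ring
  rw [integral_const_mul, e3, integral_add i2 i3, e2] at e4
  set G := ∫ x : E ι, gg (V j) (x j) * wt A V x with hG
  set Z := ∫ x : E ι, wt A V x with hZd
  have e5 : 2 / L * (G * Z) ≤ 2 * (K * (Z * Z)) := by linarith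
  have e6 : G * Z ≤ L * K * Z * Z := by
    calc G * Z = L / 2 * (2 / L * (G * Z)) := by field_simp
      _ ≤ L / 2 * (2 * (K * (Z * Z))) := by gcongr
      _ = _ := by ring
  have e7 : G ≤ L * K * Z := le_of_mul_le_mul_right e6 hZ
  rw [ex, div_le_iff₀ hZ]
  exact e7

end Pool.Agent.T6.H78.KF
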