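import Pool.Agent.T6.H78.KF.PF
import Pool.Agent.T6.H78.KF.Qc

/-!
# The covariance matrix of the doubled system
-/

set_option autoImplicit false
set_option linter.unusedSectionVars false

namespace Pool.Agent.T6.H78.KF

open MeasureTheory Finset Set

variable {ι : Type} [Fintype ι] {L : ℝ} {A : ι → ι → ℝ} {V : ι → ℝ → ℝ}

/-- the covariance matrix -/
noncomputable def cm (A : ι → ι → ℝ) (V : ι → ℝ → ℝ) : ι → ι → ℝ :=
  fun i j => ex A V fun x => x i * x j

theorem cm_symm (A : ι → ι → ℝ) (V : ι → ℝ → ℝ) (i j : ι) : cm A V i j = cm A V j i := by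
  simp only [cm, mul_comm]

theorem Sys.cm_nonneg (h : Sys L A V) (i j : ι) : 0 ≤ cm A V i j :=
  div_nonneg (h.cov_nonneg i j) h.Zpos.le

theorem gg_two (h : Sys L A V) (j : ι) (t : ℝ) : gg (fun t => 2 * V j t) t = 2 * gg (V j) t := by
  simp only [gg]
  rw [deriv_const_mul 2 ((h.pot j).diff t)]
  ring

theorem Sys.lower_K [DecidableEq ι] (h : Sys L A V) (i j : ι) :
    (∑ k, 2 * A k j * cm (fun i j => 2 * A i j) (fun k t => 2 * V k t) i k) +
      2 * ex (fun i j => 2 * A i j) (fun k t => 2 * V k t) (fun x => gg (V j) (x j)) *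
        cm (fun i j => 2 * A i j) (fun k t => 2 * V k t) i j ≤ if i = j then 1 else 0 := by
  have hZ := h.double.Zpos
  have h1 := h.double.sd i j
  have h2 := h.double.gks2 i j
  simp only [gg_two h] at h2
  have e1 : ∫ x : E ι, 2 * gg (V j) (x j) * wt (fun i j => 2 * A i j) (fun k t => 2 * V k t) x =
      2 * ∫ x : E ι, gg (V j) (x j) * wt (fun i j => 2 * A i j) (fun k t => 2 * V k t) x := by
    rw [← integral_const_mul]
    refine integral_congr_ae (Filter.Eventually.of_forall fun x => ?_)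
    ring
  rw [e1] at h2
  simp only [cm, ex]
  set Z := ∫ x : E ι, wt (fun i j => 2 * A i j) (fun k t => 2 * V k t) x
  set G := ∫ x : E ι, gg (V j) (x j) * wt (fun i j => 2 * A i j) (fun k t => 2 * V k t) x
  have e2 : (∑ k, 2 * A k j * ((∫ x : E ι, x i * x k * wt (fun i j => 2 * A i j)
      (fun k t => 2 * V k t) x) / Z)) = (∑ k, 2 * A k j * (∫ x : E ι, x i * x k *
      wt (fun i j => 2 * A i j) (fun k t => 2 * V k t) x)) / Z := by
    rw [Finset.sum_div]
    refine Finset.sum_congr rfl fun k _ => ?_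
    ring
  rw [e2]
  set S := ∑ k, 2 * A k j * (∫ x : E ι, x i * x k *
      wt (fun i j => 2 * A i j) (fun k t => 2 * V k t) x)
  set C := ∫ x : E ι, x i * x j * wt (fun i j => 2 * A i j) (fun k t => 2 * V k t) x
  set F := ∫ x : E ι, x i * deriv (fun t => 2 * V j t) (x j) *
    wt (fun i j => 2 * A i j) (fun k t => 2 * V k t) x
  have h3 : (if i = j then (1 : ℝ) else 0) = (S + F) / Z := by
    rw [eq_div_iff hZ.ne']
    rw [← h1]
    split_ifs <;> simp
  rw [h3]
  have h4 : 2 * (G / Z) * (C / Z) ≤ F / Z := by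
    rw [show 2 * (G / Z) * (C / Z) = (C * (2 * G) / Z) / Z by ring]
    refine div_le_div_of_nonneg_right ?_ hZ.le
    rw [div_le_iff₀ hZ]
    linarith
  rw [add_div]
  linarith

theorem Sys.upper_C [DecidableEq ι] (h : Sys L A V) (i j : ι) :
    (if i = j then (1 : ℝ) else 0) ≤ (∑ k, A k j * cm A V i k) +
      L ^ 2 * (L + 2) / 4 * ex A V (fun x => gg (V j) (x j)) * cm A V i j := by
  have hZ := h.Zpos
  have h1 := h.sd i j
  have h2 := h.upper i j
  simp only [cm, ex]
  set Z := ∫ x : E ι, wt A V x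
  set G := ∫ x : E ι, gg (V j) (x j) * wt A V x
  have e2 : (∑ k, A k j * ((∫ x : E ι, x i * x k * wt A V x) / Z)) =
      (∑ k, A k j * (∫ x : E ι, x i * x k * wt A V x)) / Z := by
    rw [Finset.sum_div]
    refine Finset.sum_congr rfl fun k _ => ?_
    ring
  rw [e2]
  set S := ∑ k, A k j * (∫ x : E ι, x i * x k * wt A V x)
  set C := ∫ x : E ι, x i * x j * wt A V x
  set F := ∫ x : E ι, x i * deriv (V j) (x j) * wt A V x
  have h3 : (if i = j then (1 : ℝ) else 0) = (S + F) / Z := by
    rw [eq_div_iff hZ.ne']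
    rw [← h1]
    split_ifs <;> simp
  rw [h3]
  have h4 : F / Z ≤ L ^ 2 * (L + 2) / 4 * (G / Z) * (C / Z) := by
    rw [show L ^ 2 * (L + 2) / 4 * (G / Z) * (C / Z) =
      ((L ^ 2 * (L + 2) / 4 * (C * G)) / Z) / Z by ring]
    refine div_le_div_of_nonneg_right ?_ hZ.le
    rw [le_div_iff₀ hZ]
    linarith
  rw [add_div]
  linarith

theorem qd_eq (M : ι → ι → ℝ) (w : E ι) : qd M w = ∑ j, w j * ∑ i, M i j * w i := by
  simp only [qd, Finset.mul_sum]
  rw [Finset.sum_comm]
  refine Finset.sum_congr rfl fun i _ => Finset.sum_congr rfl fun j _ => ?_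
  ring

/-- **the covariance of the doubled system is at most a constant times that of the system** -/
theorem Sys.kbound (h : Sys L A V) {s : ℝ} (hs0 : 0 ≤ s)
    (hs : ∀ w, qd (cm A V) w ≤ s * ‖w‖ ^ 2) (w : E ι) :
    qd (cm (fun i j => 2 * A i j) (fun k t => 2 * V k t)) w ≤
      L ^ 2 * (L + 2) / 4 * L / 2 * s * ‖w‖ ^ 2 := by
  classical
  have hL2 := h.two
  have hL0 : 0 < L := by linarith
  have hc1 : 1 ≤ L ^ 2 * (L + 2) / 4 := by
    have : 4 ≤ L ^ 2 := by nlinarith
    nlinarith
  set c := L ^ 2 * (L + 2) / 4 with hc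
  rcases isEmpty_or_nonempty ι with hι | hι
  · have e : w = 0 := Subsingleton.elim _ _
    rw [e]
    simp [qd]
  set K := cm (fun i j => 2 * A i j) (fun k t => 2 * V k t) with hK
  set C := cm A V with hC
  set Q : ι → ℝ := fun j => ex A V (fun x => gg (V j) (x j)) with hQ
  set Q0 : ι → ℝ := fun j => ex (fun i j => 2 * A i j) (fun k t => 2 * V k t)
    (fun x => gg (V j) (x j)) with hQ0
  have hQ0n : ∀ j, 0 ≤ Q0 j := fun j => div_nonneg (integral_nonneg fun x =>
    mul_nonneg ((h.pot j).gg_nonneg _) (wt_pos _).le) h.double.Zpos.le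
  have hQQ : ∀ j, Q j ≤ L * Q0 j := fun j => h.qcomp j
  obtain ⟨v, hv1, hv0, hvm, hve⟩ := pf (M := K) (cm_symm _ _) fun i j _ => h.double.cm_nonneg i j
  set lam := qd K v with hlam
  rcases le_or_gt lam 0 with hl | hl
  · calc qd K w ≤ lam * ‖w‖ ^ 2 := hvm w
      _ ≤ 0 := mul_nonpos_of_nonpos_of_nonneg hl (sq_nonneg _)
      _ ≤ _ := by positivity
  have hvs : ∑ j, v j ^ 2 = 1 := by rw [← nsq, hv1]; norm_num
  -- `λ (2 qd A v + 2 ∑ Q0 v²) ≤ 1`
  have s1 : lam * (2 * (qd A v + ∑ j, Q0 j * v j ^ 2)) ≤ 1 := by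
    have a1 : ∀ j, lam * (2 * (∑ k, A k j * v k) + 2 * (Q0 j * v j)) ≤ v j := by
      intro j
      have a2 : ∑ i, v i * ((∑ k, 2 * A k j * K i k) + 2 * Q0 j * K i j) ≤
          ∑ i, v i * if i = j then 1 else 0 :=
        Finset.sum_le_sum fun i _ => mul_le_mul_of_nonneg_left (h.lower_K i j) (hv0 i)
      have a3 : ∑ i, v i * (if i = j then (1 : ℝ) else 0) = v j := by simp
      rw [a3] at a2
      refine le_trans (le_of_eq ?_) a2
      have a4 : ∑ i, v i * ((∑ k, 2 * A k j * K i k) + 2 * Q0 j * K i j) =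
          (∑ k, 2 * A k j * ∑ i, K i k * v i) + 2 * Q0 j * ∑ i, K i j * v i := by
        simp only [mul_add, Finset.sum_add_distrib, Finset.mul_sum]
        congr 1
        · rw [Finset.sum_comm]
          refine Finset.sum_congr rfl fun k _ => Finset.sum_congr rfl fun i _ => ?_
          ring
        · refine Finset.sum_congr rfl fun i _ => ?_
          ring
      rw [a4]
      simp only [hve]
      rw [mul_add, Finset.mul_sum, Finset.mul_sum]
      congr 1
      · refine Finset.sum_congr rfl fun k _ => ?_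
        ring
      · ring
    have a5 : ∑ j, v j * (lam * (2 * (∑ k, A k j * v k) + 2 * (Q0 j * v j))) ≤ ∑ j, v j * v j :=
      Finset.sum_le_sum fun j _ => mul_le_mul_of_nonneg_left (a1 j) (hv0 j)
    have a6 : ∑ j, v j * v j = 1 := by
      rw [← hvs]
      exact Finset.sum_congr rfl fun j _ => (sq (v j)).symm
    rw [a6] at a5
    refine le_trans (le_of_eq ?_) a5
    rw [qd_eq A v, ← Finset.sum_add_distrib, Finset.mul_sum, Finset.mul_sum]
    refine Finset.sum_congr rfl fun j _ => ?_
    ring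
  -- the second matrix
  set B : ι → ι → ℝ := fun i j => A i j + if i = j then c * Q j else 0 with hB
  have qdB : ∀ x : E ι, qd (fun i j => -B i j) x = -(qd A x + ∑ j, c * Q j * x j ^ 2) := by
    intro x
    simp only [qd, hB]
    rw [← Finset.sum_add_distrib, ← Finset.sum_neg_distrib]
    refine Finset.sum_congr rfl fun i _ => ?_
    have : ∀ j, -(A i j + if i = j then c * Q j else 0) * (x i * x j) =
        -(A i j * (x i * x j)) - (if i = j then c * Q j * (x i * x j) else 0) := by
      intro j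
      split_ifs <;> ring
    simp only [this, Finset.sum_sub_distrib, Finset.sum_neg_distrib, Finset.sum_ite_eq,
      Finset.mem_univ, if_true]
    ring
  obtain ⟨u, hu1, hu0, hum, hue⟩ := pf (M := fun i j => -B i j)
    (fun i j => by
      simp only [hB]
      rw [h.symm i j]
      rcases eq_or_ne i j with rfl | hij
      · simp
      · rw [if_neg hij, if_neg hij.symm]) (fun i j hij => by
      simp only [hB, if_neg hij, add_zero]
      have := h.off i j hij
      linarith)
  set bet := -qd (fun i j => -B i j) u with hbet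
  have s2 : bet ≤ c * L * (qd A v + ∑ j, Q0 j * v j ^ 2) := by
    have a1 := hum v
    rw [qdB v, hv1] at a1
    have a2 : bet ≤ qd A v + ∑ j, c * Q j * v j ^ 2 := by
      rw [hbet]
      linarith
    have a3 : ∑ j, c * Q j * v j ^ 2 ≤ c * L * ∑ j, Q0 j * v j ^ 2 := by
      rw [Finset.mul_sum]
      refine Finset.sum_le_sum fun j _ => ?_
      calc c * Q j * v j ^ 2 ≤ c * (L * Q0 j) * v j ^ 2 := by
            have := hQQ j
            gcongr
        _ = _ := by ring
    have a4 : qd A v ≤ c * L * qd A v := by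
      refine le_mul_of_one_le_left (h.psd v) ?_
      nlinarith
    calc bet ≤ _ := a2
      _ ≤ c * L * qd A v + c * L * ∑ j, Q0 j * v j ^ 2 := add_le_add a4 a3
      _ = _ := by ring
  have s3 : 1 ≤ bet * qd C u := by
    have a0 : ∀ k, ∑ j, B k j * u j = bet * u k := by
      intro k
      have := hue k
      simp only [neg_mul, Finset.sum_neg_distrib] at this
      have a1 : ∑ i, B i k * u i = ∑ j, B k j * u j := by
        refine Finset.sum_congr rfl fun i _ => ?_
        congr 1
        simp only [hB]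
        rw [h.symm i k]
        rcases eq_or_ne i k with rfl | hij
        · simp
        · rw [if_neg hij, if_neg hij.symm]
      rw [← a1, hbet]
      linarith
    have a1 : ∀ i, u i ≤ ∑ k, C i k * (bet * u k) := by
      intro i
      have a2 : ∑ j, (if i = j then (1 : ℝ) else 0) * u j ≤
          ∑ j, ((∑ k, A k j * C i k) + c * Q j * C i j) * u j :=
        Finset.sum_le_sum fun j _ => mul_le_mul_of_nonneg_right (h.upper_C i j) (hu0 j)
      have a3 : ∑ j, (if i = j then (1 : ℝ) else 0) * u j = u i := by simp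
      rw [a3] at a2
      refine a2.trans (le_of_eq ?_)
      simp only [← a0, hB, add_mul, Finset.sum_add_distrib, Finset.mul_sum, mul_add, ite_mul,
        zero_mul, mul_ite, mul_zero, Finset.sum_ite_eq, Finset.mem_univ, if_true, Finset.sum_mul]
      congr 1
      · rw [Finset.sum_comm]
        refine Finset.sum_congr rfl fun k _ => Finset.sum_congr rfl fun j _ => ?_
        ring
      · refine Finset.sum_congr rfl fun j _ => ?_
        ring
    have a4 : ∑ i, u i * u i ≤ ∑ i, u i * ∑ k, C i k * (bet * u k) :=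
      Finset.sum_le_sum fun i _ => mul_le_mul_of_nonneg_left (a1 i) (hu0 i)
    have a5 : ∑ i, u i * u i = 1 := by
      have : ‖u‖ ^ 2 = 1 := by rw [hu1]; norm_num
      rw [nsq] at this
      rw [← this]
      exact Finset.sum_congr rfl fun j _ => (sq (u j)).symm
    rw [a5] at a4
    refine a4.trans (le_of_eq ?_)
    simp only [qd, Finset.mul_sum]
    refine Finset.sum_congr rfl fun i _ => Finset.sum_congr rfl fun k _ => ?_
    ring
  have s4 : qd C u ≤ s := by
    have := hs u
    rwa [hu1, one_pow, mul_one] at this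
  have s5 : 0 ≤ qd C u := Finset.sum_nonneg fun i _ => Finset.sum_nonneg fun j _ =>
    mul_nonneg (h.cm_nonneg i j) (mul_nonneg (hu0 i) (hu0 j))
  have s6 : 0 < bet := by
    by_contra hcon
    push Not at hcon
    have := mul_nonpos_of_nonpos_of_nonneg hcon s5
    linarith
  have s7 : 1 ≤ bet * s := s3.trans (mul_le_mul_of_nonneg_left s4 s6.le)
  have s8 : lam ≤ c * L / 2 * s := by
    set X := qd A v + ∑ j, Q0 j * v j ^ 2
    have t1 : lam * X ≤ 1 / 2 := by linarith
    have t2 : 1 ≤ c * L * X * s := s7.trans (mul_le_mul_of_nonneg_right s2 hs0)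
    calc lam = lam * 1 := (mul_one _).symm
      _ ≤ lam * (c * L * X * s) := mul_le_mul_of_nonneg_left t2 hl.le
      _ = c * L * s * (lam * X) := by ring
      _ ≤ c * L * s * (1 / 2) := by
          refine mul_le_mul_of_nonneg_left t1 (by positivity)
      _ = _ := by ring
  calc qd K w ≤ lam * ‖w‖ ^ 2 := hvm w
    _ ≤ c * L / 2 * s * ‖w‖ ^ 2 := mul_le_mul_of_nonneg_right s8 (sq_nonneg _)

end Pool.Agent.T6.H78.KF
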