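import Pool.Agent.T6.H78.KF.Sys

/-!
# Top eigenvectors of symmetric matrices with nonnegative off-diagonal entries
-/

set_option autoImplicit false
set_option linter.unusedSectionVars false

namespace Pool.Agent.T6.H78.KF

open MeasureTheory Finset Set

variable {ι : Type} [Fintype ι]

theorem nsq (x : E ι) : ‖x‖ ^ 2 = ∑ k, x k ^ 2 := by
  rw [EuclideanSpace.norm_sq_eq]
  simp

/-- the absolute values of the coordinates -/
noncomputable def av (x : E ι) : E ι := WithLp.toLp 2 fun k => |x k|

@[simp] theorem av_apply (x : E ι) (k : ι) : av x k = |x k| := rfl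

theorem av_norm (x : E ι) : ‖av x‖ ^ 2 = ‖x‖ ^ 2 := by
  simp only [nsq, av_apply, sq_abs]

theorem qd_av {M : ι → ι → ℝ} (hM : ∀ i j, i ≠ j → 0 ≤ M i j) (x : E ι) : qd M x ≤ qd M (av x) := by
  simp only [qd, av_apply]
  refine Finset.sum_le_sum fun i _ => Finset.sum_le_sum fun j _ => ?_
  rcases eq_or_ne i j with rfl | hij
  · rw [abs_mul_abs_self]
  · refine mul_le_mul_of_nonneg_left ?_ (hM i j hij)
    rw [← abs_mul]
    exact le_abs_self _

theorem qd_smul (M : ι → ι → ℝ) (c : ℝ) (x : E ι) : qd M (c • x) = c ^ 2 * qd M x := by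
  simp only [qd, Finset.mul_sum, PiLp.smul_apply, smul_eq_mul]
  refine Finset.sum_congr rfl fun i _ => Finset.sum_congr rfl fun j _ => ?_
  ring

theorem pf [Nonempty ι] {M : ι → ι → ℝ} (hs : ∀ i j, M i j = M j i)
    (hM : ∀ i j, i ≠ j → 0 ≤ M i j) :
    ∃ w : E ι, ‖w‖ = 1 ∧ (∀ k, 0 ≤ w k) ∧ (∀ x, qd M x ≤ qd M w * ‖x‖ ^ 2) ∧
      ∀ j, ∑ i, M i j * w i = qd M w * w j := by
  classical
  obtain ⟨v, hv, hmax⟩ := (isCompact_sphere (0 : E ι) 1).exists_isMaxOn
    (by
      obtain ⟨i⟩ := ‹Nonempty ι›
      exact ⟨EuclideanSpace.single i 1, by simp⟩) (qd_cont M).continuousOn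
  have hv1 : ‖v‖ = 1 := by simpa using hv
  set w := av v with hw
  have hw2 : ‖w‖ ^ 2 = 1 := by rw [hw, av_norm, hv1]; norm_num
  have hw1 : ‖w‖ = 1 := by
    have := norm_nonneg w
    nlinarith
  have hmx : ∀ x, qd M x ≤ qd M w * ‖x‖ ^ 2 := by
    intro x
    rcases eq_or_ne x 0 with rfl | hx
    · simp [qd]
    · have hxn : 0 < ‖x‖ := norm_pos_iff.2 hx
      have h1 : qd M (‖x‖⁻¹ • x) ≤ qd M v := by
        refine hmax ?_
        simp [norm_smul, hxn.ne']
      have h2 : qd M v ≤ qd M w := qd_av hM v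
      rw [qd_smul] at h1
      have h3 : qd M x = ‖x‖ ^ 2 * ((‖x‖⁻¹) ^ 2 * qd M x) := by field_simp
      rw [h3]
      have := mul_le_mul_of_nonneg_left (h1.trans h2) (sq_nonneg ‖x‖)
      linarith
  refine ⟨w, hw1, fun k => abs_nonneg _, hmx, fun j => ?_⟩
  -- the first order condition
  have hexp : ∀ t : ℝ, 0 ≤ t * (2 * (qd M w * w j - ∑ i, M i j * w i)) +
      t ^ 2 * (qd M w - M j j) := by
    intro t
    have h1 := hmx (w + t • EuclideanSpace.single j (1 : ℝ))
    have e1 : ∀ k, (w + t • EuclideanSpace.single j (1 : ℝ)) k = w k + t * (if k = j then 1 else 0) := by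
      intro k
      simp
    have e2 : ‖w + t • EuclideanSpace.single j (1 : ℝ)‖ ^ 2 = 1 + 2 * t * w j + t ^ 2 := by
      rw [nsq]
      simp only [e1]
      have : ∀ k, (w k + t * (if k = j then (1 : ℝ) else 0)) ^ 2 =
          w k ^ 2 + (if k = j then 2 * t * w k + t ^ 2 else 0) := by
        intro k
        split_ifs <;> ring
      simp only [this, Finset.sum_add_distrib, Finset.sum_ite_eq', Finset.mem_univ, if_true,
        ← nsq, hw2]
      ring
    have e3 : qd M (w + t • EuclideanSpace.single j (1 : ℝ)) =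
        qd M w + 2 * t * (∑ i, M i j * w i) + t ^ 2 * M j j := by
      simp only [qd, e1]
      have a1 : ∀ i k, M i k * ((w i + t * (if i = j then (1 : ℝ) else 0)) *
          (w k + t * (if k = j then (1 : ℝ) else 0))) = M i k * (w i * w k) +
          (if k = j then t * (M i k * w i) else 0) + (if i = j then t * (M i k * w k) +
            (if k = j then t ^ 2 * M i k else 0) else 0) := by
        intro i k
        split_ifs <;> ring
      simp only [a1, Finset.sum_add_distrib, Finset.sum_ite_eq', Finset.mem_univ, if_true]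
      have a2 : ∀ i, (∑ k, if i = j then t * (M i k * w k) + (if k = j then t ^ 2 * M i k else 0)
          else 0) = if i = j then t * (∑ k, M i k * w k) + t ^ 2 * M i j else 0 := by
        intro i
        split_ifs with hij
        · rw [Finset.sum_add_distrib, Finset.mul_sum]
          simp
        · simp
      simp only [a2, Finset.sum_ite_eq', Finset.mem_univ, if_true, ← Finset.mul_sum]
      have a3 : ∑ k, M j k * w k = ∑ k, M k j * w k :=
        Finset.sum_congr rfl fun k _ => by rw [hs]
      rw [a3]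
      ring
    rw [e2, e3] at h1
    nlinarith
  set a := qd M w * w j - ∑ i, M i j * w i with ha
  set b := qd M w - M j j with hb
  have ha0 : a = 0 := by
    by_contra hne
    have h1 := hexp (-a / (|b| + 1))
    have hb1 : 0 < |b| + 1 := by positivity
    have h2 : -a / (|b| + 1) * (2 * a) + (-a / (|b| + 1)) ^ 2 * b =
        a ^ 2 / (|b| + 1) ^ 2 * (b - 2 * (|b| + 1)) := by
      field_simp
      ring
    rw [h2] at h1
    have h3 : 0 < a ^ 2 / (|b| + 1) ^ 2 := by positivity
    have h4 : b - 2 * (|b| + 1) < 0 := by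
      have := le_abs_self b
      have := abs_nonneg b
      linarith
    have := mul_neg_of_pos_of_neg h3 h4
    linarith
  linarith

end Pool.Agent.T6.H78.KF
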