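import Pool.Agent.T6.H78.KF.Rho

/-!
# Poincare inequality for the system
-/

set_option autoImplicit false
set_option linter.unusedSectionVars false

namespace Pool.Agent.T6.H78.KF

open MeasureTheory Finset Set Filter Topology
open scoped InnerProductSpace

variable {ι : Type} [Fintype ι] {L : ℝ} {A : ι → ι → ℝ} {V : ι → ℝ → ℝ}

theorem rh_lim (x : E ι) : ∀ᶠ n : ℕ in atTop, rh A V (n + 1) x = wt A V x := by
  filter_upwards [eventually_ge_atTop ⌈‖x‖⌉₊] with n hn
  have h1 : ‖x‖ ≤ n := (Nat.le_ceil _).trans (by exact_mod_cast hn)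
  rw [rh, pc_one fun k => ?_, mul_one]
  exact (abs_coord_le x k).trans (by linarith)

theorem rh_tend (h : Sys L A V) {g : E ι → ℝ} (hgm : Measurable g)
    (hg : Integrable fun x => g x * wt A V x) :
    Tendsto (fun n : ℕ => ∫ x, g x * rh A V (n + 1) x) atTop (𝓝 (∫ x, g x * wt A V x)) := by
  refine tendsto_integral_of_dominated_convergence (fun x => ‖g x * wt A V x‖)
    (fun n => (hgm.mul (rh_meas h _)).aestronglyMeasurable) hg.norm
    (fun n => Eventually.of_forall fun x => ?_) (Eventually.of_forall fun x => ?_)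
  · rw [norm_mul, norm_mul]
    refine mul_le_mul_of_nonneg_left ?_ (norm_nonneg _)
    rw [Real.norm_eq_abs, Real.norm_eq_abs, abs_of_nonneg (rh_nonneg _ x), abs_of_pos (wt_pos x)]
    exact rh_le _ x
  · refine tendsto_const_nhds.congr' ?_
    filter_upwards [rh_lim (A := A) (V := V) x] with n hn
    rw [hn]

theorem rh_mono {R S : ℝ} (hRS : R ≤ S) (x : E ι) : rh A V R x ≤ rh A V S x :=
  mul_le_mul_of_nonneg_left (pc_mono hRS x) (wt_pos _).le

theorem rh_pos (h : Sys L A V) {R : ℝ} (hR : 0 < R) : 0 < ∫ x : E ι, rh A V R x := by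
  have hLC := rh_LC h hR
  have hZ := (Pool.Agent.H888R2.KT.zz_pos hLC 1 one_pos 0).1
  unfold Pool.Agent.H888R2.KT.zz at hZ
  rw [Pool.Agent.H888R2.KT.N2x.int_mu hLC.nonneg hLC.meas] at hZ
  refine hZ.trans_le (integral_mono ?_ (rh_int h R) fun x => ?_)
  · exact rh_cint h hR (by fun_prop)
  · refine mul_le_of_le_one_left (rh_nonneg R x) ?_
    rw [Real.exp_le_one_iff]
    have : 0 ≤ ‖x - 0‖ ^ 2 / (2 * 1) := by positivity
    linarith

theorem Sys.poin (h : Sys L A V) {κ : ℝ} (hκ : 0 < κ)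
    (hK : ∀ w, qd (cm (fun i j => 2 * A i j) (fun k t => 2 * V k t)) w ≤ κ * ‖w‖ ^ 2)
    {f : E ι → ℝ} (hf : ContDiff ℝ 1 f)
    (hg : Integrable fun x => ‖fderiv ℝ f x‖ ^ 2 * wt A V x) :
    Integrable (fun x => f x ^ 2 * wt A V x) ∧
      (∫ x, f x ^ 2 * wt A V x) * (∫ x, wt A V x) - (∫ x, f x * wt A V x) ^ 2 ≤
        16 * κ * (∫ x, ‖fderiv ℝ f x‖ ^ 2 * wt A V x) * ∫ x, wt A V x := by
  have hfc : Continuous f := hf.continuous
  have hf2 : Continuous fun x => f x ^ 2 := hfc.pow 2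
  have hdc : Continuous fun x => ‖fderiv ℝ f x‖ ^ 2 :=
    ((hf.continuous_fderiv (by norm_num)).norm).pow 2
  have hn0 : ∀ n : ℕ, (0 : ℝ) < n + 1 := fun n => by positivity
  choose m hm using fun n : ℕ => rh_poin h hκ hK (hn0 n) hf
  have hZ := h.Zpos
  set Z := ∫ x : E ι, wt A V x with hZd
  set G := ∫ x, ‖fderiv ℝ f x‖ ^ 2 * wt A V x with hG
  have hcI : ∀ (n : ℕ) {g : E ι → ℝ}, Continuous g → Integrable fun x => g x * rh A V (n + 1) x :=
    fun n g hgc => rh_cint h (hn0 n) hgc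
  have s1 : ∀ n, ∫ x, (f x - m n) ^ 2 * rh A V (n + 1) x ≤ 16 * κ * G := by
    intro n
    refine (hm n).trans (mul_le_mul_of_nonneg_left ?_ (by positivity))
    exact integral_mono (hcI n hdc) hg fun x => mul_le_mul_of_nonneg_left (rh_le _ x) (sq_nonneg _)
  have ha0 : 0 < ∫ x : E ι, rh A V 1 x := rh_pos h one_pos
  set a0 := ∫ x : E ι, rh A V 1 x with ha0d
  set d0 := ∫ x : E ι, f x ^ 2 * rh A V 1 x with hd0
  set M := 16 * κ * G with hM
  have hi1 : ∀ {g : E ι → ℝ}, Continuous g → Integrable fun x => g x * rh A V 1 x :=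
    fun {g} hgc => rh_cint h one_pos hgc
  have s2 : ∀ n, m n ^ 2 ≤ (2 * M + 2 * d0) / a0 := by
    intro n
    rw [le_div_iff₀ ha0]
    have hsc : Continuous fun x => (f x - m n) ^ 2 := (hfc.sub continuous_const).pow 2
    have h1 : ∫ x, (f x - m n) ^ 2 * rh A V 1 x ≤ M := by
      refine le_trans (integral_mono (hi1 hsc) (hcI n hsc) fun x => ?_) (s1 n)
      exact mul_le_mul_of_nonneg_left (rh_mono (by
        have : (0 : ℝ) ≤ n := Nat.cast_nonneg n
        linarith) x) (sq_nonneg _)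
    have h2 : m n ^ 2 * a0 ≤ ∫ x, (2 * ((f x - m n) ^ 2 * rh A V 1 x) +
        2 * (f x ^ 2 * rh A V 1 x)) := by
      rw [ha0d, ← integral_const_mul]
      refine integral_mono ((rh_int h 1).const_mul _)
        (((hi1 hsc).const_mul 2).add ((hi1 hf2).const_mul 2)) fun x => ?_
      have h3 := rh_nonneg (A := A) (V := V) 1 x
      have h4 : m n ^ 2 ≤ 2 * (f x - m n) ^ 2 + 2 * f x ^ 2 := by
        nlinarith [sq_nonneg (2 * f x - m n)]
      calc m n ^ 2 * rh A V 1 x ≤ (2 * (f x - m n) ^ 2 + 2 * f x ^ 2) * rh A V 1 x :=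
            mul_le_mul_of_nonneg_right h4 h3
        _ = _ := by ring
    rw [integral_add ((hi1 hsc).const_mul 2) ((hi1 hf2).const_mul 2), integral_const_mul,
      integral_const_mul] at h2
    linarith
  set B := (2 * M + 2 * d0) / a0 with hB
  have s3 : ∀ n : ℕ, ∫ x, f x ^ 2 * rh A V (n + 1) x ≤ 2 * M + 2 * (B * Z) := by
    intro n
    have hsc : Continuous fun x => (f x - m n) ^ 2 := (hfc.sub continuous_const).pow 2
    have h2 : ∫ x, f x ^ 2 * rh A V (n + 1) x ≤
        ∫ x, (2 * ((f x - m n) ^ 2 * rh A V (n + 1) x) + 2 * (B * wt A V x)) := by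
      refine integral_mono (hcI n hf2)
        (((hcI n hsc).const_mul 2).add ((h.int.const_mul _).const_mul 2)) fun x => ?_
      have h3 := rh_nonneg (A := A) (V := V) (n + 1) x
      have h4 : f x ^ 2 ≤ 2 * (f x - m n) ^ 2 + 2 * m n ^ 2 := by
        nlinarith [sq_nonneg (f x - 2 * m n)]
      have h5 : m n ^ 2 * rh A V (n + 1) x ≤ B * wt A V x :=
        mul_le_mul (s2 n) (rh_le _ x) h3 ((sq_nonneg _).trans (s2 n))
      have h6 : f x ^ 2 * rh A V (n + 1) x ≤
          (2 * (f x - m n) ^ 2 + 2 * m n ^ 2) * rh A V (n + 1) x :=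
        mul_le_mul_of_nonneg_right h4 h3
      simp only
      linarith
    rw [integral_add ((hcI n hsc).const_mul 2) ((h.int.const_mul _).const_mul 2),
      integral_const_mul, integral_const_mul, integral_const_mul, ← hZd] at h2
    have := s1 n
    linarith
  have hfm : Measurable fun x => f x ^ 2 * wt A V x := hf2.measurable.mul h.cwt.measurable
  have i2 : Integrable fun x => f x ^ 2 * wt A V x := by
    refine ⟨hfm.aestronglyMeasurable, ?_⟩
    rw [hasFiniteIntegral_iff_ofReal (Eventually.of_forall fun x =>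
      mul_nonneg (sq_nonneg _) (wt_pos _).le)]
    have h1 : ∫⁻ x, ENNReal.ofReal (f x ^ 2 * wt A V x) ≤
        liminf (fun n : ℕ => ∫⁻ x, ENNReal.ofReal (f x ^ 2 * rh A V (n + 1) x)) atTop := by
      refine le_trans (le_of_eq ?_) (lintegral_liminf_le fun n =>
        (hf2.measurable.mul (rh_meas h _)).ennreal_ofReal)
      refine lintegral_congr fun x => ?_
      refine (Tendsto.liminf_eq ?_).symm
      refine tendsto_const_nhds.congr' ?_
      filter_upwards [rh_lim (A := A) (V := V) x] with n hn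
      rw [hn]
    refine h1.trans_lt ?_
    refine lt_of_le_of_lt (b := ENNReal.ofReal (2 * M + 2 * (B * Z))) ?_ ENNReal.ofReal_lt_top
    refine liminf_le_of_frequently_le' (Frequently.of_forall fun n => ?_)
    rw [← ofReal_integral_eq_lintegral_ofReal (hcI n hf2) (Eventually.of_forall fun x =>
      mul_nonneg (sq_nonneg _) (rh_nonneg _ x))]
    exact ENNReal.ofReal_le_ofReal (s3 n)
  refine ⟨i2, ?_⟩
  have i1 : Integrable fun x => f x * wt A V x := by
    refine (h.int.add i2).mono' (hfc.measurable.mul h.cwt.measurable).aestronglyMeasurable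
      (Eventually.of_forall fun x => ?_)
    rw [Real.norm_eq_abs, abs_mul, abs_of_pos (wt_pos x)]
    have h1 : |f x| ≤ 1 + f x ^ 2 := by
      rw [← sq_abs]
      nlinarith [sq_nonneg (|f x| - 1), abs_nonneg (f x)]
    calc |f x| * wt A V x ≤ (1 + f x ^ 2) * wt A V x :=
          mul_le_mul_of_nonneg_right h1 (wt_pos _).le
      _ = _ := by simp only [Pi.add_apply]; ring
  have t0 : Tendsto (fun n : ℕ => ∫ x : E ι, rh A V (n + 1) x) atTop (𝓝 Z) := by
    have := rh_tend h (g := fun _ => (1 : ℝ)) measurable_const (by simpa using h.int)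
    simpa using this
  have t1 := rh_tend h hfc.measurable i1
  have t2 := rh_tend h hf2.measurable i2
  have t3 := rh_tend h hdc.measurable hg
  have key : ∀ n : ℕ, (∫ x, f x ^ 2 * rh A V (n + 1) x) * (∫ x, rh A V (n + 1) x) -
      (∫ x, f x * rh A V (n + 1) x) ^ 2 ≤ 16 * κ *
        (∫ x, ‖fderiv ℝ f x‖ ^ 2 * rh A V (n + 1) x) * ∫ x, rh A V (n + 1) x := by
    intro n
    have h1 := hm n
    have han : 0 < ∫ x : E ι, rh A V (n + 1) x := rh_pos h (hn0 n)
    have e : ∀ x, (f x - m n) ^ 2 * rh A V (n + 1) x = (f x ^ 2 * rh A V (n + 1) x -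
        2 * m n * (f x * rh A V (n + 1) x)) + m n ^ 2 * rh A V (n + 1) x := by
      intro x
      ring
    simp only [e] at h1
    have j1 : Integrable fun x => 2 * m n * (f x * rh A V (n + 1) x) := (hcI n hfc).const_mul _
    have j2 : Integrable fun x => f x ^ 2 * rh A V (n + 1) x - 2 * m n * (f x * rh A V (n + 1) x) :=
      (hcI n hf2).sub j1
    rw [integral_add j2 ((rh_int h _).const_mul _), integral_sub (hcI n hf2) j1,
      integral_const_mul, integral_const_mul] at h1
    set a := ∫ x : E ι, rh A V (n + 1) x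
    set b := ∫ x : E ι, f x * rh A V (n + 1) x
    set d := ∫ x : E ι, f x ^ 2 * rh A V (n + 1) x
    set e := ∫ x : E ι, ‖fderiv ℝ f x‖ ^ 2 * rh A V (n + 1) x
    have h2 := mul_le_mul_of_nonneg_right h1 han.le
    nlinarith [sq_nonneg (b - m n * a)]
  exact le_of_tendsto_of_tendsto' ((t2.mul t0).sub (t1.pow 2)) ((t3.const_mul _).mul t0) key

end Pool.Agent.T6.H78.KF
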