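import Pool.Agent.T6.H78.KF.Flip

/-!
# Replicas: rotated coordinates and the positivity of the weights
-/

set_option autoImplicit false
set_option linter.unusedSectionVars false

namespace Pool.Agent.T6.H78.KF

open MeasureTheory Finset

theorem cv {V U : Type*} [NormedAddCommGroup V] [NormedSpace ℝ V] [FiniteDimensional ℝ V]
    [MeasurableSpace V] [BorelSpace V] [NormedAddCommGroup U] [NormedSpace ℝ U]
    [FiniteDimensional ℝ U] [MeasurableSpace U] [BorelSpace U]
    (μ : Measure V) [μ.IsAddHaarMeasure] (ν : Measure U) [ν.IsAddHaarMeasure] (T : V ≃ₗ[ℝ] U) :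
    ∃ c : ℝ, 0 < c ∧ (∀ F : U → ℝ, ∫ z, F (T z) ∂μ = c * ∫ u, F u ∂ν) ∧
      ∀ F : U → ℝ, Integrable F ν → Integrable (fun z => F (T z)) μ := by
  let T' : V ≃L[ℝ] U := T.toContinuousLinearEquiv
  have hT' : ∀ z, T' z = T z := fun z => rfl
  have h1 : (μ.map T').IsAddHaarMeasure := T'.isAddHaarMeasure_map μ
  have hc : μ.map T' = Measure.addHaarScalarFactor (μ.map T') ν • ν :=
    Measure.isAddLeftInvariant_eq_smul ..
  have hc0 : 0 < Measure.addHaarScalarFactor (μ.map T') ν :=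
    Measure.addHaarScalarFactor_pos_of_isAddHaarMeasure ..
  set c := Measure.addHaarScalarFactor (μ.map T') ν with hcd
  have hme : MeasurableEmbedding (T' : V → U) := T'.toHomeomorph.measurableEmbedding
  refine ⟨c, hc0, fun F => ?_, fun F hF => ?_⟩
  · have := hme.integral_map (μ := μ) F
    simp only [hT'] at this
    rw [← this, hc, integral_smul_nnreal_measure]
    rfl
  · have h2 : Integrable F (μ.map T') := by
      rw [hc]
      exact hF.smul_measure_nnreal
    exact (hme.integrable_map_iff.1 h2)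

variable {ι : Type} [Fintype ι]

abbrev E (ι : Type) [Fintype ι] := EuclideanSpace ℝ ι

/-- the density `exp (-∑ A i j x i x j) ∏ a k (x k)` -/
noncomputable def den (A : ι → ι → ℝ) (a : ι → ℝ → ℝ) (x : E ι) : ℝ :=
  Real.exp (-∑ i, ∑ j, A i j * (x i * x j)) * ∏ k, a k (x k)

section pd

variable {J : Type} [Fintype J]

theorem sg_cases (ε : J → ℤˣ) (j : J) : (((ε j : ℤ) : ℝ) = 1) ∨ (((ε j : ℤ) : ℝ) = -1) := by
  rcases Int.units_eq_one_or (ε j) with h | h <;> simp [h]

theorem pd_exp {t : ℝ} (ht : 0 ≤ t) (i j : J) :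
    PD (fun ε : J → ℤˣ => Real.exp (t * (((ε i : ℤ) : ℝ) * ((ε j : ℤ) : ℝ)))) := by
  have h1 : PD (fun ε : J → ℤˣ => Real.cosh t + Real.sinh t *
      (((ε i : ℤ) : ℝ) * ((ε j : ℤ) : ℝ))) :=
    (PD.const (Real.cosh_pos t).le).add
      (((PD.coord i).mul (PD.coord j)).cmul (Real.sinh_nonneg_iff.2 ht))
  refine h1.congr fun ε => ?_
  rcases sg_cases ε i with hi | hi <;> rcases sg_cases ε j with hj | hj <;> rw [hi, hj] <;>
    simp [Real.cosh_add_sinh, Real.cosh_sub_sinh, ← sub_eq_add_neg]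

theorem pd_quad {A : ι → ι → ℝ} (hA : ∀ i j, i ≠ j → A i j ≤ 0) {l : ℝ} (hl : 0 ≤ l) (k : ι → J)
    (z : J → ℝ) (hz : ∀ j, 0 ≤ z j) :
    PD (fun ε => Real.exp (-(l * ∑ i, ∑ j, A i j * (sgn ε z (k i) * sgn ε z (k j))))) := by
  have h1 : PD (fun ε : J → ℤˣ => ∏ i : ι, ∏ j : ι,
      Real.exp (-(l * (A i j * (sgn ε z (k i) * sgn ε z (k j)))))) := by
    refine PD.prod _ fun i _ => PD.prod _ fun j _ => ?_
    by_cases hij : i = j
    · subst hij
      refine (PD.const (J := J) (Real.exp_pos (-(l * (A i i * (z (k i) * z (k i)))))).le).congr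
        fun ε => ?_
      rcases sg_cases ε (k i) with h | h <;> simp [sgn, h]
    · refine (pd_exp (t := -(l * (A i j * (z (k i) * z (k j))))) ?_ (k i) (k j)).congr fun ε => ?_
      · have := hA i j hij
        have h2 := mul_nonneg (hz (k i)) (hz (k j))
        have h3 : 0 ≤ l * (-A i j * (z (k i) * z (k j))) :=
          mul_nonneg hl (mul_nonneg (by linarith) h2)
        linarith
      · congr 1
        simp only [sgn]
        ring
  refine h1.congr fun ε => ?_
  rw [Finset.mul_sum, ← Finset.sum_neg_distrib, Real.exp_sum]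
  refine Finset.prod_congr rfl fun i _ => ?_
  rw [Finset.mul_sum, ← Finset.sum_neg_distrib, Real.exp_sum]

/-- two-valued functions of signs -/
theorem pd_two {f : (J → ℤˣ) → ℝ} {P M : ℝ} (hM : 0 ≤ M) (hPM : M ≤ P) {g : (J → ℤˣ) → ℝ}
    (hg : PD g) (h : ∀ ε, (g ε = 1 ∧ f ε = P) ∨ (g ε = -1 ∧ f ε = M)) : PD f := by
  have h1 : PD (fun ε => (P + M) / 2 + (P - M) / 2 * g ε) :=
    (PD.const (by linarith)).add (hg.cmul (by linarith))
  refine h1.congr fun ε => ?_
  rcases h ε with ⟨h2, h3⟩ | ⟨h2, h3⟩ <;> rw [h2, h3] <;> ring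

end pd

/-! ### one replica -/

/-- the coordinates -/
noncomputable def T1 : (ι → ℝ) ≃ₗ[ℝ] E ι := (WithLp.linearEquiv 2 ℝ (ι → ℝ)).symm

theorem T1_apply (z : ι → ℝ) (k : ι) : (T1 z) k = z k := rfl

theorem pd_den1 {A : ι → ι → ℝ} (hA : ∀ i j, i ≠ j → A i j ≤ 0) {a : ι → ℝ → ℝ}
    (ha0 : ∀ k t, 0 ≤ a k t) (hae : ∀ k t, a k (-t) = a k t) (z : ι → ℝ) (hz : ∀ j, 0 ≤ z j) :
    PD (fun ε => den A a (T1 (sgn ε z))) := by
  have h1 := pd_quad hA zero_le_one (fun i => i) z hz
  have h2 : PD (fun ε : ι → ℤˣ => ∏ k, a k (sgn ε z k)) := by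
    refine PD.prod _ fun k _ => ?_
    refine (PD.const (J := ι) (ha0 k (z k))).congr fun ε => ?_
    rcases sg_cases ε k with h | h <;> simp [sgn, h, hae]
  refine (h1.mul h2).congr fun ε => ?_
  simp [den, T1_apply]

/-- GKS I -/
theorem gks1 {A : ι → ι → ℝ} (hA : ∀ i j, i ≠ j → A i j ≤ 0) {a : ι → ℝ → ℝ}
    (ha0 : ∀ k t, 0 ≤ a k t) (hae : ∀ k t, a k (-t) = a k t) (i j : ι) {f : ℝ → ℝ}
    (hf : ∀ t, f (-t) = -f t) (hf0 : ∀ t, 0 ≤ t → 0 ≤ f t)
    (hi : Integrable (fun x : E ι => x i * f (x j) * den A a x)) :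
    0 ≤ ∫ x : E ι, x i * f (x j) * den A a x := by
  classical
  obtain ⟨c, hc, h1, h2⟩ := cv (volume : Measure (ι → ℝ)) (volume : Measure (E ι)) T1
  have h3 := good_integral (h2 _ hi) fun z hz => by
    have k1 : PD (fun ε : ι → ℤˣ => sgn ε z i) := by
      refine ((PD.coord i).cmul (hz i)).congr fun ε => ?_
      simp [sgn, mul_comm]
    have k2 : PD (fun ε : ι → ℤˣ => f (sgn ε z j)) := by
      refine ((PD.coord j).cmul (hf0 _ (hz j))).congr fun ε => ?_
      rcases sg_cases ε j with h | h <;> simp [sgn, h, hf]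
    exact ((k1.mul k2).mul (pd_den1 hA ha0 hae z hz)).congr fun ε => by simp [T1_apply]
  rw [h1 (fun x : E ι => x i * f (x j) * den A a x)] at h3
  exact nonneg_of_mul_nonneg_right h3 hc

/-! ### two replicas -/

/-- `(α, β) ↦ (α - β, α + β)` -/
noncomputable def T2 : ((ι ⊕ ι) → ℝ) ≃ₗ[ℝ] (E ι × E ι) where
  toFun z := (WithLp.toLp 2 fun k => z (.inl k) - z (.inr k),
    WithLp.toLp 2 fun k => z (.inl k) + z (.inr k))
  map_add' x y := by
    ext k <;> simp <;> ring
  map_smul' c x := by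
    ext k <;> simp <;> ring
  invFun p := Sum.elim (fun k => (p.1 k + p.2 k) / 2) (fun k => (p.2 k - p.1 k) / 2)
  left_inv z := by
    funext k
    rcases k with k | k <;> simp <;> ring
  right_inv p := by
    ext k
    · simp
      ring
    · simp
      ring

theorem T2_fst (z : (ι ⊕ ι) → ℝ) (k : ι) : (T2 z).1 k = z (.inl k) - z (.inr k) := rfl

theorem T2_snd (z : (ι ⊕ ι) → ℝ) (k : ι) : (T2 z).2 k = z (.inl k) + z (.inr k) := rfl

/-- `b / a` does not decrease in `|t|` -/
def Dom (a b : ℝ → ℝ) : Prop := ∀ s t : ℝ, |s| ≤ |t| → a t * b s ≤ a s * b t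

theorem pd_den2 {A : ι → ι → ℝ} (hA : ∀ i j, i ≠ j → A i j ≤ 0) {a b : ι → ℝ → ℝ}
    (ha0 : ∀ k t, 0 ≤ a k t) (hae : ∀ k t, a k (-t) = a k t)
    (hb0 : ∀ k t, 0 ≤ b k t) (hbe : ∀ k t, b k (-t) = b k t) (hab : ∀ k, Dom (a k) (b k))
    (z : (ι ⊕ ι) → ℝ) (hz : ∀ j, 0 ≤ z j) :
    PD (fun ε => den A a (T2 (sgn ε z)).1 * den A b (T2 (sgn ε z)).2) := by
  have h1 := pd_quad hA zero_le_two (fun i : ι => (Sum.inl i : ι ⊕ ι)) z hz
  have h1' := pd_quad hA zero_le_two (fun i : ι => (Sum.inr i : ι ⊕ ι)) z hz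
  have h2 : PD (fun ε : (ι ⊕ ι) → ℤˣ => ∏ k, (a k ((T2 (sgn ε z)).1 k) *
      b k ((T2 (sgn ε z)).2 k))) := by
    refine PD.prod _ fun k _ => ?_
    refine pd_two (P := a k (z (.inl k) - z (.inr k)) * b k (z (.inl k) + z (.inr k)))
      (M := a k (z (.inl k) + z (.inr k)) * b k (z (.inl k) - z (.inr k)))
      (mul_nonneg (ha0 _ _) (hb0 _ _)) ?_ ((PD.coord (.inl k)).mul (PD.coord (.inr k)))
      fun ε => ?_
    · refine hab k _ _ ?_
      have h3 := hz (.inl k)
      have h4 := hz (.inr k)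
      rw [abs_le]
      constructor <;> rw [abs_of_nonneg (by linarith)] <;> linarith
    · simp only [T2_fst, T2_snd, sgn]
      rcases sg_cases ε (.inl k) with h | h <;> rcases sg_cases ε (.inr k) with h' | h' <;>
        rw [h, h']
      · left
        constructor
        · norm_num
        · simp
      · right
        constructor
        · norm_num
        · rw [show 1 * z (.inl k) - -1 * z (.inr k) = z (.inl k) + z (.inr k) by ring,
            show 1 * z (.inl k) + -1 * z (.inr k) = z (.inl k) - z (.inr k) by ring]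
      · right
        constructor
        · norm_num
        · rw [show -1 * z (.inl k) - 1 * z (.inr k) = -(z (.inl k) + z (.inr k)) by ring,
            show -1 * z (.inl k) + 1 * z (.inr k) = -(z (.inl k) - z (.inr k)) by ring, hae, hbe]
      · left
        constructor
        · norm_num
        · rw [show -1 * z (.inl k) - -1 * z (.inr k) = -(z (.inl k) - z (.inr k)) by ring,
            show -1 * z (.inl k) + -1 * z (.inr k) = -(z (.inl k) + z (.inr k)) by ring, hae, hbe]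
  refine ((h1.mul h1').mul h2).congr fun ε => ?_
  rw [Finset.prod_mul_distrib]
  simp only [den]
  have e : Real.exp (-∑ i, ∑ j, A i j * ((T2 (sgn ε z)).1 i * (T2 (sgn ε z)).1 j)) *
      Real.exp (-∑ i, ∑ j, A i j * ((T2 (sgn ε z)).2 i * (T2 (sgn ε z)).2 j)) =
      Real.exp (-(2 * ∑ i, ∑ j, A i j * (sgn ε z (.inl i) * sgn ε z (.inl j)))) *
      Real.exp (-(2 * ∑ i, ∑ j, A i j * (sgn ε z (.inr i) * sgn ε z (.inr j)))) := by
    rw [← Real.exp_add, ← Real.exp_add]
    congr 1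
    rw [← neg_add, ← neg_add, ← mul_add, ← Finset.sum_add_distrib, ← Finset.sum_add_distrib,
      Finset.mul_sum]
    congr 1
    refine Finset.sum_congr rfl fun i _ => ?_
    rw [← Finset.sum_add_distrib, ← Finset.sum_add_distrib, Finset.mul_sum]
    refine Finset.sum_congr rfl fun j _ => ?_
    simp only [T2_fst, T2_snd]
    ring
  rw [← e]
  ring

theorem pd_obs2 (z : (ι ⊕ ι) → ℝ) (hz : ∀ j, 0 ≤ z j) (u v : ι) :
    PD (fun ε => (T2 (sgn ε z)).2 u * (T2 (sgn ε z)).2 v -
      (T2 (sgn ε z)).1 u * (T2 (sgn ε z)).1 v) := by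
  have k1 : ∀ j, PD (fun ε : (ι ⊕ ι) → ℤˣ => sgn ε z j) := fun j =>
    ((PD.coord j).cmul (hz j)).congr fun ε => by simp [sgn, mul_comm]
  refine ((((k1 (.inl u)).mul (k1 (.inr v))).add ((k1 (.inr u)).mul (k1 (.inl v)))).cmul
    zero_le_two).congr fun ε => ?_
  simp only [T2_fst, T2_snd]
  ring

/-- even and nondecreasing in `|t|` -/
structure EM (g : ℝ → ℝ) : Prop where
  mono : ∀ s t : ℝ, |s| ≤ |t| → g s ≤ g t

theorem EM.even {g : ℝ → ℝ} (h : EM g) (t : ℝ) : g (-t) = g t :=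
  le_antisymm (h.mono _ _ (by simp)) (h.mono _ _ (by simp))

theorem pd_obsg (z : (ι ⊕ ι) → ℝ) (hz : ∀ j, 0 ≤ z j) (k : ι) {g : ℝ → ℝ} (hg : EM g) :
    PD (fun ε => g ((T2 (sgn ε z)).2 k) - g ((T2 (sgn ε z)).1 k)) := by
  have h3 := hz (.inl k)
  have h4 := hz (.inr k)
  have h5 : g (z (.inl k) - z (.inr k)) ≤ g (z (.inl k) + z (.inr k)) := by
    refine hg.mono _ _ ?_
    rw [abs_le]
    constructor <;> rw [abs_of_nonneg (by linarith)] <;> linarith
  refine (((PD.coord (.inl k)).mul (PD.coord (.inr k))).cmul (sub_nonneg.2 h5)).congr fun ε => ?_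
  simp only [T2_fst, T2_snd, sgn]
  rcases sg_cases ε (.inl k) with h | h <;> rcases sg_cases ε (.inr k) with h' | h' <;>
    rw [h, h']
  · simp
  · rw [show 1 * z (.inl k) - -1 * z (.inr k) = z (.inl k) + z (.inr k) by ring,
      show 1 * z (.inl k) + -1 * z (.inr k) = z (.inl k) - z (.inr k) by ring]
    ring
  · rw [show -1 * z (.inl k) - 1 * z (.inr k) = -(z (.inl k) + z (.inr k)) by ring,
      show -1 * z (.inl k) + 1 * z (.inr k) = -(z (.inl k) - z (.inr k)) by ring,
      hg.even, hg.even]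
    ring
  · rw [show -1 * z (.inl k) - -1 * z (.inr k) = -(z (.inl k) - z (.inr k)) by ring,
      show -1 * z (.inl k) + -1 * z (.inr k) = -(z (.inl k) + z (.inr k)) by ring,
      hg.even, hg.even]
    ring

/-- general two replica inequality -/
theorem rep2 {A : ι → ι → ℝ} (hA : ∀ i j, i ≠ j → A i j ≤ 0) {a b : ι → ℝ → ℝ}
    (ha0 : ∀ k t, 0 ≤ a k t) (hae : ∀ k t, a k (-t) = a k t)
    (hb0 : ∀ k t, 0 ≤ b k t) (hbe : ∀ k t, b k (-t) = b k t) (hab : ∀ k, Dom (a k) (b k))
    (O : E ι × E ι → ℝ)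
    (hO : ∀ z : (ι ⊕ ι) → ℝ, (∀ j, 0 ≤ z j) → PD (fun ε => O (T2 (sgn ε z))))
    (hi : Integrable (fun p : E ι × E ι => O p * (den A a p.1 * den A b p.2))) :
    0 ≤ ∫ p : E ι × E ι, O p * (den A a p.1 * den A b p.2) := by
  classical
  obtain ⟨c, hc, h1, h2⟩ := cv (volume : Measure ((ι ⊕ ι) → ℝ))
    ((volume : Measure (E ι)).prod (volume : Measure (E ι))) T2
  have h3 := good_integral (h2 _ hi) fun z hz =>
    (hO z hz).mul (pd_den2 hA ha0 hae hb0 hbe hab z hz)
  rw [h1 (fun p : E ι × E ι => O p * (den A a p.1 * den A b p.2))] at h3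
  exact nonneg_of_mul_nonneg_right h3 hc

/-- comparison of second moments -/
theorem cmp_uv {A : ι → ι → ℝ} (hA : ∀ i j, i ≠ j → A i j ≤ 0) {a b : ι → ℝ → ℝ}
    (ha0 : ∀ k t, 0 ≤ a k t) (hae : ∀ k t, a k (-t) = a k t)
    (hb0 : ∀ k t, 0 ≤ b k t) (hbe : ∀ k t, b k (-t) = b k t) (hab : ∀ k, Dom (a k) (b k))
    (u v : ι) (ia : Integrable (den A a)) (ib : Integrable (den A b))
    (iau : Integrable fun x : E ι => x u * x v * den A a x)
    (ibu : Integrable fun x : E ι => x u * x v * den A b x) :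
    (∫ x : E ι, x u * x v * den A a x) * ∫ x, den A b x ≤
      (∫ x, den A a x) * ∫ x : E ι, x u * x v * den A b x := by
  have i1 : Integrable (fun p : E ι × E ι => den A a p.1 * (p.2 u * p.2 v * den A b p.2)) :=
    ia.mul_prod ibu
  have i2 : Integrable (fun p : E ι × E ι => p.1 u * p.1 v * den A a p.1 * den A b p.2) :=
    iau.mul_prod ib
  have e : ∀ p : E ι × E ι, (p.2 u * p.2 v - p.1 u * p.1 v) * (den A a p.1 * den A b p.2) =
      den A a p.1 * (p.2 u * p.2 v * den A b p.2) - p.1 u * p.1 v * den A a p.1 * den A b p.2 := by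
    intro p
    ring
  have h := rep2 hA ha0 hae hb0 hbe hab (fun p => p.2 u * p.2 v - p.1 u * p.1 v)
    (fun z hz => pd_obs2 z hz u v) ((i1.sub i2).congr (Filter.Eventually.of_forall fun p =>
      (e p).symm))
  simp only [e] at h
  rw [integral_sub i1 i2, Measure.volume_eq_prod, integral_prod_mul (den A a) fun x : E ι =>
    x u * x v * den A b x, integral_prod_mul (fun x : E ι => x u * x v * den A a x) (den A b)] at h
  linarith

/-- comparison of even monotone functions of one spin -/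
theorem cmp_g {A : ι → ι → ℝ} (hA : ∀ i j, i ≠ j → A i j ≤ 0) {a b : ι → ℝ → ℝ}
    (ha0 : ∀ k t, 0 ≤ a k t) (hae : ∀ k t, a k (-t) = a k t)
    (hb0 : ∀ k t, 0 ≤ b k t) (hbe : ∀ k t, b k (-t) = b k t) (hab : ∀ k, Dom (a k) (b k))
    (j : ι) {g : ℝ → ℝ} (hg : EM g) (ia : Integrable (den A a)) (ib : Integrable (den A b))
    (iau : Integrable fun x : E ι => g (x j) * den A a x)
    (ibu : Integrable fun x : E ι => g (x j) * den A b x) :
    (∫ x : E ι, g (x j) * den A a x) * ∫ x, den A b x ≤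
      (∫ x, den A a x) * ∫ x : E ι, g (x j) * den A b x := by
  have i1 : Integrable (fun p : E ι × E ι => den A a p.1 * (g (p.2 j) * den A b p.2)) :=
    ia.mul_prod ibu
  have i2 : Integrable (fun p : E ι × E ι => g (p.1 j) * den A a p.1 * den A b p.2) :=
    iau.mul_prod ib
  have e : ∀ p : E ι × E ι, (g (p.2 j) - g (p.1 j)) * (den A a p.1 * den A b p.2) =
      den A a p.1 * (g (p.2 j) * den A b p.2) - g (p.1 j) * den A a p.1 * den A b p.2 := by
    intro p
    ring
  have h := rep2 hA ha0 hae hb0 hbe hab (fun p => g (p.2 j) - g (p.1 j))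
    (fun z hz => pd_obsg z hz j hg) ((i1.sub i2).congr (Filter.Eventually.of_forall fun p =>
      (e p).symm))
  simp only [e] at h
  rw [integral_sub i1 i2, Measure.volume_eq_prod, integral_prod_mul (den A a) fun x : E ι =>
    g (x j) * den A b x, integral_prod_mul (fun x : E ι => g (x j) * den A a x) (den A b)] at h
  linarith

theorem dom_refl (a : ℝ → ℝ) : Dom a a := fun s t _ => by
  rw [mul_comm]

/-- GKS II for `x i x j` and an even monotone function of `x j` -/
theorem gks2 {A : ι → ι → ℝ} (hA : ∀ i j, i ≠ j → A i j ≤ 0) {a : ι → ℝ → ℝ}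
    (ha0 : ∀ k t, 0 ≤ a k t) (hae : ∀ k t, a k (-t) = a k t)
    (i j : ι) {g : ℝ → ℝ} (hg : EM g) (ia : Integrable (den A a))
    (i1 : Integrable fun x : E ι => x i * x j * den A a x)
    (i2 : Integrable fun x : E ι => g (x j) * den A a x)
    (i3 : Integrable fun x : E ι => x i * x j * g (x j) * den A a x) :
    (∫ x : E ι, x i * x j * den A a x) * (∫ x : E ι, g (x j) * den A a x) ≤
      (∫ x, den A a x) * ∫ x : E ι, x i * x j * g (x j) * den A a x := by
  have e : ∀ p : E ι × E ι, (p.2 i * p.2 j - p.1 i * p.1 j) * (g (p.2 j) - g (p.1 j)) *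
      (den A a p.1 * den A a p.2) =
      (den A a p.1 * (p.2 i * p.2 j * g (p.2 j) * den A a p.2) +
      p.1 i * p.1 j * g (p.1 j) * den A a p.1 * den A a p.2) -
      (p.1 i * p.1 j * den A a p.1 * (g (p.2 j) * den A a p.2) +
      g (p.1 j) * den A a p.1 * (p.2 i * p.2 j * den A a p.2)) := by
    intro p
    ring
  have j1 : Integrable (fun p : E ι × E ι => den A a p.1 *
      (p.2 i * p.2 j * g (p.2 j) * den A a p.2)) := ia.mul_prod i3
  have j2 : Integrable (fun p : E ι × E ι => p.1 i * p.1 j * g (p.1 j) * den A a p.1 *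
      den A a p.2) := i3.mul_prod ia
  have j3 : Integrable (fun p : E ι × E ι => p.1 i * p.1 j * den A a p.1 *
      (g (p.2 j) * den A a p.2)) := i1.mul_prod i2
  have j4 : Integrable (fun p : E ι × E ι => g (p.1 j) * den A a p.1 *
      (p.2 i * p.2 j * den A a p.2)) := i2.mul_prod i1
  have j5 : Integrable (fun p : E ι × E ι => den A a p.1 *
      (p.2 i * p.2 j * g (p.2 j) * den A a p.2) +
      p.1 i * p.1 j * g (p.1 j) * den A a p.1 * den A a p.2) := j1.add j2
  have j6 : Integrable (fun p : E ι × E ι => p.1 i * p.1 j * den A a p.1 *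
      (g (p.2 j) * den A a p.2) +
      g (p.1 j) * den A a p.1 * (p.2 i * p.2 j * den A a p.2)) := j3.add j4
  have h := rep2 hA ha0 hae ha0 hae (fun k => dom_refl _)
    (fun p => (p.2 i * p.2 j - p.1 i * p.1 j) * (g (p.2 j) - g (p.1 j)))
    (fun z hz => (pd_obs2 z hz i j).mul (pd_obsg z hz j hg))
    ((j5.sub j6).congr (Filter.Eventually.of_forall fun p => (e p).symm))
  simp only [e] at h
  rw [integral_sub j5 j6, integral_add j1 j2, integral_add j3 j4,
    Measure.volume_eq_prod,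
    integral_prod_mul (den A a) fun x : E ι => x i * x j * g (x j) * den A a x,
    integral_prod_mul (fun x : E ι => x i * x j * g (x j) * den A a x) (den A a),
    integral_prod_mul (fun x : E ι => x i * x j * den A a x) fun x : E ι => g (x j) * den A a x,
    integral_prod_mul (fun x : E ι => g (x j) * den A a x) fun x : E ι => x i * x j * den A a x] at h
  linarith

end Pool.Agent.T6.H78.KF
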