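import Pool.Agent.T6.H78.KF.Rep

/-!
# Four replicas: the Lebowitz type inequality for Ellis-Monroe-Newman weights
-/

set_option autoImplicit false
set_option linter.unusedSectionVars false
set_option linter.unreachableTactic false
set_option linter.unusedTactic false
set_option linter.unusedSimpArgs false

namespace Pool.Agent.T6.H78.KF

open MeasureTheory Finset

variable {ι : Type} [Fintype ι]

/-- index type of the rotated four replica system -/
abbrev J4 (ι : Type) := (ι ⊕ ι) ⊕ (ι ⊕ ι)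

noncomputable def T4 : (J4 ι → ℝ) ≃ₗ[ℝ] ((E ι × E ι) × (E ι × E ι)) where
  toFun z := ((WithLp.toLp 2 fun k =>
      z (.inl (.inl k)) + z (.inl (.inr k)) + z (.inr (.inl k)) - z (.inr (.inr k)),
    WithLp.toLp 2 fun k =>
      z (.inl (.inl k)) + z (.inl (.inr k)) - z (.inr (.inl k)) + z (.inr (.inr k))),
    (WithLp.toLp 2 fun k =>
      z (.inl (.inl k)) - z (.inl (.inr k)) + z (.inr (.inl k)) + z (.inr (.inr k)),
    WithLp.toLp 2 fun k =>
      z (.inl (.inl k)) - z (.inl (.inr k)) - z (.inr (.inl k)) - z (.inr (.inr k))))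
  map_add' x y := by
    ext k <;> simp <;> ring
  map_smul' c x := by
    ext k <;> simp <;> ring
  invFun p := Sum.elim
    (Sum.elim (fun k => (p.1.1 k + p.1.2 k + p.2.1 k + p.2.2 k) / 4)
      (fun k => (p.1.1 k + p.1.2 k - p.2.1 k - p.2.2 k) / 4))
    (Sum.elim (fun k => (p.1.1 k - p.1.2 k + p.2.1 k - p.2.2 k) / 4)
      (fun k => (-p.1.1 k + p.1.2 k + p.2.1 k - p.2.2 k) / 4))
  left_inv z := by
    funext k
    rcases k with (k | k) | (k | k) <;> simp <;> ring
  right_inv p := by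
    ext k <;> simp <;> ring

theorem T4_x (z : J4 ι → ℝ) (k : ι) : (T4 z).1.1 k =
    z (.inl (.inl k)) + z (.inl (.inr k)) + z (.inr (.inl k)) - z (.inr (.inr k)) := rfl

theorem T4_y (z : J4 ι → ℝ) (k : ι) : (T4 z).1.2 k =
    z (.inl (.inl k)) + z (.inl (.inr k)) - z (.inr (.inl k)) + z (.inr (.inr k)) := rfl

theorem T4_x' (z : J4 ι → ℝ) (k : ι) : (T4 z).2.1 k =
    z (.inl (.inl k)) - z (.inl (.inr k)) + z (.inr (.inl k)) + z (.inr (.inr k)) := rfl

theorem T4_y' (z : J4 ι → ℝ) (k : ι) : (T4 z).2.2 k =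
    z (.inl (.inl k)) - z (.inl (.inr k)) - z (.inr (.inl k)) - z (.inr (.inr k)) := rfl

/-- the Ellis-Monroe-Newman inequality for a single spin weight -/
def SM (e : ℝ → ℝ) : Prop := ∀ p q u w : ℝ, |q| ≤ |p| → |w| ≤ |u| →
  e (p + u) * e (p - u) * (e (q + w) * e (q - w)) ≤ e (p + w) * e (p - w) * (e (q + u) * e (q - u))

theorem pd_site4 {e : ℝ → ℝ} (h0 : ∀ t, 0 ≤ e t) (he : ∀ t, e (-t) = e t) (hs : SM e)
    (z : J4 ι → ℝ) (hz : ∀ j, 0 ≤ z j) (k : ι) :
    PD (fun ε : J4 ι → ℤˣ => e ((T4 (sgn ε z)).1.1 k) * e ((T4 (sgn ε z)).1.2 k) *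
      (e ((T4 (sgn ε z)).2.1 k) * e ((T4 (sgn ε z)).2.2 k))) := by
  obtain ⟨A, hA⟩ : ∃ A, A = z (.inl (.inl k)) := ⟨_, rfl⟩
  obtain ⟨B, hB⟩ : ∃ B, B = z (.inl (.inr k)) := ⟨_, rfl⟩
  obtain ⟨C, hC⟩ : ∃ C, C = z (.inr (.inl k)) := ⟨_, rfl⟩
  obtain ⟨D, hD⟩ : ∃ D, D = z (.inr (.inr k)) := ⟨_, rfl⟩
  have hA0 : 0 ≤ A := hA ▸ hz _
  have hB0 : 0 ≤ B := hB ▸ hz _
  have hC0 : 0 ≤ C := hC ▸ hz _
  have hD0 : 0 ≤ D := hD ▸ hz _
  refine pd_two
    (P := e ((A + B) + (C - D)) * e ((A + B) - (C - D)) * (e ((A - B) + (C + D)) *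
      e ((A - B) - (C + D))))
    (M := e ((A + B) + (C + D)) * e ((A + B) - (C + D)) * (e ((A - B) + (C - D)) *
      e ((A - B) - (C - D))))
    (mul_nonneg (mul_nonneg (h0 _) (h0 _)) (mul_nonneg (h0 _) (h0 _))) ?_
    (((PD.coord (.inl (.inl k))).mul (PD.coord (.inl (.inr k)))).mul
      ((PD.coord (.inr (.inl k))).mul (PD.coord (.inr (.inr k))))) fun ε => ?_
  · refine hs _ _ _ _ ?_ ?_
    · rw [abs_le]
      constructor <;> rw [abs_of_nonneg (by linarith)] <;> linarith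
    · rw [abs_le]
      constructor <;> rw [abs_of_nonneg (by linarith)] <;> linarith
  · simp only [T4_x, T4_y, T4_x', T4_y', sgn, ← hA, ← hB, ← hC, ← hD]
    have s1 : e (A + B + C + D) = e (-A - B - C - D) := by rw [← he]; congr 1; ring
    have s2 : e (A + B + C - D) = e (-A - B - C + D) := by rw [← he]; congr 1; ring
    have s3 : e (A + B - C + D) = e (-A - B + C - D) := by rw [← he]; congr 1; ring
    have s4 : e (A - B + C + D) = e (-A + B - C - D) := by rw [← he]; congr 1; ring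
    have s5 : e (-A + B + C + D) = e (A - B - C - D) := by rw [← he]; congr 1; ring
    have s6 : e (A + B - C - D) = e (-A - B + C + D) := by rw [← he]; congr 1; ring
    have s7 : e (A - B + C - D) = e (-A + B - C + D) := by rw [← he]; congr 1; ring
    have s8 : e (A - B - C + D) = e (-A + B + C - D) := by rw [← he]; congr 1; ring
    rcases sg_cases ε (.inl (.inl k)) with h1 | h1 <;>
    rcases sg_cases ε (.inl (.inr k)) with h2 | h2 <;>
    rcases sg_cases ε (.inr (.inl k)) with h3 | h3 <;>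
    rcases sg_cases ε (.inr (.inr k)) with h4 | h4 <;> rw [h1, h2, h3, h4] <;>
    first
    | (left; constructor
       · norm_num; done
       · first
         | (ring_nf; done)
         | (ring_nf at s1 s2 s3 s4 s5 s6 s7 s8 ⊢
            simp only [s1, s2, s3, s4, s5, s6, s7, s8]; done)
         | (ring_nf at s1 s2 s3 s4 s5 s6 s7 s8 ⊢
            simp only [s1, s2, s3, s4, s5, s6, s7, s8]
            ring))
    | (right; constructor
       · norm_num; done
       · first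
         | (ring_nf; done)
         | (ring_nf at s1 s2 s3 s4 s5 s6 s7 s8 ⊢
            simp only [s1, s2, s3, s4, s5, s6, s7, s8]; done)
         | (ring_nf at s1 s2 s3 s4 s5 s6 s7 s8 ⊢
            simp only [s1, s2, s3, s4, s5, s6, s7, s8]
            ring))

theorem pd_den4 {B : ι → ι → ℝ} (hB : ∀ i j, i ≠ j → B i j ≤ 0) {e : ι → ℝ → ℝ}
    (h0 : ∀ k t, 0 ≤ e k t) (he : ∀ k t, e k (-t) = e k t) (hs : ∀ k, SM (e k))
    (z : J4 ι → ℝ) (hz : ∀ j, 0 ≤ z j) :
    PD (fun ε : J4 ι → ℤˣ => den B e (T4 (sgn ε z)).1.1 * den B e (T4 (sgn ε z)).1.2 *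
      (den B e (T4 (sgn ε z)).2.1 * den B e (T4 (sgn ε z)).2.2)) := by
  have h1 := pd_quad hB (l := 4) (by norm_num) (fun i : ι => (Sum.inl (Sum.inl i) : J4 ι)) z hz
  have h2 := pd_quad hB (l := 4) (by norm_num) (fun i : ι => (Sum.inl (Sum.inr i) : J4 ι)) z hz
  have h3 := pd_quad hB (l := 4) (by norm_num) (fun i : ι => (Sum.inr (Sum.inl i) : J4 ι)) z hz
  have h4 := pd_quad hB (l := 4) (by norm_num) (fun i : ι => (Sum.inr (Sum.inr i) : J4 ι)) z hz
  have h5 := PD.prod Finset.univ fun k _ => pd_site4 (h0 k) (he k) (hs k) z hz k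
  refine (((h1.mul h2).mul (h3.mul h4)).mul h5).congr fun ε => ?_
  have e1 : Real.exp (-∑ i, ∑ j, B i j * ((T4 (sgn ε z)).1.1 i * (T4 (sgn ε z)).1.1 j)) *
      Real.exp (-∑ i, ∑ j, B i j * ((T4 (sgn ε z)).1.2 i * (T4 (sgn ε z)).1.2 j)) *
      (Real.exp (-∑ i, ∑ j, B i j * ((T4 (sgn ε z)).2.1 i * (T4 (sgn ε z)).2.1 j)) *
      Real.exp (-∑ i, ∑ j, B i j * ((T4 (sgn ε z)).2.2 i * (T4 (sgn ε z)).2.2 j))) =
      Real.exp (-(4 * ∑ i, ∑ j, B i j *
        (sgn ε z (.inl (.inl i)) * sgn ε z (.inl (.inl j))))) *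
      Real.exp (-(4 * ∑ i, ∑ j, B i j *
        (sgn ε z (.inl (.inr i)) * sgn ε z (.inl (.inr j))))) *
      (Real.exp (-(4 * ∑ i, ∑ j, B i j *
        (sgn ε z (.inr (.inl i)) * sgn ε z (.inr (.inl j))))) *
      Real.exp (-(4 * ∑ i, ∑ j, B i j *
        (sgn ε z (.inr (.inr i)) * sgn ε z (.inr (.inr j)))))) := by
    rw [← Real.exp_add, ← Real.exp_add, ← Real.exp_add, ← Real.exp_add, ← Real.exp_add,
      ← Real.exp_add]
    congr 1
    simp only [Finset.mul_sum, ← Finset.sum_neg_distrib, ← Finset.sum_add_distrib]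
    refine Finset.sum_congr rfl fun i _ => Finset.sum_congr rfl fun j _ => ?_
    simp only [T4_x, T4_y, T4_x', T4_y']
    ring
  rw [← e1]
  simp only [den, Finset.prod_mul_distrib]
  ring

/-- general four replica inequality -/
theorem rep4 {B : ι → ι → ℝ} (hB : ∀ i j, i ≠ j → B i j ≤ 0) {e : ι → ℝ → ℝ}
    (h0 : ∀ k t, 0 ≤ e k t) (he : ∀ k t, e k (-t) = e k t) (hs : ∀ k, SM (e k))
    (O : (E ι × E ι) × (E ι × E ι) → ℝ)
    (hO : ∀ z : J4 ι → ℝ, (∀ j, 0 ≤ z j) → PD (fun ε => O (T4 (sgn ε z))))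
    (hi : Integrable (fun p : (E ι × E ι) × (E ι × E ι) => O p *
      (den B e p.1.1 * den B e p.1.2 * (den B e p.2.1 * den B e p.2.2)))) :
    0 ≤ ∫ p : (E ι × E ι) × (E ι × E ι), O p *
      (den B e p.1.1 * den B e p.1.2 * (den B e p.2.1 * den B e p.2.2)) := by
  classical
  haveI hh : ((volume : Measure (E ι)).prod (volume : Measure (E ι))).IsAddHaarMeasure :=
    inferInstance
  haveI hh' : (((volume : Measure (E ι)).prod (volume : Measure (E ι))).prod
      ((volume : Measure (E ι)).prod (volume : Measure (E ι)))).IsAddHaarMeasure :=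
    Measure.prod.instIsAddHaarMeasure _ _
  obtain ⟨c, hc, h1, h2⟩ := cv (volume : Measure (J4 ι → ℝ))
    (((volume : Measure (E ι)).prod (volume : Measure (E ι))).prod
      ((volume : Measure (E ι)).prod (volume : Measure (E ι)))) T4
  have h3 := good_integral (h2 _ hi) fun z hz => (hO z hz).mul (pd_den4 hB h0 he hs z hz)
  rw [h1 (fun p : (E ι × E ι) × (E ι × E ι) => O p *
    (den B e p.1.1 * den B e p.1.2 * (den B e p.2.1 * den B e p.2.2)))] at h3
  exact nonneg_of_mul_nonneg_right h3 hc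

/-- **Lebowitz type inequality**: sums and differences of two replicas are negatively correlated -/
theorem leb {B : ι → ι → ℝ} (hB : ∀ i j, i ≠ j → B i j ≤ 0) {e : ι → ℝ → ℝ}
    (h0 : ∀ k t, 0 ≤ e k t) (he : ∀ k t, e k (-t) = e k t) (hs : ∀ k, SM (e k)) (i j : ι)
    {g : ℝ → ℝ} (hg : EM g)
    (i0 : Integrable fun p : E ι × E ι => den B e p.1 * den B e p.2)
    (i1 : Integrable fun p : E ι × E ι => (p.1 i + p.2 i) * (p.1 j + p.2 j) *
      (den B e p.1 * den B e p.2))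
    (i2 : Integrable fun p : E ι × E ι => g ((p.1 j - p.2 j) / 2) * (den B e p.1 * den B e p.2))
    (i3 : Integrable fun p : E ι × E ι => (p.1 i + p.2 i) * (p.1 j + p.2 j) *
      g ((p.1 j - p.2 j) / 2) * (den B e p.1 * den B e p.2)) :
    (∫ p : E ι × E ι, (p.1 i + p.2 i) * (p.1 j + p.2 j) *
      g ((p.1 j - p.2 j) / 2) * (den B e p.1 * den B e p.2)) *
      ∫ p : E ι × E ι, den B e p.1 * den B e p.2 ≤
    (∫ p : E ι × E ι, (p.1 i + p.2 i) * (p.1 j + p.2 j) * (den B e p.1 * den B e p.2)) *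
      ∫ p : E ι × E ι, g ((p.1 j - p.2 j) / 2) * (den B e p.1 * den B e p.2) := by
  have k1 : ∀ z : J4 ι → ℝ, (∀ j, 0 ≤ z j) → ∀ j, PD (fun ε : J4 ι → ℤˣ => sgn ε z j) :=
    fun z hz j => ((PD.coord j).cmul (hz j)).congr fun ε => by simp [sgn, mul_comm]
  have hO : ∀ z : J4 ι → ℝ, (∀ j, 0 ≤ z j) → PD (fun ε =>
      ((((T4 (sgn ε z)).1.1 i + (T4 (sgn ε z)).1.2 i) * ((T4 (sgn ε z)).1.1 j +
        (T4 (sgn ε z)).1.2 j) - ((T4 (sgn ε z)).2.1 i + (T4 (sgn ε z)).2.2 i) *
        ((T4 (sgn ε z)).2.1 j + (T4 (sgn ε z)).2.2 j)) *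
      (g (((T4 (sgn ε z)).2.1 j - (T4 (sgn ε z)).2.2 j) / 2) -
        g (((T4 (sgn ε z)).1.1 j - (T4 (sgn ε z)).1.2 j) / 2)))) := by
    intro z hz
    have p1 : PD (fun ε => (((T4 (sgn ε z)).1.1 i + (T4 (sgn ε z)).1.2 i) *
        ((T4 (sgn ε z)).1.1 j + (T4 (sgn ε z)).1.2 j) -
        ((T4 (sgn ε z)).2.1 i + (T4 (sgn ε z)).2.2 i) *
        ((T4 (sgn ε z)).2.1 j + (T4 (sgn ε z)).2.2 j))) := by
      refine ((((k1 z hz (.inl (.inl i))).mul (k1 z hz (.inl (.inr j)))).add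
        ((k1 z hz (.inl (.inr i))).mul (k1 z hz (.inl (.inl j))))).cmul
        (c := 8) (by norm_num)).congr fun ε => ?_
      simp only [T4_x, T4_y, T4_x', T4_y']
      ring
    have h3 := hz (.inr (.inl j))
    have h4 := hz (.inr (.inr j))
    have h5 : g (z (.inr (.inl j)) - z (.inr (.inr j))) ≤
        g (z (.inr (.inl j)) + z (.inr (.inr j))) := by
      refine hg.mono _ _ ?_
      rw [abs_le]
      constructor <;> rw [abs_of_nonneg (by linarith)] <;> linarith
    have p2 : PD (fun ε => (g (((T4 (sgn ε z)).2.1 j - (T4 (sgn ε z)).2.2 j) / 2) -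
        g (((T4 (sgn ε z)).1.1 j - (T4 (sgn ε z)).1.2 j) / 2))) := by
      refine (((PD.coord (.inr (.inl j))).mul (PD.coord (.inr (.inr j)))).cmul
        (sub_nonneg.2 h5)).congr fun ε => ?_
      simp only [T4_x, T4_y, T4_x', T4_y']
      have e1 : (sgn ε z (.inl (.inl j)) - sgn ε z (.inl (.inr j)) + sgn ε z (.inr (.inl j)) +
          sgn ε z (.inr (.inr j)) - (sgn ε z (.inl (.inl j)) - sgn ε z (.inl (.inr j)) -
          sgn ε z (.inr (.inl j)) - sgn ε z (.inr (.inr j)))) / 2 =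
          sgn ε z (.inr (.inl j)) + sgn ε z (.inr (.inr j)) := by ring
      have e2 : (sgn ε z (.inl (.inl j)) + sgn ε z (.inl (.inr j)) + sgn ε z (.inr (.inl j)) -
          sgn ε z (.inr (.inr j)) - (sgn ε z (.inl (.inl j)) + sgn ε z (.inl (.inr j)) -
          sgn ε z (.inr (.inl j)) + sgn ε z (.inr (.inr j)))) / 2 =
          sgn ε z (.inr (.inl j)) - sgn ε z (.inr (.inr j)) := by ring
      rw [e1, e2]
      simp only [sgn]
      rcases sg_cases ε (.inr (.inl j)) with h | h <;>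
      rcases sg_cases ε (.inr (.inr j)) with h' | h' <;> rw [h, h']
      · simp
      · rw [show 1 * z (.inr (.inl j)) - -1 * z (.inr (.inr j)) =
            z (.inr (.inl j)) + z (.inr (.inr j)) by ring,
          show 1 * z (.inr (.inl j)) + -1 * z (.inr (.inr j)) =
            z (.inr (.inl j)) - z (.inr (.inr j)) by ring]
        ring
      · rw [show -1 * z (.inr (.inl j)) - 1 * z (.inr (.inr j)) =
            -(z (.inr (.inl j)) + z (.inr (.inr j))) by ring,
          show -1 * z (.inr (.inl j)) + 1 * z (.inr (.inr j)) =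
            -(z (.inr (.inl j)) - z (.inr (.inr j))) by ring, hg.even, hg.even]
        ring
      · rw [show -1 * z (.inr (.inl j)) - -1 * z (.inr (.inr j)) =
            -(z (.inr (.inl j)) - z (.inr (.inr j))) by ring,
          show -1 * z (.inr (.inl j)) + -1 * z (.inr (.inr j)) =
            -(z (.inr (.inl j)) + z (.inr (.inr j))) by ring, hg.even, hg.even]
        ring
    exact p1.mul p2
  let W : E ι × E ι → ℝ := fun p => den B e p.1 * den B e p.2
  let P : E ι × E ι → ℝ := fun p => (p.1 i + p.2 i) * (p.1 j + p.2 j)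
  let G : E ι × E ι → ℝ := fun p => g ((p.1 j - p.2 j) / 2)
  have i0' : Integrable W := i0
  have i1' : Integrable fun p => P p * W p := i1
  have i2' : Integrable fun p => G p * W p := i2
  have i3' : Integrable fun p => P p * G p * W p := i3
  have ee : ∀ p : (E ι × E ι) × (E ι × E ι), (P p.1 - P p.2) * (G p.2 - G p.1) *
      (W p.1 * W p.2) = ((P p.1 * W p.1) * (G p.2 * W p.2) + (G p.1 * W p.1) * (P p.2 * W p.2)) -
      ((P p.1 * G p.1 * W p.1) * W p.2 + W p.1 * (P p.2 * G p.2 * W p.2)) := by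
    intro p
    ring
  have j1 : Integrable (fun p : (E ι × E ι) × (E ι × E ι) => (P p.1 * W p.1) *
    (G p.2 * W p.2)) := i1'.mul_prod i2'
  have j2 : Integrable (fun p : (E ι × E ι) × (E ι × E ι) => (G p.1 * W p.1) *
    (P p.2 * W p.2)) := i2'.mul_prod i1'
  have j3 : Integrable (fun p : (E ι × E ι) × (E ι × E ι) => (P p.1 * G p.1 * W p.1) *
    W p.2) := i3'.mul_prod i0'
  have j4 : Integrable (fun p : (E ι × E ι) × (E ι × E ι) => W p.1 *
    (P p.2 * G p.2 * W p.2)) := i0'.mul_prod i3'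
  have j5 : Integrable (fun p : (E ι × E ι) × (E ι × E ι) => (P p.1 * W p.1) *
    (G p.2 * W p.2) + (G p.1 * W p.1) * (P p.2 * W p.2)) := j1.add j2
  have j6 : Integrable (fun p : (E ι × E ι) × (E ι × E ι) => (P p.1 * G p.1 * W p.1) *
    W p.2 + W p.1 * (P p.2 * G p.2 * W p.2)) := j3.add j4
  have h := rep4 hB h0 he hs (fun p => (P p.1 - P p.2) * (G p.2 - G p.1)) hO
    ((j5.sub j6).congr (Filter.Eventually.of_forall fun p => (ee p).symm))
  have h' : 0 ≤ ∫ p : (E ι × E ι) × (E ι × E ι), (P p.1 - P p.2) * (G p.2 - G p.1) *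
      (W p.1 * W p.2) := h
  simp only [ee] at h'
  rw [integral_sub j5 j6, integral_add j1 j2, integral_add j3 j4, Measure.volume_eq_prod,
    integral_prod_mul (fun p => P p * W p) fun p => G p * W p,
    integral_prod_mul (fun p => G p * W p) fun p => P p * W p,
    integral_prod_mul (fun p => P p * G p * W p) W,
    integral_prod_mul W fun p => P p * G p * W p] at h'
  have h6 : (∫ p, P p * G p * W p) * (∫ p, W p) ≤ (∫ p, P p * W p) * ∫ p, G p * W p := by
    linarith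
  exact h6

end Pool.Agent.T6.H78.KF
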