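import Pool.Agent.T6.H78.KF.Tilt
import Pool.Agent.Y506.KS.Crit

/-!
# Poincare inequality for the cut off density
-/

set_option autoImplicit false
set_option linter.unusedSectionVars false

namespace Pool.Agent.T6.H78.KF

open MeasureTheory Finset Set Filter Topology
open scoped InnerProductSpace
open Pool.Agent.H212R2.KLS (mu Bdd)
open Pool.Agent.H888R2.KT (LC pst zz)
open Pool.Agent.Y506.KS (PC)

variable {ι : Type} [Fintype ι] {L : ℝ} {A : ι → ι → ℝ} {V : ι → ℝ → ℝ}

/-- cut-off -/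
noncomputable def ch (R t : ℝ) : ℝ := if |t| ≤ R then 1 else 0

theorem ch_cut (R : ℝ) : Cut (ch R) := cut_ind R

/-- the indicator of the cube -/
noncomputable def pc (R : ℝ) (x : E ι) : ℝ := ∏ k, ch R (x k)

theorem pc_nonneg (R : ℝ) (x : E ι) : 0 ≤ pc R x :=
  Finset.prod_nonneg fun _ _ => (ch_cut R).nonneg _

theorem pc_le_one (R : ℝ) (x : E ι) : pc R x ≤ 1 :=
  Finset.prod_le_one (fun _ _ => (ch_cut R).nonneg _) fun _ _ => (ch_cut R).le_one _

theorem pc_one {R : ℝ} {x : E ι} (h : ∀ k, |x k| ≤ R) : pc R x = 1 :=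
  Finset.prod_eq_one fun k _ => by rw [ch, if_pos (h k)]

theorem pc_zero {R : ℝ} {x : E ι} {k : ι} (h : R < |x k|) : pc R x = 0 :=
  Finset.prod_eq_zero (Finset.mem_univ k) (by rw [ch, if_neg (not_le.2 h)])

theorem pc_mono {R S : ℝ} (h : R ≤ S) (x : E ι) : pc R x ≤ pc S x := by
  by_cases hx : ∀ k, |x k| ≤ R
  · rw [pc_one hx, pc_one fun k => (hx k).trans h]
  · push Not at hx
    obtain ⟨k, hk⟩ := hx
    rw [pc_zero hk]
    exact pc_nonneg _ _

theorem pc_meas (R : ℝ) : Measurable (pc R : E ι → ℝ) :=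
  Finset.measurable_prod _ fun k _ => (ch_cut R).meas.comp (by fun_prop)

/-- the cut off density -/
noncomputable def rh (A : ι → ι → ℝ) (V : ι → ℝ → ℝ) (R : ℝ) (x : E ι) : ℝ := wt A V x * pc R x

theorem rh_nonneg (R : ℝ) (x : E ι) : 0 ≤ rh A V R x := mul_nonneg (wt_pos _).le (pc_nonneg _ _)

theorem rh_le (R : ℝ) (x : E ι) : rh A V R x ≤ wt A V x :=
  mul_le_of_le_one_right (wt_pos _).le (pc_le_one _ _)

theorem rh_meas (h : Sys L A V) (R : ℝ) : Measurable (rh A V R) := h.cwt.measurable.mul (pc_meas R)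

theorem rh_int (h : Sys L A V) (R : ℝ) : Integrable (rh A V R) :=
  h.int.mono' (rh_meas h R).aestronglyMeasurable (Eventually.of_forall fun x => by
    rw [Real.norm_eq_abs, abs_of_nonneg (rh_nonneg R x)]
    exact rh_le R x)

theorem rh_LC (h : Sys L A V) {R : ℝ} (hR : 0 < R) : LC (rh A V R) := by
  refine ⟨rh_nonneg R, rh_meas h R, ?_, ?_, ?_, ?_⟩
  · intro x y t ht0 ht1
    have ht1' : 0 < 1 - t := by linarith
    by_cases hx : ∀ k, |x k| ≤ R
    · by_cases hy : ∀ k, |y k| ≤ R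
      · have hz : ∀ k, |((1 - t) • x + t • y) k| ≤ R := by
          intro k
          simp only [PiLp.add_apply, PiLp.smul_apply, smul_eq_mul]
          calc |(1 - t) * x k + t * y k| ≤ |(1 - t) * x k| + |t * y k| := abs_add_le _ _
            _ = (1 - t) * |x k| + t * |y k| := by
                rw [abs_mul, abs_mul, abs_of_pos ht1', abs_of_pos ht0]
            _ ≤ (1 - t) * R + t * R := add_le_add
                (mul_le_mul_of_nonneg_left (hx k) ht1'.le) (mul_le_mul_of_nonneg_left (hy k) ht0.le)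
            _ = R := by ring
        rw [rh, rh, rh, pc_one hx, pc_one hy, pc_one hz, mul_one, mul_one, mul_one, wt, wt, wt,
          ← Real.exp_mul, ← Real.exp_mul, ← Real.exp_add]
        refine Real.exp_le_exp.2 ?_
        have := h.convex.2 (mem_univ x) (mem_univ y) ht1'.le ht0.le (by ring)
        simp only [smul_eq_mul] at this
        linarith
      · push Not at hy
        obtain ⟨k, hk⟩ := hy
        rw [show rh A V R y = 0 by rw [rh, pc_zero hk, mul_zero], Real.zero_rpow ht0.ne', mul_zero]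
        exact rh_nonneg _ _
    · push Not at hx
      obtain ⟨k, hk⟩ := hx
      rw [show rh A V R x = 0 by rw [rh, pc_zero hk, mul_zero], Real.zero_rpow ht1'.ne', zero_mul]
      exact rh_nonneg _ _
  · refine ⟨Fintype.card ι * R ^ 2 + 1, fun x hx => ?_⟩
    by_contra hne
    have hx' : ∀ k, |x k| ≤ R := by
      by_contra hcon
      push Not at hcon
      obtain ⟨k, hk⟩ := hcon
      exact hne (by rw [rh, pc_zero hk, mul_zero])
    have h1 : ‖x‖ ^ 2 ≤ Fintype.card ι * R ^ 2 := by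
      rw [nsq]
      calc ∑ k, x k ^ 2 ≤ ∑ _k : ι, R ^ 2 := Finset.sum_le_sum fun k _ => by
            rw [← sq_abs]
            exact pow_le_pow_left₀ (abs_nonneg _) (hx' k) 2
        _ = _ := by simp
    have h2 : 0 ≤ (Fintype.card ι : ℝ) * R ^ 2 := by positivity
    nlinarith
  · unfold mu
    rw [withDensity_apply _ MeasurableSet.univ, Measure.restrict_univ]
    exact (rh_int h R).lintegral_lt_top.ne
  · intro h0
    have h1 := withDensity_eq_zero (rh_meas h R).ennreal_ofReal.aemeasurable h0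
    have h2 : (volume : Measure (E ι)) (Metric.ball 0 R) = 0 := by
      refine measure_mono_null (fun x hx => ?_) (ae_iff.1 h1)
      have hx1 : ‖x‖ < R := by simpa using hx
      have hx2 : ∀ k, |x k| ≤ R := fun k => (abs_coord_le x k).trans hx1.le
      simp only [Set.mem_ofPred_eq, Pi.zero_apply, ENNReal.ofReal_eq_zero, not_le]
      rw [rh, pc_one hx2, mul_one]
      exact wt_pos _
    exact (Metric.measure_ball_pos volume (0 : E ι) hR).ne' h2

theorem rh_tl (τ R : ℝ) (y x : E ι) :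
    tl A V τ (ch R) y x = Real.exp (-(τ * ‖x - y‖ ^ 2)) * rh A V R x := by
  simp only [tl, rh, pc]
  ring

theorem rh_PC (h : Sys L A V) {κ : ℝ} (hκ : 0 < κ)
    (hK : ∀ w, qd (cm (fun i j => 2 * A i j) (fun k t => 2 * V k t)) w ≤ κ * ‖w‖ ^ 2)
    {R : ℝ} (hR : 0 < R) : PC (rh A V R) (8 * κ) := by
  intro y w
  have hLC := rh_LC h hR
  have h8 : 0 < 8 * κ := by positivity
  have key := tilt_var h hK (ch_cut R) (τ := 1 / (2 * (8 * κ))) (by positivity) y w
  have hZ := (Pool.Agent.H888R2.KT.zz_pos hLC (8 * κ) h8 y).1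
  have em : ∀ g : E ι → ℝ, ∫ x, g x ∂(mu (rh A V R)) = ∫ x, g x * rh A V R x := fun g =>
    Pool.Agent.H888R2.KT.N2x.int_mu hLC.nonneg hLC.meas g
  have e0 : ∀ x : E ι, Real.exp (-(‖x - y‖ ^ 2 / (2 * (8 * κ)))) * rh A V R x =
      tl A V (1 / (2 * (8 * κ))) (ch R) y x := by
    intro x
    rw [rh_tl]
    congr 3
    ring
  have e1 : ∀ (g : E ι → ℝ) (x : E ι),
      g x * Real.exp (-(‖x - y‖ ^ 2 / (2 * (8 * κ)))) * rh A V R x =
      g x * tl A V (1 / (2 * (8 * κ))) (ch R) y x := by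
    intro g x
    rw [← e0, mul_assoc]
  unfold zz at hZ
  unfold pst zz
  rw [em] at hZ
  rw [em, em, em]
  simp only [e0] at hZ ⊢
  simp only [e1 fun x => ⟪x, w⟫_ℝ ^ 2, e1 fun x => ⟪x, w⟫_ℝ]
  set Z := ∫ x : E ι, tl A V (1 / (2 * (8 * κ))) (ch R) y x with hZd
  set M2 := ∫ x : E ι, ⟪x, w⟫_ℝ ^ 2 * tl A V (1 / (2 * (8 * κ))) (ch R) y x
  set M1 := ∫ x : E ι, ⟪x, w⟫_ℝ * tl A V (1 / (2 * (8 * κ))) (ch R) y x
  have e2 : M2 / Z - (M1 / Z) ^ 2 = (M2 * Z - M1 ^ 2) / Z ^ 2 := by
    field_simp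
  rw [e2, div_le_iff₀ (by positivity)]
  refine key.trans (le_of_eq ?_)
  ring

theorem rh_cint (h : Sys L A V) {R : ℝ} (hR : 0 < R) {g : E ι → ℝ} (hg : Continuous g) :
    Integrable fun x => g x * rh A V R x := by
  have hLC := rh_LC h hR
  have h1 := Pool.Agent.H888R2.KT.N0x.cont_int hLC g hg
  unfold mu at h1
  rw [integrable_withDensity_iff_integrable_smul₀' (rh_meas h R).ennreal_ofReal.aemeasurable
    (Eventually.of_forall fun x => ENNReal.ofReal_lt_top)] at h1
  refine h1.congr (Eventually.of_forall fun x => ?_)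
  simp only [smul_eq_mul]
  rw [ENNReal.toReal_ofReal (rh_nonneg R x), mul_comm]

/-- the Poincare inequality for the cut off density -/
theorem rh_poin (h : Sys L A V) {κ : ℝ} (hκ : 0 < κ)
    (hK : ∀ w, qd (cm (fun i j => 2 * A i j) (fun k t => 2 * V k t)) w ≤ κ * ‖w‖ ^ 2)
    {R : ℝ} (hR : 0 < R) {f : E ι → ℝ} (hf : ContDiff ℝ 1 f) :
    ∃ m : ℝ, ∫ x, (f x - m) ^ 2 * rh A V R x ≤
      16 * κ * ∫ x, ‖fderiv ℝ f x‖ ^ 2 * rh A V R x := by
  have hLC := rh_LC h hR
  have h8 : 0 < 8 * κ := by positivity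
  have em : ∀ g : E ι → ℝ, ∫ x, g x ∂(mu (rh A V R)) = ∫ x, g x * rh A V R x := fun g =>
    Pool.Agent.H888R2.KT.N2x.int_mu hLC.nonneg hLC.meas g
  have ha : 0 < ∫ x, rh A V R x := by
    have hZ := (Pool.Agent.H888R2.KT.zz_pos hLC 1 one_pos 0).1
    unfold zz at hZ
    rw [em] at hZ
    refine hZ.trans_le (integral_mono ?_ (rh_int h R) fun x => ?_)
    · exact rh_cint h hR (by fun_prop)
    · refine mul_le_of_le_one_left (rh_nonneg R x) ?_
      rw [Real.exp_le_one_iff]
      have : 0 ≤ ‖x - 0‖ ^ 2 / (2 * 1) := by positivity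
      linarith
  set a := ∫ x, rh A V R x with had
  set b := ∫ x, f x * rh A V R x with hb
  refine ⟨b / a, ?_⟩
  have h1 := Pool.Agent.Y506.KS.crit hLC (8 * κ) h8 (rh_PC h hκ hK hR) (fun x => f x - b / a)
    (hf.sub contDiff_const) (by
      rw [em]
      have e : ∀ x, (f x - b / a) * rh A V R x = f x * rh A V R x - b / a * rh A V R x := by
        intro x
        ring
      simp only [e]
      rw [integral_sub (rh_cint h hR hf.continuous) ((rh_int h R).const_mul _), integral_const_mul,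
        ← had, ← hb]
      field_simp
      ring)
  rw [em, em] at h1
  have e2 : ∀ x, fderiv ℝ (fun x => f x - b / a) x = fderiv ℝ f x := fun x => by
    rw [fderiv_sub_const]
  simp only [e2] at h1
  refine h1.trans (le_of_eq ?_)
  ring

end Pool.Agent.T6.H78.KF
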