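import Pool.Agent.T6.H78.KF.Sys

/-!
# The Schwinger-Dyson equations
-/

set_option autoImplicit false
set_option linter.unusedSectionVars false

namespace Pool.Agent.T6.H78.KF

open MeasureTheory Finset Set

variable {ι : Type} [Fintype ι] {L : ℝ} {A : ι → ι → ℝ} {V : ι → ℝ → ℝ}

theorem HH_line [DecidableEq ι] (h : Sys L A V) (x : E ι) (j : ι) :
    HasDerivAt (fun t : ℝ => HH A V (x + t • EuclideanSpace.single j (1 : ℝ)))
      (∑ k, A k j * x k + deriv (V j) (x j)) 0 := by
  let d : ι → ℝ := fun k => if k = j then 1 else 0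
  have hc : ∀ (t : ℝ) (k : ι), (x + t • EuclideanSpace.single j (1 : ℝ)) k = x k + t * d k := by
    intro t k
    simp only [PiLp.add_apply, PiLp.smul_apply, PiLp.single_apply, smul_eq_mul, d]
  have hl : ∀ k, HasDerivAt (fun t : ℝ => x k + t * d k) (d k) 0 := by
    intro k
    have := ((hasDerivAt_id (0 : ℝ)).mul_const (d k)).const_add (x k)
    simpa using this
  have h1 : HasDerivAt (fun t : ℝ => ∑ i, ∑ k, A i k * ((x i + t * d i) * (x k + t * d k)))
      (∑ i, ∑ k, A i k * (d i * x k + x i * d k)) 0 := by
    refine HasDerivAt.fun_sum fun i _ => HasDerivAt.fun_sum fun k _ => ?_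
    have := ((hl i).mul (hl k)).const_mul (A i k)
    simp only [zero_mul, add_zero] at this
    exact this
  have h2 : HasDerivAt (fun t : ℝ => ∑ k, V k (x k + t * d k))
      (∑ k, deriv (V k) (x k) * d k) 0 := by
    refine HasDerivAt.fun_sum fun k _ => ?_
    have h3 : HasDerivAt (V k) (deriv (V k) (x k)) (x k + 0 * d k) := by
      rw [zero_mul, add_zero]
      exact ((h.pot k).diff _).hasDerivAt
    exact h3.comp (0 : ℝ) (hl k)
  have h4 := (h1.div_const 2).add h2
  have e1 : (fun t : ℝ => HH A V (x + t • EuclideanSpace.single j (1 : ℝ))) =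
      fun t => (∑ i, ∑ k, A i k * ((x i + t * d i) * (x k + t * d k))) / 2 +
        ∑ k, V k (x k + t * d k) := by
    funext t
    simp only [HH, qd, hc]
  rw [e1]
  refine h4.congr_deriv ?_
  have e2 : ∑ i, ∑ k, A i k * (d i * x k + x i * d k) = 2 * ∑ k, A k j * x k := by
    have a1 : ∑ i, ∑ k, A i k * (d i * x k) = ∑ k, A k j * x k := by
      rw [Finset.sum_comm]
      refine Finset.sum_congr rfl fun k _ => ?_
      rw [Finset.sum_eq_single j]
      · simp [d, h.symm k j]
      · intro i _ hi
        simp [d, hi]
      · simp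
    have a2 : ∑ i, ∑ k, A i k * (x i * d k) = ∑ k, A k j * x k := by
      refine Finset.sum_congr rfl fun i _ => ?_
      rw [Finset.sum_eq_single j]
      · simp [d]
      · intro k _ hk
        simp [d, hk]
      · simp
    simp only [mul_add, Finset.sum_add_distrib]
    rw [a1, a2]
    ring
  have e3 : ∑ k, deriv (V k) (x k) * d k = deriv (V j) (x j) := by
    rw [Finset.sum_eq_single j]
    · simp [d]
    · intro k _ hk
      simp [d, hk]
    · simp
  rw [e2, e3]
  ring

/-- **Schwinger-Dyson equations** -/
theorem Sys.sd [DecidableEq ι] (h : Sys L A V) (i j : ι) :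
    (if i = j then ∫ x : E ι, wt A V x else 0) =
      ∑ k, A k j * (∫ x : E ι, x i * x k * wt A V x) +
        ∫ x : E ι, x i * deriv (V j) (x j) * wt A V x := by
  have pj : PG (fun x : E ι => ∑ k, A k j * x k + deriv (V j) (x j)) :=
    (PG.sum _ fun k _ => (PG.coord k).cmul _).add (PG.deriv h.two (h.pot j) j)
  have i1 : Integrable (fun x : E ι => (if i = j then (1 : ℝ) else 0) * wt A V x) :=
    h.intg (PG.const _)
  have i2 : Integrable (fun x : E ι => x i * (-(∑ k, A k j * x k + deriv (V j) (x j)) *
      wt A V x)) := by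
    refine (h.intg (((PG.coord i).mul pj).cmul (-1))).congr
      (Filter.Eventually.of_forall fun x => ?_)
    simp only
    ring
  have i3 : Integrable (fun x : E ι => x i * wt A V x) := h.intg (PG.coord i)
  have key := integral_bilinear_hasLineDerivAt_right_eq_neg_left_of_integrable
    (μ := (volume : Measure (E ι))) (f := fun x : E ι => x i)
    (f' := fun _ => if i = j then (1 : ℝ) else 0) (g := wt A V)
    (g' := fun x => -(∑ k, A k j * x k + deriv (V j) (x j)) * wt A V x)
    (v := EuclideanSpace.single j (1 : ℝ)) (B := ContinuousLinearMap.mul ℝ ℝ) i1 i2 i3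
    (fun x _ => by
      show HasDerivAt (fun t : ℝ => (x + t • EuclideanSpace.single j (1 : ℝ)) i) _ 0
      simp only [PiLp.add_apply, PiLp.smul_apply, PiLp.single_apply, smul_eq_mul]
      have := ((hasDerivAt_id (0 : ℝ)).mul_const (if i = j then (1 : ℝ) else 0)).const_add (x i)
      simpa using this)
    (fun x _ => by
      show HasDerivAt (fun t : ℝ => wt A V (x + t • EuclideanSpace.single j (1 : ℝ))) _ 0
      have := (HH_line h x j).fun_neg.exp
      refine this.congr_deriv ?_
      simp only [zero_smul, add_zero, wt]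
      ring)
  simp only [ContinuousLinearMap.mul_apply'] at key
  have e1 : ∫ x : E ι, x i * (-(∑ k, A k j * x k + deriv (V j) (x j)) * wt A V x) =
      -(∑ k, A k j * (∫ x : E ι, x i * x k * wt A V x) +
        ∫ x : E ι, x i * deriv (V j) (x j) * wt A V x) := by
    have a1 : ∀ x : E ι, x i * (-(∑ k, A k j * x k + deriv (V j) (x j)) * wt A V x) =
        -(∑ k, A k j * (x i * x k * wt A V x) + x i * deriv (V j) (x j) * wt A V x) := by
      intro x
      rw [show ∑ k, A k j * (x i * x k * wt A V x) = x i * (∑ k, A k j * x k) * wt A V x by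
        rw [Finset.mul_sum, Finset.sum_mul]
        refine Finset.sum_congr rfl fun k _ => ?_
        ring]
      ring
    simp only [a1]
    have b1 : ∀ k, Integrable (fun x : E ι => A k j * (x i * x k * wt A V x)) := fun k =>
      (h.intg ((PG.coord i).mul (PG.coord k))).const_mul _
    have b2 : Integrable (fun x : E ι => x i * deriv (V j) (x j) * wt A V x) :=
      h.intg ((PG.coord i).mul (PG.deriv h.two (h.pot j) j))
    rw [integral_neg, integral_add (integrable_finsetSum _ fun k _ => b1 k) b2,
      integral_finsetSum _ fun k _ => b1 k]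
    simp only [integral_const_mul]
  have e2 : ∫ x : E ι, (if i = j then (1 : ℝ) else 0) * wt A V x =
      if i = j then ∫ x : E ι, wt A V x else 0 := by
    split_ifs <;> simp
  rw [e1, e2] at key
  linarith

end Pool.Agent.T6.H78.KF
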