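import Pool.Agent.T6.H78.KF.Decay

/-!
# Ferromagnetic log-concave systems
-/

set_option autoImplicit false
set_option linter.unusedSectionVars false

namespace Pool.Agent.T6.H78.KF

open MeasureTheory Finset Set

variable {ι : Type} [Fintype ι]

/-- the quadratic form -/
def qd (A : ι → ι → ℝ) (x : E ι) : ℝ := ∑ i, ∑ j, A i j * (x i * x j)

/-- the energy -/
noncomputable def HH (A : ι → ι → ℝ) (V : ι → ℝ → ℝ) (x : E ι) : ℝ := qd A x / 2 + ∑ k, V k (x k)

/-- the weight `exp (-H)` -/
noncomputable def wt (A : ι → ι → ℝ) (V : ι → ℝ → ℝ) (x : E ι) : ℝ := Real.exp (-HH A V x)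

/-- the single spin weights -/
noncomputable def sw (V : ι → ℝ → ℝ) : ι → ℝ → ℝ := fun k t => Real.exp (-V k t)

structure Sys (L : ℝ) (A : ι → ι → ℝ) (V : ι → ℝ → ℝ) : Prop where
  symm : ∀ i j, A i j = A j i
  psd : ∀ x : E ι, 0 ≤ qd A x
  off : ∀ i j, i ≠ j → A i j ≤ 0
  pot : ∀ k, Pot L (V k)
  two : 2 ≤ L
  int : Integrable (wt A V)

theorem wt_den (A : ι → ι → ℝ) (V : ι → ℝ → ℝ) : wt A V = den (fun i j => A i j / 2) (sw V) := by
  funext x
  simp only [wt, den, sw, HH, qd, neg_add, Real.exp_add]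
  congr 1
  · congr 2
    rw [Finset.sum_div]
    refine Finset.sum_congr rfl fun i _ => ?_
    rw [Finset.sum_div]
    refine Finset.sum_congr rfl fun j _ => ?_
    ring
  · rw [← Real.exp_sum, Finset.sum_neg_distrib]

variable {L : ℝ} {A : ι → ι → ℝ} {V : ι → ℝ → ℝ}

theorem qd_cont (A : ι → ι → ℝ) : Continuous (qd A) := by
  unfold qd
  fun_prop

theorem Sys.cont (h : Sys L A V) : Continuous (HH A V) := by
  unfold HH
  refine ((qd_cont A).div_const 2).add ?_
  refine continuous_finsetSum _ fun k _ => ?_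
  exact (h.pot k).diff.continuous.comp (by fun_prop)

theorem qd_convex (hp : ∀ x : E ι, 0 ≤ qd A x) : ConvexOn ℝ univ (qd A) := by
  refine ⟨convex_univ, fun x _ y _ t s ht hs hts => ?_⟩
  have e : t * qd A x + s * qd A y - qd A (t • x + s • y) = t * s * qd A (x - y) := by
    have hs' : s = 1 - t := by linarith
    simp only [qd, Finset.mul_sum, ← Finset.sum_add_distrib, ← Finset.sum_sub_distrib]
    refine Finset.sum_congr rfl fun i _ => Finset.sum_congr rfl fun j _ => ?_
    simp only [PiLp.add_apply, PiLp.smul_apply, PiLp.sub_apply, smul_eq_mul]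
    rw [hs']
    ring
  simp only [smul_eq_mul]
  have := mul_nonneg (mul_nonneg ht hs) (hp (x - y))
  linarith

theorem Sys.convex (h : Sys L A V) : ConvexOn ℝ univ (HH A V) := by
  have h1 : ConvexOn ℝ univ fun x : E ι => qd A x / 2 := by
    have := (qd_convex h.psd).smul (show (0 : ℝ) ≤ 1 / 2 by norm_num)
    refine this.congr fun x _ => ?_
    simp only [smul_eq_mul]
    ring
  have h2 : ∀ k, ConvexOn ℝ univ fun x : E ι => V k (x k) := fun k => by
    have := (h.pot k).convex.comp_linearMap (EuclideanSpace.proj (𝕜 := ℝ) k : E ι →L[ℝ] ℝ).toLinearMap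
    exact this
  have h3 : ConvexOn ℝ univ fun x : E ι => ∑ k, V k (x k) := by
    have : ∀ s : Finset ι, ConvexOn ℝ univ fun x : E ι => ∑ k ∈ s, V k (x k) := by
      classical
      intro s
      induction s using Finset.induction_on with
      | empty => simpa using convexOn_const 0 convex_univ
      | insert a s ha ih =>
        refine ((h2 a).add ih).congr fun x _ => ?_
        simp [Finset.sum_insert ha]
    exact this _
  exact h1.add h3

theorem Sys.min (h : Sys L A V) (x : E ι) : HH A V 0 ≤ HH A V x := by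
  have h1 : qd A (0 : E ι) = 0 := by simp [qd]
  have h2 := h.psd x
  have h3 : ∑ k, V k ((0 : E ι) k) ≤ ∑ k, V k (x k) :=
    Finset.sum_le_sum fun k _ => by simpa using (h.pot k).le (x k)
  simp only [HH, h1]
  linarith

theorem Sys.mom (h : Sys L A V) (N : ℕ) : Integrable (fun x : E ι => (1 + ‖x‖) ^ N * wt A V x) :=
  moments volume h.convex h.cont h.min h.int N

/-- measurable with polynomial growth -/
structure PG (f : E ι → ℝ) : Prop where
  meas : Measurable f
  bound : ∃ (C : ℝ) (N : ℕ), 0 ≤ C ∧ ∀ x, |f x| ≤ C * (1 + ‖x‖) ^ N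

theorem PG.mul {f g : E ι → ℝ} (hf : PG f) (hg : PG g) : PG (fun x => f x * g x) := by
  obtain ⟨C, N, hC, h1⟩ := hf.bound
  obtain ⟨D, M, hD, h2⟩ := hg.bound
  refine ⟨hf.meas.mul hg.meas, C * D, N + M, by positivity, fun x => ?_⟩
  rw [abs_mul, pow_add]
  calc |f x| * |g x| ≤ (C * (1 + ‖x‖) ^ N) * (D * (1 + ‖x‖) ^ M) := by
        gcongr
        · exact h1 x
        · exact h2 x
    _ = _ := by ring

theorem PG.add {f g : E ι → ℝ} (hf : PG f) (hg : PG g) : PG (fun x => f x + g x) := by
  obtain ⟨C, N, hC, h1⟩ := hf.bound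
  obtain ⟨D, M, hD, h2⟩ := hg.bound
  refine ⟨hf.meas.add hg.meas, C + D, N + M, by positivity, fun x => ?_⟩
  have hx : 1 ≤ 1 + ‖x‖ := by linarith [norm_nonneg x]
  calc |f x + g x| ≤ |f x| + |g x| := abs_add_le _ _
    _ ≤ C * (1 + ‖x‖) ^ N + D * (1 + ‖x‖) ^ M := add_le_add (h1 x) (h2 x)
    _ ≤ C * (1 + ‖x‖) ^ (N + M) + D * (1 + ‖x‖) ^ (N + M) := by
        gcongr
        · omega
        · omega
    _ = _ := by ring

theorem PG.const (c : ℝ) : PG (fun _ : E ι => c) :=
  ⟨measurable_const, |c|, 0, abs_nonneg c, fun x => by simp⟩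

theorem PG.cmul {f : E ι → ℝ} (hf : PG f) (c : ℝ) : PG (fun x => c * f x) := (PG.const c).mul hf

theorem abs_coord_le (x : E ι) (i : ι) : |x i| ≤ ‖x‖ := by
  have := PiLp.norm_apply_le x i
  rwa [Real.norm_eq_abs] at this

theorem PG.coord (i : ι) : PG (fun x : E ι => x i) :=
  ⟨by fun_prop, 1, 1, zero_le_one, fun x => by
    have := abs_coord_le x i
    linarith⟩

theorem PG.sum {α : Type*} (s : Finset α) {f : α → E ι → ℝ} (hf : ∀ a ∈ s, PG (f a)) :
    PG (fun x => ∑ a ∈ s, f a x) := by
  classical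
  induction s using Finset.induction_on with
  | empty => simpa using PG.const (ι := ι) 0
  | insert a s ha ih =>
    have h1 := hf a (Finset.mem_insert_self a s)
    have h2 := ih fun b hb => hf b (Finset.mem_insert_of_mem hb)
    have := h1.add h2
    refine (funext fun x => ?_ : (fun x => ∑ b ∈ insert a s, f b x) =
      fun x => f a x + ∑ b ∈ s, f b x) ▸ this
    rw [Finset.sum_insert ha]

theorem PG.deriv (hL : 2 ≤ L) {W : ℝ → ℝ} (h : Pot L W) (i : ι) :
    PG (fun x : E ι => _root_.deriv W (x i)) := by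
  obtain ⟨C, N, hC, h1, -⟩ := h.growth hL
  refine ⟨(measurable_deriv W).comp (by fun_prop), C, N, hC, fun x => (h1 _).trans ?_⟩
  gcongr
  exact abs_coord_le x i

theorem gg_meas (W : ℝ → ℝ) : Measurable (gg W) := (measurable_deriv W).div measurable_id

theorem PG.gg (hL : 2 ≤ L) {W : ℝ → ℝ} (h : Pot L W) (i : ι) :
    PG (fun x : E ι => gg W (x i)) := by
  obtain ⟨C, N, hC, -, h1⟩ := h.growth hL
  refine ⟨(gg_meas W).comp (by fun_prop), C, N, hC, fun x => ?_⟩
  rw [abs_of_nonneg (h.gg_nonneg _)]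
  refine (h1 _).trans ?_
  gcongr
  exact abs_coord_le x i

theorem Sys.intg (h : Sys L A V) {f : E ι → ℝ} (hf : PG f) :
    Integrable (fun x => f x * wt A V x) := by
  obtain ⟨C, N, hC, h1⟩ := hf.bound
  have hwc : Continuous (wt A V) := Real.continuous_exp.comp h.cont.neg
  refine ((h.mom N).const_mul C).mono' (hf.meas.mul hwc.measurable).aestronglyMeasurable
    (Filter.Eventually.of_forall fun x => ?_)
  rw [Real.norm_eq_abs, abs_mul, abs_of_pos (show 0 < wt A V x from Real.exp_pos _), ← mul_assoc]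
  exact mul_le_mul_of_nonneg_right (h1 x) (Real.exp_pos _).le

theorem Sys.cwt (h : Sys L A V) : Continuous (wt A V) := Real.continuous_exp.comp h.cont.neg

theorem wt_pos (x : E ι) : 0 < wt A V x := Real.exp_pos _

theorem Sys.Zpos (h : Sys L A V) : 0 < ∫ x, wt A V x :=
  integral_pos_of_integrable_nonneg_nonzero (x := 0) h.cwt h.int (fun x => (wt_pos x).le)
    (wt_pos _).ne'

theorem Pot.double {W : ℝ → ℝ} (h : Pot L W) : Pot L (fun t => 2 * W t) := by
  have e : deriv (fun t => 2 * W t) = fun t => 2 * deriv W t := funext fun t =>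
    deriv_const_mul 2 (h.diff t)
  refine ⟨h.diff.const_mul 2, fun x => by simp only [h.even], ?_, ?_, ?_⟩
  · rw [e]
    exact h.conv.smul (zero_le_two (α := ℝ))
  · intro x hx
    rw [e]
    have := h.nonneg x hx
    positivity
  · intro x hx
    rw [e]
    have := h.dbl x hx
    simp only
    linarith

theorem qd_two (x : E ι) : qd (fun i j => 2 * A i j) x = 2 * qd A x := by
  simp only [qd, Finset.mul_sum]
  refine Finset.sum_congr rfl fun i _ => Finset.sum_congr rfl fun j _ => ?_
  ring

theorem Sys.double (h : Sys L A V) : Sys L (fun i j => 2 * A i j) (fun k t => 2 * V k t) := by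
  have e : ∀ x : E ι, HH (fun i j => 2 * A i j) (fun k t => 2 * V k t) x = 2 * HH A V x := by
    intro x
    simp only [HH, qd_two, ← Finset.mul_sum]
    ring
  refine ⟨fun i j => by rw [h.symm], fun x => ?_, fun i j hij => ?_, fun k => (h.pot k).double,
    h.two, ?_⟩
  · rw [qd_two]
    have := h.psd x
    positivity
  · have := h.off i j hij
    linarith
  · have hm : Continuous (wt (fun i j => 2 * A i j) (fun k t => 2 * V k t) : E ι → ℝ) := by
      unfold wt
      simp only [e]
      exact Real.continuous_exp.comp (h.cont.const_mul 2 |>.neg)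
    refine (h.int.const_mul (Real.exp (-HH A V 0))).mono' hm.aestronglyMeasurable
      (Filter.Eventually.of_forall fun x => ?_)
    rw [Real.norm_eq_abs, abs_of_pos (wt_pos x), wt, wt, e, ← Real.exp_add]
    refine Real.exp_le_exp.2 ?_
    have := h.min x
    linarith

end Pool.Agent.T6.H78.KF
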