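import Pool.Agent.T6.H78.KF.Mat

/-!
# The covariance of the tilted and cut off densities
-/

set_option autoImplicit false
set_option linter.unusedSectionVars false

namespace Pool.Agent.T6.H78.KF

open MeasureTheory Finset Set
open scoped InnerProductSpace

variable {ι : Type} [Fintype ι] {L : ℝ} {A : ι → ι → ℝ} {V : ι → ℝ → ℝ}

theorem inner_eq (x w : E ι) : ⟪x, w⟫_ℝ = ∑ k, w k * x k := by
  rw [PiLp.inner_apply]
  refine Finset.sum_congr rfl fun k _ => ?_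
  simp

theorem PG.inner (w : E ι) : PG fun x : E ι => ⟪x, w⟫_ℝ := by
  simp only [inner_eq]
  exact PG.sum _ fun k _ => (PG.coord k).cmul (w k)

theorem inner_sq (x w : E ι) : ⟪x, w⟫_ℝ ^ 2 = ∑ u, ∑ v, w u * w v * (x u * x v) := by
  rw [inner_eq, sq, Finset.sum_mul_sum]
  refine Finset.sum_congr rfl fun u _ => Finset.sum_congr rfl fun v _ => ?_
  ring

theorem tl_nonneg {χ : ℝ → ℝ} (hχ : Cut χ) (τ : ℝ) (y x : E ι) : 0 ≤ tl A V τ χ y x :=
  mul_nonneg (mul_nonneg (wt_pos _).le (Real.exp_pos _).le)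
    (Finset.prod_nonneg fun k _ => hχ.nonneg _)

theorem tl_le {χ : ℝ → ℝ} (hχ : Cut χ) {τ : ℝ} (hτ : 0 ≤ τ) (y x : E ι) :
    tl A V τ χ y x ≤ wt A V x := by
  have h1 : Real.exp (-(τ * ‖x - y‖ ^ 2)) ≤ 1 := by
    rw [Real.exp_le_one_iff]
    have : 0 ≤ τ * ‖x - y‖ ^ 2 := by positivity
    linarith
  have h2 : ∏ k, χ (x k) ≤ 1 := Finset.prod_le_one (fun k _ => hχ.nonneg _) fun k _ => hχ.le_one _
  have h3 : 0 ≤ ∏ k, χ (x k) := Finset.prod_nonneg fun k _ => hχ.nonneg _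
  calc tl A V τ χ y x = wt A V x * Real.exp (-(τ * ‖x - y‖ ^ 2)) * ∏ k, χ (x k) := rfl
    _ ≤ wt A V x * 1 * 1 := by
        have := (wt_pos (A := A) (V := V) x).le
        gcongr
    _ = _ := by ring

theorem tl_meas (h : Sys L A V) {χ : ℝ → ℝ} (hχ : Cut χ) (τ : ℝ) (y : E ι) :
    Measurable (tl A V τ χ y) := by
  refine Measurable.mul (h.cwt.measurable.mul (by fun_prop)) (Finset.measurable_prod _ fun k _ => ?_)
  exact hχ.meas.comp (by fun_prop)

theorem tl_int (h : Sys L A V) {χ : ℝ → ℝ} (hχ : Cut χ) {τ : ℝ} (hτ : 0 ≤ τ) (y : E ι)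
    {f : E ι → ℝ} (hf : PG f) : Integrable (fun x => f x * tl A V τ χ y x) := by
  refine (h.intg hf).norm.mono' (hf.meas.mul (tl_meas h hχ τ y)).aestronglyMeasurable
    (Filter.Eventually.of_forall fun x => ?_)
  rw [norm_mul, norm_mul]
  refine mul_le_mul_of_nonneg_left ?_ (norm_nonneg _)
  rw [Real.norm_eq_abs, Real.norm_eq_abs, abs_of_nonneg (tl_nonneg hχ τ y x),
    abs_of_pos (wt_pos x)]
  exact tl_le hχ hτ y x

theorem cond_lin (h : Sys L A V) {χ : ℝ → ℝ} (hχ : Cut χ) {τ : ℝ} (hτ : 0 ≤ τ) (c w : E ι) :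
    ∫ r : E ι, ⟪r, w⟫_ℝ ^ 2 * den A (aw V τ χ c) r ≤
      qd (cm (fun i j => 2 * A i j) (fun k t => 2 * V k t)) (av w) *
        ∫ r : E ι, den A (aw V τ χ c) r := by
  have i1 : ∀ u v : ι, Integrable fun r : E ι => w u * w v * (r u * r v * den A (aw V τ χ c) r) :=
    fun u v => (den_aw_int h hχ hτ c ((PG.coord u).mul (PG.coord v))).const_mul _
  have e1 : ∀ r : E ι, ⟪r, w⟫_ℝ ^ 2 * den A (aw V τ χ c) r =
      ∑ u, ∑ v, w u * w v * (r u * r v * den A (aw V τ χ c) r) := by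
    intro r
    rw [inner_sq]
    simp only [Finset.sum_mul]
    refine Finset.sum_congr rfl fun u _ => Finset.sum_congr rfl fun v _ => ?_
    ring
  simp only [e1]
  rw [integral_finsetSum _ fun u _ => integrable_finsetSum _ fun v _ => i1 u v]
  simp only [qd, Finset.sum_mul]
  refine Finset.sum_le_sum fun u _ => ?_
  rw [integral_finsetSum _ fun v _ => i1 u v]
  refine Finset.sum_le_sum fun v _ => ?_
  rw [integral_const_mul]
  obtain ⟨h1, h2⟩ := cond_uv h hχ hτ c u v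
  have h3 : w u * w v ≤ |w u| * |w v| := by
    rw [← abs_mul]
    exact le_abs_self _
  calc w u * w v * ∫ x : E ι, x u * x v * den A (aw V τ χ c) x ≤
      |w u| * |w v| * ∫ x : E ι, x u * x v * den A (aw V τ χ c) x :=
        mul_le_mul_of_nonneg_right h3 h1
    _ ≤ |w u| * |w v| * (ex (fun i j => 2 * A i j) (fun k t => 2 * V k t) (fun x => x u * x v) *
        ∫ x : E ι, den A (aw V τ χ c) x) := mul_le_mul_of_nonneg_left h2 (by positivity)
    _ = _ := by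
        simp only [cm, av_apply]
        ring

theorem tilt_var (h : Sys L A V) {κ : ℝ}
    (hK : ∀ w, qd (cm (fun i j => 2 * A i j) (fun k t => 2 * V k t)) w ≤ κ * ‖w‖ ^ 2)
    {χ : ℝ → ℝ} (hχ : Cut χ) {τ : ℝ} (hτ : 0 ≤ τ) (y w : E ι) :
    (∫ x : E ι, ⟪x, w⟫_ℝ ^ 2 * tl A V τ χ y x) * (∫ x : E ι, tl A V τ χ y x) -
      (∫ x : E ι, ⟪x, w⟫_ℝ * tl A V τ χ y x) ^ 2 ≤
      2 * (κ * ‖w‖ ^ 2) * (∫ x : E ι, tl A V τ χ y x) ^ 2 := by
  have j0 : Integrable (tl A V τ χ y) := by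
    have := tl_int h hχ hτ y (PG.const (ι := ι) 1)
    simpa using this
  have j1 : Integrable (fun x : E ι => ⟪x, w⟫_ℝ * tl A V τ χ y x) := tl_int h hχ hτ y (PG.inner w)
  have j2 : Integrable (fun x : E ι => ⟪x, w⟫_ℝ ^ 2 * tl A V τ χ y x) := by
    have := tl_int h hχ hτ y ((PG.inner w).mul (PG.inner w))
    refine this.congr (Filter.Eventually.of_forall fun x => ?_)
    simp only
    ring
  have i0 : Integrable fun p : E ι × E ι => tl A V τ χ y p.1 * tl A V τ χ y p.2 := j0.mul_prod j0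
  have b1 : Integrable fun p : E ι × E ι => (⟪p.1, w⟫_ℝ ^ 2 * tl A V τ χ y p.1) *
    tl A V τ χ y p.2 := j2.mul_prod j0
  have b2 : Integrable fun p : E ι × E ι => tl A V τ χ y p.1 *
    (⟪p.2, w⟫_ℝ ^ 2 * tl A V τ χ y p.2) := j0.mul_prod j2
  have b3 : Integrable fun p : E ι × E ι => (⟪p.1, w⟫_ℝ * tl A V τ χ y p.1) *
    (⟪p.2, w⟫_ℝ * tl A V τ χ y p.2) := j1.mul_prod j1
  have e1 : ∀ p : E ι × E ι, ⟪(1 / 2 : ℝ) • (p.1 - p.2), w⟫_ℝ ^ 2 *
      (tl A V τ χ y p.1 * tl A V τ χ y p.2) =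
      1 / 4 * (((⟪p.1, w⟫_ℝ ^ 2 * tl A V τ χ y p.1) * tl A V τ χ y p.2 +
        tl A V τ χ y p.1 * (⟪p.2, w⟫_ℝ ^ 2 * tl A V τ χ y p.2)) - 2 *
        ((⟪p.1, w⟫_ℝ * tl A V τ χ y p.1) * (⟪p.2, w⟫_ℝ * tl A V τ χ y p.2))) := by
    intro p
    rw [real_inner_smul_left, inner_sub_left]
    ring
  have b4 : Integrable fun p : E ι × E ι => ((⟪p.1, w⟫_ℝ ^ 2 * tl A V τ χ y p.1) *
      tl A V τ χ y p.2 + tl A V τ χ y p.1 * (⟪p.2, w⟫_ℝ ^ 2 * tl A V τ χ y p.2)) := b1.add b2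
  have key := crl (ρ := tl A V τ χ y) (f := fun r => ⟪r, w⟫_ℝ ^ 2) (K := κ * ‖w‖ ^ 2) i0
    (by
      simp only [e1]
      exact (b4.sub (b3.const_mul 2)).const_mul _) (fun c => by
      simp only [tl_mul]
      have a2 : ∀ r : E ι, ⟪r, w⟫_ℝ ^ 2 * (Real.exp (-(qd A c + 2 * τ * ‖c - y‖ ^ 2)) *
          den A (aw V τ χ c) r) = Real.exp (-(qd A c + 2 * τ * ‖c - y‖ ^ 2)) *
          (⟪r, w⟫_ℝ ^ 2 * den A (aw V τ χ c) r) := by
        intro r
        ring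
      simp only [a2]
      rw [integral_const_mul, integral_const_mul]
      have a3 := cond_lin h hχ hτ c w
      have a4 : 0 ≤ ∫ r : E ι, den A (aw V τ χ c) r := integral_nonneg fun r =>
        mul_nonneg (Real.exp_pos _).le (Finset.prod_nonneg fun k _ => aw_nonneg hχ τ c k _)
      have a5 : qd (cm (fun i j => 2 * A i j) (fun k t => 2 * V k t)) (av w) ≤ κ * ‖w‖ ^ 2 := by
        rw [← av_norm]
        exact hK _
      have a6 := mul_le_mul_of_nonneg_left (a3.trans (mul_le_mul_of_nonneg_right a5 a4))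
        (Real.exp_pos (-(qd A c + 2 * τ * ‖c - y‖ ^ 2))).le
      refine a6.trans (le_of_eq ?_)
      ring)
  simp only [e1] at key
  rw [integral_const_mul, integral_sub b4 (b3.const_mul 2), integral_add b1 b2,
    integral_const_mul, Measure.volume_eq_prod,
    integral_prod_mul (fun x : E ι => ⟪x, w⟫_ℝ ^ 2 * tl A V τ χ y x) (tl A V τ χ y),
    integral_prod_mul (tl A V τ χ y) (fun x : E ι => ⟪x, w⟫_ℝ ^ 2 * tl A V τ χ y x),
    integral_prod_mul (fun x : E ι => ⟪x, w⟫_ℝ * tl A V τ χ y x)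
      (fun x : E ι => ⟪x, w⟫_ℝ * tl A V τ χ y x),
    integral_prod_mul (tl A V τ χ y) (tl A V τ χ y)] at key
  nlinarith

end Pool.Agent.T6.H78.KF
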